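import Mathlib

/-! # Pfaffian orientations of graphs -/

namespace Pool.Agent.Lib.MP_0c183c_co

/-- An orientation of `G`: of the two directions of every edge exactly one is chosen. -/
structure Orientation {V : Type} (G : SimpleGraph V) where
  dir : V → V → Prop
  dir_iff : ∀ u v, G.Adj u v → (dir u v ↔ ¬ dir v u)

/-- A cycle `c` is central if `G - V(c)` has a perfect matching. -/
def Central {V : Type} (G : SimpleGraph V) {v : V} (c : G.Walk v v) : Prop :=
  ∃ M : G.Subgraph, M.IsMatching ∧ M.verts = {u | u ∉ c.support}

open Classical in
/-- Pfaffian orientations: every central even cycle, traversed in any direction, has an odd number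
of edges oriented in agreement with that direction. -/
def Orientation.IsPfaffian {V : Type} {G : SimpleGraph V} (D : Orientation G) : Prop :=
  ∀ (v : V) (c : G.Walk v v), c.IsCycle → Even c.length → Central G c →
    Odd (c.darts.countP fun d => D.dir d.fst d.snd)

/-- A graph is Pfaffian if it has a Pfaffian orientation. -/
def IsPfaffian {V : Type} (G : SimpleGraph V) : Prop := ∃ D : Orientation G, D.IsPfaffian

variable {n : ℕ}

/-- Perfect matchings of the complete graph on `Fin n`, as involutions without fixed points. -/
def IsPM (m : Equiv.Perm (Fin n)) : Prop := ∀ v, m v ≠ v ∧ m (m v) = v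

instance : DecidablePred (IsPM (n := n)) := fun _ => by unfold IsPM; infer_instance

/-- The perfect matching `m` is contained in `G`. -/
def InG (G : SimpleGraph (Fin n)) (m : Equiv.Perm (Fin n)) : Prop := ∀ v, G.Adj v (m v)

/-- The set of all perfect matchings of the complete graph. -/
def pms (n : ℕ) : Finset (Equiv.Perm (Fin n)) := Finset.univ.filter IsPM

/-- Parity of the number of crossing pairs of edges. -/
def cr (m : Equiv.Perm (Fin n)) : ZMod 2 :=
  ∑ i, ∑ j, if i < j ∧ j < m i ∧ m i < m j then 1 else 0

/-- The linear form of a labelling of the edges. -/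
def lin (x : Fin n → Fin n → ZMod 2) (m : Equiv.Perm (Fin n)) : ZMod 2 :=
  ∑ v, if v < m v then x v (m v) else 0

end Pool.Agent.Lib.MP_0c183c_co
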