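import Mathlib

/-! # Bird's division-free algorithm for determinants, in characteristic two -/

namespace Pool.Agent.Lib.MP_0c183c_co

open Finset Matrix

section
variable {R : Type*} [CommRing R]

theorem det_char_two [CharP R 2] {ι : Type*} [Fintype ι] [DecidableEq ι] (M : Matrix ι ι R) :
    M.det = ∑ σ : Equiv.Perm ι, ∏ b, M (σ b) b := by
  rw [Matrix.det_apply]
  refine sum_congr rfl fun σ _ => ?_
  rcases Int.units_eq_one_or (Equiv.Perm.sign σ) with h | h
  · rw [h, one_smul]
  · rw [h, Units.neg_smul, one_smul, CharTwo.neg_eq]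

theorem det_option [CharP R 2] {ι : Type*} [Fintype ι] [DecidableEq ι]
    (M : Matrix (Option ι) (Option ι) R) :
    M.det = M none none * (M.submatrix some some).det +
      ∑ l : ι, M (some l) none *
        (Matrix.of fun a b : ι => M (if a = l then none else some a) (some b)).det := by
  rw [det_char_two, ← Equiv.sum_comp Equiv.Perm.decomposeOption.symm, Fintype.sum_prod_type,
    Fintype.sum_option]
  congr 1
  · rw [det_char_two, mul_sum]
    refine sum_congr rfl fun τ _ => ?_
    rw [Fintype.prod_option]
    simp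
  · refine sum_congr rfl fun l _ => ?_
    rw [det_char_two, mul_sum]
    refine sum_congr rfl fun τ _ => ?_
    rw [Fintype.prod_option]
    refine congrArg₂ (· * ·) (by simp) (prod_congr rfl fun c _ => ?_)
    simp only [Equiv.Perm.decomposeOption_symm_apply, Equiv.Perm.coe_mul, Function.comp_apply,
      Equiv.optionCongr_apply, Option.map_some, of_apply]
    by_cases h : τ c = l
    · simp [h]
    · rw [if_neg h, Equiv.swap_apply_of_ne_of_ne (by simp) (by simpa using h)]

variable {n : ℕ}

/-- Principal minors. -/
def PM (A : Matrix (Fin n) (Fin n) R) (I : Finset (Fin n)) : R :=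
  (A.submatrix (Subtype.val : I → Fin n) (Subtype.val : I → Fin n)).det

/-- Bordered minors. -/
def DM (A : Matrix (Fin n) (Fin n) R) (i j : Fin n) (I : Finset (Fin n)) : R :=
  (Matrix.of fun a b : Option I => A (a.elim i Subtype.val) (b.elim j Subtype.val)).det

theorem DM_self (A : Matrix (Fin n) (Fin n) R) (i : Fin n) (I : Finset (Fin n)) (h : i ∉ I) :
    DM A i i I = PM A (insert i I) := by
  unfold DM PM
  rw [← Matrix.det_submatrix_equiv_self (Finset.subtypeInsertEquivOption h)]
  congr 1
  ext ⟨a, ha⟩ ⟨b, hb⟩
  simp only [submatrix_apply, of_apply, subtypeInsertEquivOption, Equiv.coe_fn_mk]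
  have key : ∀ (c : Fin n) (hc : c ∈ insert i I),
      (if h : c = i then none else some (⟨c, (Finset.mem_insert.1 hc).resolve_left h⟩ : I)).elim i
        Subtype.val = c := by
    intro c hc
    split_ifs with h'
    · exact h'.symm
    · rfl
  rw [key a ha, key b hb]

theorem DM_zero (A : Matrix (Fin n) (Fin n) R) (i l : Fin n) (I : Finset (Fin n)) (h : l ∈ I) :
    DM A i l I = 0 := by
  unfold DM
  apply Matrix.det_zero_of_column_eq (i := none) (j := some ⟨l, h⟩) (by simp)
  intro a
  simp

theorem DM_insert (A : Matrix (Fin n) (Fin n) R) (i l : Fin n) (I : Finset (Fin n)) (h : l ∉ I) :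
    DM A i l I = (Matrix.of fun a b : (insert l I : Finset (Fin n)) =>
      A (if a.1 = l then i else a.1) b.1).det := by
  unfold DM
  rw [← Matrix.det_submatrix_equiv_self (Finset.subtypeInsertEquivOption h)]
  congr 1
  ext ⟨a, ha⟩ ⟨b, hb⟩
  simp only [submatrix_apply, of_apply, subtypeInsertEquivOption, Equiv.coe_fn_mk]
  have key : ∀ (i c : Fin n) (hc : c ∈ insert l I),
      (if h : c = l then none else some (⟨c, (Finset.mem_insert.1 hc).resolve_left h⟩ : I)).elim i
        Subtype.val = if c = l then i else c := by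
    intro i c hc
    split_ifs with h'
    · rfl
    · rfl
  rw [key i a ha, key l b hb]
  congr 1
  split_ifs with h'
  · exact h'.symm
  · rfl

theorem DM_expand [CharP R 2] (A : Matrix (Fin n) (Fin n) R) (i j : Fin n)
    (I : Finset (Fin n)) :
    DM A i j I = A i j * PM A I + ∑ l ∈ I, A l j * DM A i l (I.erase l) := by
  conv_lhs => rw [DM, det_option]
  congr 1
  rw [← Finset.sum_coe_sort I]
  refine sum_congr rfl fun l _ => ?_
  obtain ⟨l, hl⟩ := l
  rw [DM_insert A i l _ (Finset.notMem_erase l I)]
  congr 1
  have key : ∀ J : Finset (Fin n), J = I → (Matrix.of fun a b : J =>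
      A (if a.1 = l then i else a.1) b.1).det = (Matrix.of fun a b : I =>
      A (if a.1 = l then i else a.1) b.1).det := by
    intro J hJ
    subst hJ
    rfl
  rw [key _ (Finset.insert_erase hl)]
  congr 1
  ext a b
  simp only [of_apply]
  congr 1
  by_cases h : a = ⟨l, hl⟩
  · subst h
    simp
  · have h' : a.1 ≠ l := fun h' => h (Subtype.ext h')
    simp [h, h']

/-- The auxiliary matrix of Bird's algorithm. -/
def mu (X : Matrix (Fin n) (Fin n) R) : Matrix (Fin n) (Fin n) R := fun i j =>
  if i < j then X i j else if i = j then ∑ l, if i < l then X l l else 0 else 0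

/-- Bird's iteration. -/
def bird (A : Matrix (Fin n) (Fin n) R) : ℕ → Matrix (Fin n) (Fin n) R
  | 0 => A
  | r + 1 => mu (bird A r) * A

theorem sum_min (i : Fin n) (r : ℕ) (F : Finset (Fin n) → R) :
    ∑ l ∈ Ioi i, ∑ I ∈ powersetCard r (Ioi l), F (insert l I) =
      ∑ J ∈ powersetCard (r + 1) (Ioi i), F J := by
  rw [Finset.sum_sigma']
  refine Finset.sum_bij' (fun p _ => insert p.1 p.2)
    (fun J hJ => ⟨J.min' (by
      rw [mem_powersetCard] at hJ
      exact Finset.card_pos.1 (by omega)), J.erase (J.min' (by
      rw [mem_powersetCard] at hJ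
      exact Finset.card_pos.1 (by omega)))⟩) ?_ ?_ ?_ ?_ ?_
  · rintro ⟨l, I⟩ h
    simp only [mem_sigma, mem_Ioi, mem_powersetCard] at h ⊢
    refine ⟨?_, ?_⟩
    · intro x hx
      rcases Finset.mem_insert.1 hx with rfl | hx
      · simpa using h.1
      · have := h.2.1 hx
        simp only [mem_Ioi] at this ⊢
        exact h.1.trans this
    · rw [card_insert_of_notMem, h.2.2]
      intro hl
      have := h.2.1 hl
      simp at this
  · intro J hJ
    rw [mem_powersetCard] at hJ
    simp only [mem_sigma, mem_Ioi, mem_powersetCard]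
    refine ⟨?_, ?_, ?_⟩
    · have := hJ.1 (J.min'_mem (Finset.card_pos.1 (by omega)))
      simpa using this
    · intro x hx
      rw [mem_erase] at hx
      rw [mem_Ioi]
      exact lt_of_le_of_ne (J.min'_le x hx.2) (Ne.symm hx.1)
    · rw [card_erase_of_mem (J.min'_mem _), hJ.2]
      rfl
  · rintro ⟨l, I⟩ h
    simp only [mem_sigma, mem_Ioi, mem_powersetCard] at h
    have hl : l ∉ I := by
      intro hl
      have := h.2.1 hl
      simp at this
    have hmin : (insert l I).min' (insert_nonempty l I) = l := by
      apply le_antisymm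
      · exact Finset.min'_le _ _ (mem_insert_self l I)
      · apply Finset.le_min'
        intro y hy
        rcases Finset.mem_insert.1 hy with rfl | hy
        · exact le_rfl
        · have := h.2.1 hy
          rw [mem_Ioi] at this
          exact this.le
    simp only [Sigma.mk.injEq]
    refine ⟨hmin, ?_⟩
    rw [hmin, erase_insert hl]
  · intro J hJ
    have hne : J.Nonempty := by
      rw [mem_powersetCard] at hJ
      exact Finset.card_pos.1 (by omega)
    exact Finset.insert_erase (Finset.min'_mem J hne)
  · intro p _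
    rfl

theorem sum_erase (S : Finset (Fin n)) (r : ℕ) (F : Fin n → Finset (Fin n) → R)
    (hF : ∀ l I, l ∈ I → F l I = 0) :
    ∑ J ∈ powersetCard (r + 1) S, ∑ l ∈ J, F l (J.erase l) =
      ∑ l ∈ S, ∑ I ∈ powersetCard r S, F l I := by
  have h1 : ∀ l ∈ S, ∑ I ∈ powersetCard r S, F l I =
      ∑ I ∈ (powersetCard r S).filter (fun I => l ∉ I), F l I := by
    intro l _
    rw [sum_filter]
    refine sum_congr rfl fun I _ => ?_
    by_cases h : l ∈ I
    · rw [hF l I h]; simp
    · simp [h]
  rw [sum_congr rfl h1, sum_sigma', sum_sigma']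
  refine Finset.sum_bij' (fun p _ => ⟨p.2, p.1.erase p.2⟩) (fun p _ => ⟨insert p.1 p.2, p.1⟩)
    ?_ ?_ ?_ ?_ ?_
  · rintro ⟨J, l⟩ h
    simp only [mem_sigma, mem_powersetCard, mem_filter] at h ⊢
    refine ⟨h.1.1 h.2, ⟨(erase_subset l J).trans h.1.1, ?_⟩, Finset.notMem_erase l J⟩
    rw [card_erase_of_mem h.2, h.1.2]
    rfl
  · rintro ⟨l, I⟩ h
    simp only [mem_sigma, mem_powersetCard, mem_filter] at h ⊢
    refine ⟨⟨insert_subset h.1 h.2.1.1, ?_⟩, mem_insert_self l I⟩
    rw [card_insert_of_notMem h.2.2, h.2.1.2]
  · rintro ⟨J, l⟩ h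
    simp only [mem_sigma] at h
    simp [insert_erase h.2]
  · rintro ⟨l, I⟩ h
    simp only [mem_sigma, mem_powersetCard, mem_filter] at h
    simp [erase_insert h.2.2]
  · rintro ⟨J, l⟩ h
    rfl

theorem bird_eq [CharP R 2] (A : Matrix (Fin n) (Fin n) R) (r : ℕ) (i j : Fin n) :
    bird A r i j = ∑ I ∈ powersetCard r (Ioi i), DM A i j I := by
  induction r generalizing i j with
  | zero =>
    simp only [bird, powersetCard_zero, sum_singleton]
    rw [DM_expand]
    simp [PM]
  | succ r ih =>
    have e1 : bird A (r + 1) i j = (∑ l ∈ Ioi i, bird A r i l * A l j) +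
        (∑ l ∈ Ioi i, bird A r l l) * A i j := by
      simp only [bird, Matrix.mul_apply, mu]
      have : ∀ l : Fin n, (if i < l then bird A r i l else if i = l then
          ∑ l, if i < l then bird A r l l else 0 else 0) * A l j =
          (if i < l then bird A r i l * A l j else 0) +
          (if i = l then (∑ l, if i < l then bird A r l l else 0) * A i j else 0) := by
        intro l
        by_cases h : i < l
        · have : i ≠ l := h.ne
          simp [h, this]
        · by_cases h' : i = l
          · subst h'; simp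
          · simp [h, h']
      rw [sum_congr rfl fun l _ => this l, sum_add_distrib]
      congr 1
      · rw [← sum_filter]
        refine sum_congr ?_ fun _ _ => rfl
        ext l; simp
      · simp only [sum_ite_eq, mem_univ, if_true]
        congr 1
        rw [← sum_filter]
        refine sum_congr ?_ fun _ _ => rfl
        ext l; simp
    rw [e1]
    have e2 : ∑ l ∈ Ioi i, bird A r l l = ∑ J ∈ powersetCard (r + 1) (Ioi i), PM A J := by
      rw [← sum_min]
      refine sum_congr rfl fun l _ => ?_
      rw [ih]
      refine sum_congr rfl fun I hI => ?_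
      rw [DM_self]
      intro hl
      have := (mem_powersetCard.1 hI).1 hl
      simp at this
    have e3 : ∑ l ∈ Ioi i, bird A r i l * A l j =
        ∑ J ∈ powersetCard (r + 1) (Ioi i), ∑ l ∈ J, A l j * DM A i l (J.erase l) := by
      rw [sum_erase (Ioi i) r (fun l I => A l j * DM A i l I)
        (fun l I h => by rw [DM_zero A i l I h, mul_zero])]
      refine sum_congr rfl fun l _ => ?_
      rw [ih, mul_comm, mul_sum]
    rw [e2, e3, sum_mul, ← sum_add_distrib]
    refine sum_congr rfl fun J _ => ?_
    rw [DM_expand A i j J, add_comm, mul_comm (PM A J)]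

theorem bird_det [CharP R 2] (A : Matrix (Fin (n + 1)) (Fin (n + 1)) R) :
    bird A n 0 0 = A.det := by
  rw [bird_eq]
  have hc : (Ioi (0 : Fin (n + 1))).card = n := by simp
  have : powersetCard n (Ioi (0 : Fin (n + 1))) = {Ioi 0} := by
    have := powersetCard_self (Ioi (0 : Fin (n + 1)))
    rwa [hc] at this
  rw [this, sum_singleton, DM_self _ _ _ (by simp)]
  have hu : (insert 0 (Ioi 0) : Finset (Fin (n + 1))) = univ := by
    ext x
    simp only [mem_insert, mem_Ioi, mem_univ, iff_true]
    rcases Fin.eq_zero_or_eq_succ x with h | ⟨y, h⟩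
    · left; exact h
    · right; rw [h]; exact Fin.succ_pos y
  rw [hu]
  unfold PM
  rw [← Matrix.det_submatrix_equiv_self (Equiv.subtypeUnivEquiv (p := (· ∈ (univ : Finset (Fin (n + 1))))) (fun x => mem_univ x)) A]
  rfl

end

end Pool.Agent.Lib.MP_0c183c_co
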