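import Pool.Agent.Lib.MP_0c183c_co.Defs

/-! # Determinants in characteristic two are sums over perfect matchings -/

namespace Pool.Agent.Lib.MP_0c183c_co

open Finset Matrix

variable {n : ℕ} {R : Type*} [CommRing R]

theorem mem_pms {m : Equiv.Perm (Fin n)} : m ∈ pms n ↔ IsPM m := by simp [pms]

theorem isPM_symm {σ : Equiv.Perm (Fin n)} (h : IsPM σ) : σ.symm = σ := by
  ext v
  congr 1
  rw [Equiv.symm_apply_eq]
  exact (h v).2.symm

theorem det_eq_sum_pms [CharP R 2] (A : Matrix (Fin n) (Fin n) R) (hs : ∀ u v, A u v = A v u)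
    (h0 : ∀ v, A v v = 0) : A.det = ∑ m ∈ pms n, ∏ v, A v (m v) := by
  rw [Matrix.det_apply]
  have h1 : ∀ σ : Equiv.Perm (Fin n), (Equiv.Perm.sign σ • ∏ i, A (σ i) i) = ∏ i, A i (σ i) := by
    intro σ
    have e : ∀ (s : ℤˣ) (a : R), s • a = a := by
      intro s a
      rcases Int.units_eq_one_or s with h | h
      · rw [h, one_smul]
      · rw [h]
        have : (-1 : ℤˣ) • a = -a := by simp [Units.smul_def]
        rw [this, CharTwo.neg_eq]
    rw [e]
    exact prod_congr rfl fun i _ => hs _ _
  rw [sum_congr rfl fun σ _ => h1 σ]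
  symm
  rw [pms, sum_filter, ← sub_eq_zero, ← sum_sub_distrib]
  have h2 : ∀ σ : Equiv.Perm (Fin n),
      ((if IsPM σ then ∏ i, A i (σ i) else 0) - ∏ i, A i (σ i)) =
        if IsPM σ then 0 else ∏ i, A i (σ i) := by
    intro σ
    split_ifs
    · rw [sub_self]
    · rw [zero_sub, CharTwo.neg_eq]
  rw [sum_congr rfl fun σ _ => h2 σ]
  refine sum_involution (fun σ _ => σ.symm) ?_ ?_ (fun _ _ => mem_univ _)
    (fun σ _ => Equiv.symm_symm σ)
  · intro σ _
    have hi : IsPM σ.symm ↔ IsPM σ := by
      constructor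
      · intro h
        have := isPM_symm h
        rw [Equiv.symm_symm] at this
        rw [this]
        exact h
      · intro h
        rw [isPM_symm h]
        exact h
    have hp : ∏ i, A i (σ.symm i) = ∏ i, A i (σ i) := by
      rw [← Equiv.prod_comp σ (fun i => A i (σ.symm i))]
      refine prod_congr rfl fun i _ => ?_
      rw [Equiv.symm_apply_apply, hs]
    rw [hp]
    by_cases h : IsPM σ
    · rw [if_pos h, if_pos (hi.2 h), add_zero]
    · rw [if_neg h, if_neg (fun h' => h (hi.1 h')), CharTwo.add_self_eq_zero]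
  · intro σ _ hne heq
    apply hne
    have hinv : ∀ v, σ (σ v) = v := by
      intro v
      have := Equiv.symm_apply_apply σ v
      rwa [heq] at this
    by_cases h : IsPM σ
    · rw [if_pos h]
    · rw [if_neg h]
      have : ∃ v, σ v = v := by
        by_contra hcon
        push Not at hcon
        exact h fun v => ⟨hcon v, hinv v⟩
      obtain ⟨v, hv⟩ := this
      exact prod_eq_zero (mem_univ v) (by rw [hv, h0])

/-- Delete all edges between `{i, k}` and the rest. -/
def mask (i k : Fin n) (A : Matrix (Fin n) (Fin n) R) : Matrix (Fin n) (Fin n) R :=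
  fun u v => if (u = i ∨ u = k) ↔ (v = i ∨ v = k) then A u v else 0

theorem mask_symm {A : Matrix (Fin n) (Fin n) R} (hs : ∀ u v, A u v = A v u) (i k : Fin n) :
    ∀ u v, mask i k A u v = mask i k A v u := by
  intro u v
  unfold mask
  rw [hs u v]
  congr 1
  exact propext Iff.comm

theorem mask_zero {A : Matrix (Fin n) (Fin n) R} (h0 : ∀ v, A v v = 0) (i k : Fin n) :
    ∀ v, mask i k A v v = 0 := by
  intro v
  simp [mask, h0]

theorem prod_mask (A : Matrix (Fin n) (Fin n) R) {i k : Fin n}
    {m : Equiv.Perm (Fin n)} (hm : IsPM m) :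
    ∏ v, mask i k A v (m v) = if m i = k then ∏ v, A v (m v) else 0 := by
  split_ifs with h
  · refine prod_congr rfl fun v _ => ?_
    unfold mask
    rw [if_pos]
    subst h
    constructor
    · rintro (rfl | rfl)
      · right; rfl
      · left; exact (hm i).2
    · rintro (h | h)
      · right; rw [← h]; exact (hm v).2.symm
      · left; exact m.injective h
  · refine prod_eq_zero (mem_univ i) ?_
    unfold mask
    rw [if_neg]
    intro hcon
    rcases hcon.1 (Or.inl rfl) with h' | h'
    · exact (hm i).1 h'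
    · exact h h'

/-- Weighted sum over perfect matchings. -/
def T (f : Equiv.Perm (Fin n) → R) (A : Matrix (Fin n) (Fin n) R) : R :=
  ∑ m ∈ pms n, f m * ∏ v, A v (m v)

theorem det_mask [CharP R 2] (A : Matrix (Fin n) (Fin n) R) (hs : ∀ u v, A u v = A v u)
    (h0 : ∀ v, A v v = 0) (i k : Fin n) :
    (mask i k A).det = T (fun m => if m i = k then 1 else 0) A := by
  rw [det_eq_sum_pms _ (mask_symm hs i k) (mask_zero h0 i k), T]
  refine sum_congr rfl fun m hm => ?_
  rw [prod_mask A (mem_pms.1 hm)]
  split_ifs <;> simp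

theorem det_mask₂ [CharP R 2] (A : Matrix (Fin n) (Fin n) R) (hs : ∀ u v, A u v = A v u)
    (h0 : ∀ v, A v v = 0) (i k j l : Fin n) :
    (mask i k (mask j l A)).det = T (fun m => if m i = k ∧ m j = l then 1 else 0) A := by
  rw [det_mask _ (mask_symm hs j l) (mask_zero h0 j l), T, T]
  refine sum_congr rfl fun m hm => ?_
  rw [prod_mask A (mem_pms.1 hm)]
  by_cases h1 : m i = k <;> by_cases h2 : m j = l <;> simp [h1, h2]

/-- The sum of determinants which computes the crossing polynomial. -/
def detS (A : Matrix (Fin n) (Fin n) R) : R :=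
  ∑ i, ∑ j, ∑ k, ∑ l, if i < j ∧ j < k ∧ k < l then (mask i k (mask j l A)).det else 0

theorem detS_eq [CharP R 2] (A : Matrix (Fin n) (Fin n) R) (hs : ∀ u v, A u v = A v u)
    (h0 : ∀ v, A v v = 0) (g : ZMod 2 →+* R) :
    detS A = T (fun m => g (cr m)) A := by
  unfold detS
  simp only [det_mask₂ A hs h0, T]
  have e1 : ∀ i j k l : Fin n, (if i < j ∧ j < k ∧ k < l then
      ∑ m ∈ pms n, (if m i = k ∧ m j = l then (1 : R) else 0) * ∏ v, A v (m v) else 0) =
      ∑ m ∈ pms n, (if i < j ∧ j < k ∧ k < l then (if m i = k ∧ m j = l then (1 : R) else 0)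
        else 0) * ∏ v, A v (m v) := by
    intro i j k l
    split_ifs
    · rfl
    · simp
  simp only [e1]
  have e2 : ∀ m : Equiv.Perm (Fin n), ∀ i j : Fin n,
      (∑ k, ∑ l, (if i < j ∧ j < k ∧ k < l then (if m i = k ∧ m j = l then (1 : R) else 0)
        else 0)) = if i < j ∧ j < m i ∧ m i < m j then 1 else 0 := by
    intro m i j
    rw [sum_eq_single (m i), sum_eq_single (m j)]
    · simp
    · intro l _ hl
      simp [Ne.symm hl]
    · simp
    · intro k _ hk
      simp [Ne.symm hk]
    · simp
  have e3 : ∀ m : Equiv.Perm (Fin n), g (cr m) = ∑ i, ∑ j,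
      (∑ k, ∑ l, (if i < j ∧ j < k ∧ k < l then (if m i = k ∧ m j = l then (1 : R) else 0)
        else 0)) := by
    intro m
    simp only [e2, cr, map_sum]
    refine sum_congr rfl fun i _ => sum_congr rfl fun j _ => ?_
    split_ifs <;> simp
  simp only [e3, sum_mul]
  simp only [sum_comm (s := (univ : Finset (Fin n))) (t := pms n)]

end Pool.Agent.Lib.MP_0c183c_co
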