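import Pool.Agent.Lib.MP_0c183c_co.PfaffIff
import Pool.Agent.Lib.MP_0c183c_co.CharTwo

/-! # The randomised test: completeness and soundness -/

namespace Pool.Agent.Lib.MP_0c183c_co

open Finset Polynomial

variable {n : ℕ}

open Classical in
/-- The weighted adjacency matrix. -/
noncomputable def ymat (G : SimpleGraph (Fin n)) (r : Fin n → Fin n → (ZMod 2)[X]) :
    Matrix (Fin n) (Fin n) (ZMod 2)[X] :=
  fun u v => if G.Adj u v then r (min u v) (max u v) else 0

theorem ymat_symm (G : SimpleGraph (Fin n)) (r : Fin n → Fin n → (ZMod 2)[X]) (u v : Fin n) :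
    ymat G r u v = ymat G r v u := by
  unfold ymat
  rw [G.adj_comm, min_comm, max_comm]

theorem ymat_zero (G : SimpleGraph (Fin n)) (r : Fin n → Fin n → (ZMod 2)[X]) (v : Fin n) :
    ymat G r v v = 0 := by
  unfold ymat
  simp

/-- The test accepts: the crossing polynomial is a linear combination of the edge polynomials. -/
def Acc (G : SimpleGraph (Fin n)) (r : Fin n → Fin n → (ZMod 2)[X]) : Prop :=
  ∃ x : Fin n → Fin n → ZMod 2, detS (ymat G r) =
    ∑ i, ∑ k, if i < k then C (x i k) * (mask i k (ymat G r)).det else 0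

theorem sum_mask_eq (A : Matrix (Fin n) (Fin n) (ZMod 2)[X]) (hs : ∀ u v, A u v = A v u)
    (h0 : ∀ v, A v v = 0) (x : Fin n → Fin n → ZMod 2) :
    (∑ i, ∑ k, if i < k then C (x i k) * (mask i k A).det else 0) =
      T (fun m => C (lin x m)) A := by
  simp only [det_mask A hs h0, T]
  have e1 : ∀ i k : Fin n, (if i < k then C (x i k) *
      ∑ m ∈ pms n, (if m i = k then (1 : (ZMod 2)[X]) else 0) * ∏ v, A v (m v) else 0) =
      ∑ m ∈ pms n, (if i < k then (if m i = k then C (x i k) else 0) else 0) *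
        ∏ v, A v (m v) := by
    intro i k
    split_ifs
    · rw [mul_sum]
      refine sum_congr rfl fun m _ => ?_
      split_ifs <;> simp
    · simp
  simp only [e1]
  have e3 : ∀ m : Equiv.Perm (Fin n), C (lin x m) = ∑ i, ∑ k,
      (if i < k then (if m i = k then C (x i k) else 0) else 0) := by
    intro m
    simp only [lin, map_sum]
    refine sum_congr rfl fun i _ => ?_
    rw [sum_eq_single (m i)]
    · by_cases h : i < m i
      · simp [h]
      · simp [h]
    · intro k _ hk
      simp [Ne.symm hk]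
    · simp
  simp only [e3, sum_mul]
  simp only [sum_comm (s := (univ : Finset (Fin n))) (t := pms n)]

theorem acc_iff (G : SimpleGraph (Fin n)) (r : Fin n → Fin n → (ZMod 2)[X]) :
    Acc G r ↔ ∃ x : Fin n → Fin n → ZMod 2,
      T (fun m => C (cr m + lin x m)) (ymat G r) = 0 := by
  unfold Acc
  refine exists_congr fun x => ?_
  rw [sum_mask_eq _ (ymat_symm G r) (ymat_zero G r),
    detS_eq _ (ymat_symm G r) (ymat_zero G r) C]
  have : T (fun m => C (cr m + lin x m)) (ymat G r) =
      T (fun m => C (cr m)) (ymat G r) + T (fun m => C (lin x m)) (ymat G r) := by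
    unfold T
    rw [← sum_add_distrib]
    refine sum_congr rfl fun m _ => ?_
    change C (cr m + lin x m) * _ = C (cr m) * _ + C (lin x m) * _
    rw [map_add, add_mul]
  rw [this, CharTwo.add_eq_zero]

theorem prod_zero_of_not_inG (G : SimpleGraph (Fin n)) (r : Fin n → Fin n → (ZMod 2)[X])
    (m : Equiv.Perm (Fin n)) (h : ¬ InG G m) : ∏ v, ymat G r v (m v) = 0 := by
  unfold InG at h
  push Not at h
  obtain ⟨v, hv⟩ := h
  refine prod_eq_zero (mem_univ v) ?_
  unfold ymat
  rw [if_neg hv]

theorem acc_of_pfaffian (G : SimpleGraph (Fin n)) (hG : IsPfaffian G)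
    (r : Fin n → Fin n → (ZMod 2)[X]) : Acc G r := by
  rw [acc_iff]
  obtain ⟨x, hx⟩ := pfaffian_iff.1 hG
  refine ⟨x, ?_⟩
  unfold T
  refine sum_eq_zero fun m hm => ?_
  change C (cr m + lin x m) * _ = 0
  by_cases h : InG G m
  · rw [hx m (mem_pms.1 hm) h, CharTwo.add_self_eq_zero, map_zero, zero_mul]
  · rw [prod_zero_of_not_inG G r m h, mul_zero]

/-- The variable of an edge. -/
def ev (u v : Fin n) : Fin (n * n) := finProdFinEquiv (u, v)

open Classical in
/-- The generating polynomial of the values of `cr + lin x` on the perfect matchings of `G`. -/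
noncomputable def genPoly (G : SimpleGraph (Fin n)) (x : Fin n → Fin n → ZMod 2) :
    MvPolynomial (Fin (n * n)) (ZMod 2)[X] :=
  ∑ m ∈ (pms n).filter (InG G), MvPolynomial.monomial
    (∑ v ∈ low m, Finsupp.single (ev v (m v)) 1) (C (cr m + lin x m))

theorem eval_genPoly (G : SimpleGraph (Fin n)) (x : Fin n → Fin n → ZMod 2)
    (y : Fin (n * n) → (ZMod 2)[X]) :
    MvPolynomial.eval y (genPoly G x) ^ 2 =
      T (fun m => C (cr m + lin x m)) (ymat G (fun u v => y (ev u v))) := by
  classical
  unfold genPoly T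
  rw [map_sum, CharTwo.sum_sq, ← sum_filter_add_sum_filter_not (pms n) (InG G)
    (fun m => C (cr m + lin x m) * ∏ v, ymat G (fun u v => y (ev u v)) v (m v))]
  have h0 : ∑ m ∈ (pms n).filter (fun m => ¬ InG G m),
      C (cr m + lin x m) * ∏ v, ymat G (fun u v => y (ev u v)) v (m v) = 0 := by
    refine sum_eq_zero fun m hm => ?_
    rw [mem_filter] at hm
    rw [prod_zero_of_not_inG G _ m hm.2, mul_zero]
  rw [h0, add_zero]
  refine sum_congr rfl fun m hm => ?_
  rw [mem_filter, mem_pms] at hm
  obtain ⟨hm, hmG⟩ := hm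
  rw [MvPolynomial.eval_monomial, mul_pow]
  congr 1
  · rw [← map_pow]
    congr 1
    generalize cr m + lin x m = a
    revert a
    decide
  · have h1 : (∑ v ∈ low m, Finsupp.single (ev v (m v)) 1).prod (fun i k => y i ^ k) =
        ∏ v ∈ low m, y (ev v (m v)) := by
      rw [← Finsupp.prod_finsetSum_index (by simp) (by intros; rw [pow_add])]
      refine prod_congr rfl fun v _ => ?_
      rw [Finsupp.prod_single_index (by simp), pow_one]
    rw [h1, ← prod_pow]
    have h2 : ∏ v, ymat G (fun u v => y (ev u v)) v (m v) =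
        ∏ v ∈ low m, (ymat G (fun u v => y (ev u v)) v (m v) *
          ymat G (fun u v => y (ev u v)) (m v) (m (m v))) := by
      have := sum_low (M := Additive (ZMod 2)[X]) hm
        (fun v => Additive.ofMul (ymat G (fun u v => y (ev u v)) v (m v)))
      exact this
    rw [h2]
    refine prod_congr rfl fun v hv => ?_
    rw [mem_low] at hv
    rw [(hm v).2, ymat_symm G _ (m v) v, ← sq]
    unfold ymat
    rw [if_pos (hmG v), min_eq_left hv.le, max_eq_right hv.le]

theorem genPoly_ne_zero (G : SimpleGraph (Fin n)) (x : Fin n → Fin n → ZMod 2)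
    (m : Equiv.Perm (Fin n)) (hm : IsPM m) (hmG : InG G m) (h : cr m ≠ lin x m) :
    genPoly G x ≠ 0 := by
  classical
  intro h0
  have h1 := congrArg (MvPolynomial.coeff (∑ v ∈ low m, Finsupp.single (ev v (m v)) 1)) h0
  unfold genPoly at h1
  rw [MvPolynomial.coeff_sum, sum_eq_single m] at h1
  · rw [MvPolynomial.coeff_monomial, if_pos rfl, MvPolynomial.coeff_zero] at h1
    rw [map_eq_zero_iff _ C_injective] at h1
    exact h (CharTwo.add_eq_zero.1 h1)
  · intro m' hm' hne
    rw [MvPolynomial.coeff_monomial, if_neg]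
    intro heq
    apply hne
    rw [mem_filter, mem_pms] at hm'
    have key : ∀ v ∈ low m', m v = m' v := by
      intro v hv
      have h2 := congrArg (fun f => f (ev v (m' v))) heq
      simp only [Finsupp.coe_finsetSum, Finset.sum_apply, Finsupp.single_apply] at h2
      have h3 : (∑ c ∈ low m', if ev c (m' c) = ev v (m' v) then 1 else 0) ≠ 0 := by
        rw [← sum_filter, sum_const, smul_eq_mul, mul_one]
        exact card_ne_zero_of_mem (mem_filter.2 ⟨hv, rfl⟩)
      rw [h2] at h3
      obtain ⟨w, hw, hw2⟩ := exists_ne_zero_of_sum_ne_zero h3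
      split_ifs at hw2 with hw3
      · have h4 := finProdFinEquiv.injective hw3
        rw [Prod.mk.injEq] at h4
        rw [← h4.2, h4.1]
      · exact absurd rfl hw2
    refine Equiv.ext fun v => ?_
    rcases lt_or_gt_of_ne (hm'.1 v).1 with h' | h'
    · have h5 := key (m' v) (by rw [mem_low, (hm'.1 v).2]; exact h')
      rw [(hm'.1 v).2] at h5
      rw [← h5, (hm _).2, h5]
    · exact (key v (mem_low.2 h')).symm
  · intro hcon
    exact absurd (mem_filter.2 ⟨mem_pms.2 hm, hmG⟩) hcon

theorem genPoly_deg (G : SimpleGraph (Fin n)) (x : Fin n → Fin n → ZMod 2) :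
    (genPoly G x).totalDegree ≤ n := by
  classical
  unfold genPoly
  refine (MvPolynomial.totalDegree_finsetSum _ _).trans (Finset.sup_le fun m _ => ?_)
  refine (MvPolynomial.totalDegree_monomial_le _ _).trans ?_
  have h1 : (∑ v ∈ low m, Finsupp.single (ev v (m v)) 1).sum (fun _ => id) =
      ∑ v ∈ low m, 1 := by
    rw [← Finsupp.sum_finsetSum_index (by simp) (by simp)]
    refine sum_congr rfl fun v _ => ?_
    rw [Finsupp.sum_single_index (by simp), id]
  rw [h1, sum_const, smul_eq_mul, mul_one]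
  exact (card_le_univ _).trans (by simp)

/-- The polynomial with given coefficients. -/
noncomputable def bitPoly (D : ℕ) (b : Fin D → Bool) : (ZMod 2)[X] :=
  ∑ a, if b a then X ^ (a : ℕ) else 0

theorem bitPoly_inj (D : ℕ) : Function.Injective (bitPoly D) := by
  intro b b' h
  funext a
  have key : ∀ b : Fin D → Bool, (bitPoly D b).coeff a = if b a then 1 else 0 := by
    intro b
    unfold bitPoly
    rw [finsetSum_coeff, sum_eq_single a]
    · split_ifs <;> simp
    · intro a' _ ha'
      split_ifs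
      · rw [coeff_X_pow, if_neg]
        exact fun h => ha' (Fin.ext h.symm)
      · simp
    · simp
  have := congrArg (fun p => p.coeff (a : ℕ)) h
  simp only [key] at this
  by_cases h1 : b a <;> by_cases h2 : b' a <;> simp_all

open Classical in
theorem sz_count {N : ℕ} (p : MvPolynomial (Fin N) (ZMod 2)[X]) (hp : p ≠ 0) (D : ℕ) :
    (univ.filter fun b : Fin N → Fin D → Bool =>
      MvPolynomial.eval (fun e => bitPoly D (b e)) p = 0).card * 2 ^ D ≤
      p.totalDegree * 2 ^ (D * N) := by
  set S : Finset (ZMod 2)[X] := univ.image (bitPoly D) with hS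
  have hcard : S.card = 2 ^ D := by
    rw [hS, card_image_of_injective _ (bitPoly_inj D)]
    simp
  have h1 := MvPolynomial.schwartz_zippel_totalDegree hp S
  rw [hcard] at h1
  have h2 : (univ.filter fun b : Fin N → Fin D → Bool =>
      MvPolynomial.eval (fun e => bitPoly D (b e)) p = 0).card ≤
      ((Fintype.piFinset fun _ : Fin N => S).filter fun f => MvPolynomial.eval f p = 0).card := by
    refine card_le_card_of_injOn (fun b e => bitPoly D (b e)) ?_ ?_
    · intro b hb
      simp only [coe_filter, mem_univ, true_and, Set.mem_ofPred_eq, Fintype.mem_piFinset] at hb ⊢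
      exact ⟨fun e => by rw [hS]; exact mem_image_of_mem _ (mem_univ _), hb⟩
    · intro b _ b' _ h
      funext e
      exact bitPoly_inj D (congrFun h e)
  have h3 : (((Fintype.piFinset fun _ : Fin N => S).filter
      fun f => MvPolynomial.eval f p = 0).card : ℚ≥0) * 2 ^ D ≤ p.totalDegree * 2 ^ (D * N) := by
    rw [div_le_div_iff₀ (by positivity) (by positivity)] at h1
    push_cast at h1
    rw [← pow_mul] at h1
    exact h1
  have h4 : ((Fintype.piFinset fun _ : Fin N => S).filter
      fun f => MvPolynomial.eval f p = 0).card * 2 ^ D ≤ p.totalDegree * 2 ^ (D * N) := by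
    exact_mod_cast h3
  exact (Nat.mul_le_mul_right _ h2).trans h4

theorem lin_congr (x x' : Fin n → Fin n → ZMod 2) (h : ∀ u v, u < v → x u v = x' u v)
    (m : Equiv.Perm (Fin n)) : lin x m = lin x' m := by
  unfold lin
  refine sum_congr rfl fun v _ => ?_
  split_ifs with hv
  · exact h _ _ hv
  · rfl

theorem isPfaffian_of_small (hn : n ≤ 1) (G : SimpleGraph (Fin n)) : IsPfaffian G := by
  rw [pfaffian_iff]
  refine ⟨fun _ _ => 0, fun m hm _ => ?_⟩
  rcases Nat.eq_zero_or_pos n with h | h
  · subst h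
    simp [cr, lin]
  · exfalso
    have hsub : Subsingleton (Fin n) := by
      obtain rfl : n = 1 := by omega
      infer_instance
    exact (hm ⟨0, h⟩).1 (Subsingleton.elim _ _)

open Classical in
/-- **Soundness**: a graph which is not Pfaffian is accepted with probability at most
`2 ^ (-n ^ 2)`. -/
theorem sound (G : SimpleGraph (Fin n)) (hG : ¬ IsPfaffian G) :
    (univ.filter fun b : Fin (n * n) → Fin (n ^ 3) → Bool =>
      Acc G (fun u v => bitPoly (n ^ 3) (b (ev u v)))).card * 2 ^ (n ^ 2) ≤ 2 ^ (n ^ 5) := by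
  have hn : 2 ≤ n := by
    by_contra hcon
    exact hG (isPfaffian_of_small (by omega) G)
  have hne : ∀ x : Fin n → Fin n → ZMod 2, genPoly G x ≠ 0 := by
    intro x
    by_contra hcon
    apply hG
    rw [pfaffian_iff]
    refine ⟨x, fun m hm hmG => ?_⟩
    by_contra h
    exact genPoly_ne_zero G x m hm hmG h hcon
  set P := {p : Fin n × Fin n // p.1 ≠ p.2} with hP
  have hcardP : Fintype.card P = n * n - n := by
    rw [Fintype.card_subtype]
    have := offDiag_card (univ : Finset (Fin n))
    rw [card_univ, Fintype.card_fin] at this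
    rw [← this]
    congr 1
    ext p
    simp
  set ext : (P → ZMod 2) → Fin n → Fin n → ZMod 2 := fun x u v =>
    if h : u ≠ v then x ⟨(u, v), h⟩ else 0 with hext
  set N := (univ.filter fun b : Fin (n * n) → Fin (n ^ 3) → Bool =>
      Acc G (fun u v => bitPoly (n ^ 3) (b (ev u v)))).card with hN
  have h1 : N ≤ ∑ x : P → ZMod 2, (univ.filter fun b : Fin (n * n) → Fin (n ^ 3) → Bool =>
      MvPolynomial.eval (fun e => bitPoly (n ^ 3) (b e)) (genPoly G (ext x)) = 0).card := by
    refine (card_le_card ?_).trans card_biUnion_le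
    intro b hb
    rw [mem_filter] at hb
    rw [mem_biUnion]
    obtain ⟨x, hx⟩ := (acc_iff _ _).1 hb.2
    refine ⟨fun p => x p.1.1 p.1.2, mem_univ _, ?_⟩
    rw [mem_filter]
    refine ⟨mem_univ _, ?_⟩
    have h2 := eval_genPoly G (ext fun p => x p.1.1 p.1.2) (fun e => bitPoly (n ^ 3) (b e))
    have h3 : T (fun m => C (cr m + lin (ext fun p => x p.1.1 p.1.2) m))
        (ymat G (fun u v => bitPoly (n ^ 3) (b (ev u v)))) = 0 := by
      rw [← hx]
      unfold T
      refine sum_congr rfl fun m _ => ?_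
      have : lin (ext fun p => x p.1.1 p.1.2) m = lin x m := by
        refine lin_congr _ _ (fun u v huv => ?_) m
        simp only [hext]
        rw [dif_pos huv.ne]
      change C (cr m + lin _ m) * _ = C (cr m + lin x m) * _
      rw [this]
    rw [h3] at h2
    exact pow_eq_zero_iff (by norm_num) |>.1 h2
  have h2 : N * 2 ^ (n ^ 3) ≤ 2 ^ (n * n - n) * (n * 2 ^ (n ^ 3 * (n * n))) := by
    calc N * 2 ^ (n ^ 3) ≤ (∑ x : P → ZMod 2, (univ.filter
        fun b : Fin (n * n) → Fin (n ^ 3) → Bool =>
          MvPolynomial.eval (fun e => bitPoly (n ^ 3) (b e)) (genPoly G (ext x)) = 0).card) *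
            2 ^ (n ^ 3) := Nat.mul_le_mul_right _ h1
      _ = ∑ x : P → ZMod 2, (univ.filter
        fun b : Fin (n * n) → Fin (n ^ 3) → Bool =>
          MvPolynomial.eval (fun e => bitPoly (n ^ 3) (b e)) (genPoly G (ext x)) = 0).card *
            2 ^ (n ^ 3) := by rw [sum_mul]
      _ ≤ ∑ x : P → ZMod 2, n * 2 ^ (n ^ 3 * (n * n)) := by
          refine sum_le_sum fun x _ => ?_
          refine (sz_count _ (hne _) (n ^ 3)).trans ?_
          exact Nat.mul_le_mul_right _ (genPoly_deg G _)
      _ = 2 ^ (n * n - n) * (n * 2 ^ (n ^ 3 * (n * n))) := by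
          rw [sum_const, card_univ, smul_eq_mul, Fintype.card_fun, hcardP, ZMod.card]
  have h3 : n ≤ 2 ^ n := (Nat.lt_two_pow_self).le
  have h4 : n ^ 3 * (n * n) = n ^ 5 := by ring
  have h5 : n ≤ n * n := Nat.le_mul_self n
  have h6 : N * 2 ^ (n ^ 2) * 2 ^ (n ^ 3) ≤ 2 ^ (n ^ 5) * 2 ^ (n ^ 3) := by
    calc N * 2 ^ (n ^ 2) * 2 ^ (n ^ 3) = N * 2 ^ (n ^ 3) * 2 ^ (n ^ 2) := by ring
      _ ≤ 2 ^ (n * n - n) * (n * 2 ^ (n ^ 3 * (n * n))) * 2 ^ (n ^ 2) :=
          Nat.mul_le_mul_right _ h2
      _ ≤ 2 ^ (n * n - n) * (2 ^ n * 2 ^ (n ^ 3 * (n * n))) * 2 ^ (n ^ 2) := by gcongr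
      _ = 2 ^ (n ^ 5) * 2 ^ (n * n - n + n + n ^ 2) := by
          rw [h4, pow_add, pow_add]; ring
      _ ≤ 2 ^ (n ^ 5) * 2 ^ (n ^ 3) := by
          gcongr
          · norm_num
          · have : n * n - n + n = n * n := Nat.sub_add_cancel h5
            rw [this]
            nlinarith
  exact Nat.le_of_mul_le_mul_right h6 (by positivity)

end Pool.Agent.Lib.MP_0c183c_co
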