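import Pool.Agent.Lib.MP_0c183c_co.Rules

/-! # Bit vectors as elements of a ring -/

namespace Pool.Agent.Lib.MP_0c183c_co

open Pool.Agent.Lib.PolyTM Function Finset

variable {A : Type} [CommRing A]

/-- The value of a bit vector of length `L` at `x`. -/
def qv (x : A) (L : ℕ) (b : ℕ → Bool) : A := ∑ m ∈ range L, if b m = true then x ^ m else 0

theorem qv_congr (x : A) (L : ℕ) {b b' : ℕ → Bool} (h : ∀ m < L, b m = b' m) :
    qv x L b = qv x L b' := by
  unfold qv
  refine sum_congr rfl fun m hm => ?_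
  rw [h m (mem_range.1 hm)]

theorem qv_false (x : A) (L : ℕ) {b : ℕ → Bool} (h : ∀ m < L, b m = false) : qv x L b = 0 := by
  unfold qv
  refine sum_eq_zero fun m hm => ?_
  rw [h m (mem_range.1 hm)]
  simp

theorem qv_xor [CharP A 2] (x : A) (L : ℕ) {b b' c : ℕ → Bool}
    (h : ∀ m < L, c m = xor (b m) (b' m)) : qv x L c = qv x L b + qv x L b' := by
  unfold qv
  rw [← sum_add_distrib]
  refine sum_congr rfl fun m hm => ?_
  rw [h m (mem_range.1 hm)]
  cases b m <;> cases b' m <;> simp [CharTwo.add_self_eq_zero]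

theorem qv_shift (x : A) (L : ℕ) (hx : x ^ L = 0) {b b' : ℕ → Bool}
    (h0 : 0 < L → b' 0 = false) (h : ∀ m, m + 1 < L → b' (m + 1) = b m) :
    qv x L b' = x * qv x L b := by
  unfold qv
  rcases Nat.eq_zero_or_pos L with hL | hL
  · subst hL; simp
  obtain ⟨L, rfl⟩ : ∃ L', L = L' + 1 := ⟨L - 1, by omega⟩
  rw [sum_range_succ', h0 (by omega), sum_range_succ, mul_add, mul_sum]
  have h1 : x * (if b L = true then x ^ L else 0) = 0 := by
    split_ifs
    · rw [← pow_succ', hx]
    · simp
  rw [h1]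
  simp only [Bool.false_eq_true, if_false]
  congr 1
  refine sum_congr rfl fun m hm => ?_
  rw [mem_range] at hm
  rw [h m (by omega)]
  split_ifs
  · rw [pow_succ']
  · simp

variable {W : Type}

/-- The block of cells with a given prefix. -/
def blk (N : ℕ) (a : Arr W) (w : W) (pre : List ℕ) : ℕ → Bool := fun m => a w (pre ++ dec N 4 m)

theorem sum_dec {M : Type*} [AddCommMonoid M] (N k : ℕ) (f : List ℕ → M) :
    ∑ m ∈ range (N ^ (k + 1)), f (dec N (k + 1) m) =
      ∑ t ∈ range N, ∑ m ∈ range (N ^ k), f (t :: dec N k m) := by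
  rw [pow_succ, mul_comm]
  have key : ∀ T, ∑ m ∈ range (T * N ^ k), f (dec N (k + 1) m) =
      ∑ t ∈ range T, ∑ m ∈ range (N ^ k), f (t :: dec N k m) := by
    intro T
    induction T with
    | zero => simp
    | succ T ih =>
      rw [sum_range_succ, ← ih, show (T + 1) * N ^ k = T * N ^ k + N ^ k by ring,
        sum_range_add]
      congr 1
      refine sum_congr rfl fun m hm => ?_
      rw [dec_succ (mem_range.1 hm)]
  exact key N

end Pool.Agent.Lib.MP_0c183c_co
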