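import Pool.Agent.Lib.MP_0c183c_co.Defs

/-! # Crossing numbers of perfect matchings and signs of permutations -/

namespace Pool.Agent.Lib.MP_0c183c_co

open Finset

section pairs

variable {α β M : Type*} [LinearOrder α] [LinearOrder β] [AddCommMonoid M]

/-- Sum over increasing pairs. -/
def pairSum (s : Finset α) (H : α → α → M) : M :=
  ∑ p ∈ s.offDiag with p.1 < p.2, H p.1 p.2

theorem pairSum_bij (s : Finset α) (t : Finset β) (f : α → β) (g : β → α)
    (hf : ∀ a ∈ s, f a ∈ t) (hg : ∀ b ∈ t, g b ∈ s) (hgf : ∀ a ∈ s, g (f a) = a)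
    (hfg : ∀ b ∈ t, f (g b) = b) (H : β → β → M)
    (hH : ∀ a ∈ t, ∀ b ∈ t, a ≠ b → H a b = H b a) :
    pairSum s (fun a b => H (f a) (f b)) = pairSum t H := by
  unfold pairSum
  refine sum_bij' (fun p _ => if f p.1 < f p.2 then (f p.1, f p.2) else (f p.2, f p.1))
    (fun q _ => if g q.1 < g q.2 then (g q.1, g q.2) else (g q.2, g q.1)) ?_ ?_ ?_ ?_ ?_
  · rintro ⟨a, b⟩ h
    simp only [mem_filter, mem_offDiag] at h ⊢
    obtain ⟨⟨ha, hb, hab⟩, hlt⟩ := h
    have hne : f a ≠ f b := fun h => hab (by rw [← hgf a ha, ← hgf b hb, h])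
    split_ifs with h1
    · exact ⟨⟨hf a ha, hf b hb, hne⟩, h1⟩
    · exact ⟨⟨hf b hb, hf a ha, hne.symm⟩, lt_of_le_of_ne (not_lt.1 h1) hne.symm⟩
  · rintro ⟨a, b⟩ h
    simp only [mem_filter, mem_offDiag] at h ⊢
    obtain ⟨⟨ha, hb, hab⟩, hlt⟩ := h
    have hne : g a ≠ g b := fun h => hab (by rw [← hfg a ha, ← hfg b hb, h])
    split_ifs with h1
    · exact ⟨⟨hg a ha, hg b hb, hne⟩, h1⟩
    · exact ⟨⟨hg b hb, hg a ha, hne.symm⟩, lt_of_le_of_ne (not_lt.1 h1) hne.symm⟩
  · rintro ⟨a, b⟩ h
    simp only [mem_filter, mem_offDiag] at h ⊢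
    obtain ⟨⟨ha, hb, hab⟩, hlt⟩ := h
    by_cases h1 : f a < f b
    · simp [h1, hgf a ha, hgf b hb, hlt]
    · simp [h1, hgf a ha, hgf b hb, hlt, hlt.le]
  · rintro ⟨a, b⟩ h
    simp only [mem_filter, mem_offDiag] at h ⊢
    obtain ⟨⟨ha, hb, hab⟩, hlt⟩ := h
    by_cases h1 : g a < g b
    · simp [h1, hfg a ha, hfg b hb, hlt]
    · simp [h1, hfg a ha, hfg b hb, hlt, hlt.le]
  · rintro ⟨a, b⟩ h
    simp only [mem_filter, mem_offDiag] at h ⊢
    obtain ⟨⟨ha, hb, hab⟩, hlt⟩ := h
    have hne : f a ≠ f b := fun h => hab (by rw [← hgf a ha, ← hgf b hb, h])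
    split_ifs with h1
    · rfl
    · exact hH _ (hf a ha) _ (hf b hb) hne

theorem pairSum_congr (s : Finset α) {H K : α → α → M}
    (h : ∀ a ∈ s, ∀ b ∈ s, a < b → H a b = K a b) : pairSum s H = pairSum s K := by
  unfold pairSum
  refine sum_congr rfl fun p hp => ?_
  simp only [mem_filter, mem_offDiag] at hp
  exact h _ hp.1.1 _ hp.1.2.1 hp.2

theorem pairSum_add (s : Finset α) (H K : α → α → M) :
    pairSum s (fun a b => H a b + K a b) = pairSum s H + pairSum s K := by
  unfold pairSum
  exact sum_add_distrib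

end pairs

variable {n : ℕ}

/-- Lower endpoints of the edges of a matching. -/
def low (m : Equiv.Perm (Fin n)) : Finset (Fin n) := univ.filter fun u => u < m u

theorem mem_low {m : Equiv.Perm (Fin n)} {u : Fin n} : u ∈ low m ↔ u < m u := by simp [low]

/-- The parity of the comparison. -/
def gg (x y : Fin n) : ZMod 2 := if y < x then 1 else 0

theorem gg_add (x y : Fin n) (h : x ≠ y) : gg x y + gg y x = 1 := by
  unfold gg
  rcases lt_or_gt_of_ne h with h | h
  · simp [h, h.not_gt]
  · simp [h, h.not_gt]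

/-- The four comparisons between two edges. -/
def four (G : Fin n → Fin n → ZMod 2) (m : Equiv.Perm (Fin n)) (u v : Fin n) : ZMod 2 :=
  G u v + G u (m v) + G (m u) v + G (m u) (m v)

theorem sum_low {M : Type*} [AddCommMonoid M] {m : Equiv.Perm (Fin n)} (hm : IsPM m)
    (F : Fin n → M) : ∑ x, F x = ∑ u ∈ low m, (F u + F (m u)) := by
  rw [sum_add_distrib, ← sum_filter_add_sum_filter_not univ (fun u => u < m u) F]
  congr 1
  refine sum_nbij' m m ?_ ?_ ?_ ?_ ?_
  · intro a ha
    simp only [mem_filter, mem_univ, true_and, not_lt] at ha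
    rw [mem_low, (hm a).2]
    exact lt_of_le_of_ne ha (hm a).1
  · intro a ha
    rw [mem_low] at ha
    simp only [mem_filter, mem_univ, true_and, not_lt, (hm a).2]
    exact ha.le
  · intro a _
    exact (hm a).2
  · intro a _
    exact (hm a).2
  · intro a _
    rw [(hm a).2]

theorem double_sum {M : Type*} [AddCommMonoid M] (s : Finset (Fin n)) (K : Fin n → Fin n → M) :
    ∑ u ∈ s, ∑ v ∈ s, K u v = ∑ u ∈ s, K u u + pairSum s (fun a b => K a b + K b a) := by
  rw [← sum_product', ← diag_union_offDiag, sum_union (disjoint_diag_offDiag s), sum_diag,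
    pairSum_add]
  congr 1
  rw [← sum_filter_add_sum_filter_not s.offDiag (fun p => p.1 < p.2)]
  congr 1
  unfold pairSum
  refine sum_nbij' Prod.swap Prod.swap ?_ ?_ (fun _ _ => rfl) (fun _ _ => rfl) (fun _ _ => rfl)
  · rintro ⟨a, b⟩ h
    simp only [mem_filter, mem_offDiag, not_lt, Prod.swap_prod_mk] at h ⊢
    exact ⟨⟨h.1.2.1, h.1.1, h.1.2.2.symm⟩, lt_of_le_of_ne h.2 h.1.2.2.symm⟩
  · rintro ⟨a, b⟩ h
    simp only [mem_filter, mem_offDiag, not_lt, Prod.swap_prod_mk] at h ⊢
    exact ⟨⟨h.1.2.1, h.1.1, h.1.2.2.symm⟩, h.2.le⟩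

theorem pairSum_eq {M : Type*} [AddCommMonoid M] (s : Finset (Fin n)) (K : Fin n → Fin n → M) :
    pairSum s K = ∑ u ∈ s, ∑ v ∈ s, if u < v then K u v else 0 := by
  rw [double_sum]
  have h : ∀ u ∈ s, (if u < u then K u u else 0) = 0 := by simp
  rw [sum_eq_zero h, zero_add]
  refine pairSum_congr s fun a _ b _ hab => ?_
  rw [if_pos hab, if_neg hab.not_gt, add_zero]

theorem pairSum_univ {m : Equiv.Perm (Fin n)} (hm : IsPM m) (G : Fin n → Fin n → ZMod 2)
    (hG : ∀ a b, a ≠ b → G a b = G b a) :
    pairSum univ G = ∑ u ∈ low m, G u (m u) + pairSum (low m) (four G m) := by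
  rw [pairSum_eq, sum_low hm]
  simp only [sum_low hm, ← sum_add_distrib]
  rw [double_sum]
  congr 1
  · refine sum_congr rfl fun u hu => ?_
    rw [mem_low] at hu
    simp [hu, hu.not_gt]
  · refine pairSum_congr _ fun a ha b hb hab => ?_
    unfold four
    rw [mem_low] at ha hb
    have key : ∀ x y, x ≠ y → (if x < y then G x y else 0) + (if y < x then G y x else 0) =
        G x y := by
      intro x y hxy
      rcases lt_or_gt_of_ne hxy with h | h
      · simp [h, h.not_gt]
      · simp [h, h.not_gt, hG x y hxy]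
    have hne2 : a ≠ m b := by
      intro h
      have : m a = b := by rw [h, (hm b).2]
      rw [this] at ha
      rw [← h] at hb
      exact absurd ha hb.not_gt
    have hne3 : m a ≠ b := by
      intro h
      apply hne2
      rw [← h, (hm a).2]
    have hne4 : m a ≠ m b := fun h => hab.ne (m.injective h)
    have k1 := key a b hab.ne
    have k2 := key a (m b) hne2
    have k3 := key (m a) b hne3
    have k4 := key (m a) (m b) hne4
    linear_combination k1 + k2 + k3 + k4

theorem cr_eq {m : Equiv.Perm (Fin n)} (hm : IsPM m) : cr m = pairSum (low m) (four gg m) := by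
  have h1 : cr m = pairSum (low m) (fun i j => if j < m i ∧ m i < m j then 1 else 0) := by
    rw [pairSum_eq]
    unfold cr low
    simp only [sum_filter]
    refine sum_congr rfl fun i _ => ?_
    by_cases hi : i < m i
    · rw [if_pos hi]
      refine sum_congr rfl fun j _ => ?_
      by_cases hj : j < m j
      · rw [if_pos hj]
        by_cases hij : i < j
        · simp [hij]
        · simp [hij]
      · rw [if_neg hj, if_neg]
        rintro ⟨_, h1, h2⟩
        exact hj (h1.trans h2)
    · rw [if_neg hi]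
      refine sum_eq_zero fun j _ => ?_
      rw [if_neg]
      rintro ⟨h1, h2, _⟩
      exact hi (h1.trans h2)
  rw [h1]
  refine pairSum_congr _ fun a ha b hb hab => ?_
  rw [mem_low] at ha hb
  have hne3 : m a ≠ b := by
    intro h
    have h2 : m b = a := by rw [← h, (hm a).2]
    rw [h] at ha
    rw [h2] at hb
    exact absurd ha hb.not_gt
  have hne4 : m a ≠ m b := fun h => hab.ne (m.injective h)
  unfold four gg
  have h5 : ¬ b < a := hab.not_gt
  have h6 : ¬ m b < a := (hab.trans hb).not_gt
  rw [if_neg h5, if_neg h6]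
  by_cases h7 : b < m a
  · by_cases h8 : m a < m b
    · simp [h7, h8, h8.not_gt]
    · have h9 : m b < m a := lt_of_le_of_ne (not_lt.1 h8) hne4.symm
      simp only [h7, h8, h9, and_false, if_false, if_true, zero_add]
      decide
  · have h8 : m a < b := lt_of_le_of_ne (not_lt.1 h7) hne3
    simp [h7, (h8.trans hb).not_gt]

/-- Sign of a permutation in `ZMod 2`. -/
def sg (π : Equiv.Perm (Fin n)) : ZMod 2 := pairSum univ (fun x y => gg (π x) (π y))

theorem sign_eq_sg (π : Equiv.Perm (Fin n)) :
    sg π = if Equiv.Perm.sign π = 1 then 0 else 1 := by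
  have key : ∀ (s : Finset (Fin n × Fin n)) (P : Fin n × Fin n → Prop) [DecidablePred P],
      (∑ p ∈ s, if P p then (1 : ZMod 2) else 0) =
        if (∏ p ∈ s, if P p then (-1 : ℤˣ) else 1) = 1 then 0 else 1 := by
    intro s P _
    induction s using Finset.induction_on with
    | empty => simp
    | insert a s ha ih =>
      rw [sum_insert ha, prod_insert ha, ih]
      rcases Int.units_eq_one_or (∏ p ∈ s, if P p then (-1 : ℤˣ) else 1) with h | h
      · rw [h]
        by_cases hP : P a <;> simp [hP]
      · rw [h]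
        by_cases hP : P a
        · simp [hP]
          decide
        · simp [hP]
  unfold sg pairSum gg
  rw [key]
  congr 2
  rw [Equiv.Perm.sign_eq_prod_prod_Ioi]
  have h1 : ∀ i j : Fin n, i < j → (if π i < π j then (1 : ℤˣ) else -1) =
      if π j < π i then -1 else 1 := by
    intro i j hij
    have : π i ≠ π j := fun h => hij.ne (π.injective h)
    rcases lt_or_gt_of_ne this with h | h
    · simp [h, h.not_gt]
    · simp [h, h.not_gt]
  rw [prod_congr rfl fun i _ => prod_congr rfl fun j hj => h1 i j (by simpa using hj)]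
  rw [prod_sigma']
  refine prod_nbij' (fun p => ⟨p.1, p.2⟩) (fun p => (p.1, p.2)) ?_ ?_ ?_ ?_ ?_
  · rintro ⟨a, b⟩ h
    simp only [mem_filter, mem_offDiag] at h
    simp [h.2]
  · rintro ⟨a, b⟩ h
    simp only [mem_sigma, mem_Ioi] at h
    simp [h.2, h.2.ne]
  · intro p _; rfl
  · intro p _; rfl
  · intro p _; rfl

theorem sg_eq {m m' : Equiv.Perm (Fin n)} (hm : IsPM m) (π : Equiv.Perm (Fin n))
    (h : ∀ v, m' (π v) = π (m v)) :
    sg π = cr m + cr m' + ∑ u ∈ low m, gg (π u) (π (m u)) := by
  have hm' : IsPM m' := by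
    intro v
    obtain ⟨w, rfl⟩ := π.surjective v
    refine ⟨?_, ?_⟩
    · rw [h]
      exact fun h' => (hm w).1 (π.injective h')
    · rw [h, h, (hm w).2]
  set G : Fin n → Fin n → ZMod 2 := fun x y => gg (π x) (π y) + gg x y with hG
  have hsym : ∀ a b, a ≠ b → G a b = G b a := by
    intro a b hab
    have h1 := gg_add a b hab
    have h2 := gg_add (π a) (π b) (fun h => hab (π.injective h))
    have h3 : gg a b = 1 + gg b a := by
      rw [← h1, add_assoc, CharTwo.add_self_eq_zero, add_zero]
    have h4 : gg (π a) (π b) = 1 + gg (π b) (π a) := by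
      rw [← h2, add_assoc, CharTwo.add_self_eq_zero, add_zero]
    simp only [hG]
    rw [h3, h4]
    have : (1 : ZMod 2) + 1 = 0 := by decide
    linear_combination this
  have h1 : sg π = pairSum univ G := by
    unfold sg
    refine pairSum_congr _ fun a _ b _ hab => ?_
    simp [hG, gg, hab.not_gt]
  rw [h1, pairSum_univ hm G hsym]
  have h2 : ∑ u ∈ low m, G u (m u) = ∑ u ∈ low m, gg (π u) (π (m u)) := by
    refine sum_congr rfl fun u hu => ?_
    rw [mem_low] at hu
    simp [hG, gg, hu.not_gt]
  have h3 : pairSum (low m) (four G m) = pairSum (low m) (four (fun x y => gg (π x) (π y)) m) +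
      cr m := by
    rw [cr_eq hm, ← pairSum_add]
    refine pairSum_congr _ fun a _ b _ _ => ?_
    simp only [four, hG]
    ring
  have h4 : pairSum (low m) (four (fun x y => gg (π x) (π y)) m) = cr m' := by
    rw [cr_eq hm']
    have hlow : ∀ {m : Equiv.Perm (Fin n)}, IsPM m → ∀ u, u ∈ low m ∨ m u ∈ low m := by
      intro m hm u
      rcases lt_or_gt_of_ne (hm u).1 with h | h
      · right
        rw [mem_low, (hm u).2]
        exact h
      · left
        rw [mem_low]
        exact h
    have hlow2 : ∀ {m : Equiv.Perm (Fin n)}, IsPM m → ∀ u, u ∈ low m → m u ∉ low m := by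
      intro m hm u h1 h2
      rw [mem_low] at h1 h2
      rw [(hm u).2] at h2
      exact absurd h1 h2.not_gt
    set f : Fin n → Fin n := fun u => if π u ∈ low m' then π u else m' (π u) with hf
    set g : Fin n → Fin n := fun w => if π.symm w ∈ low m then π.symm w else m (π.symm w) with hg
    have hm'π : ∀ w, π.symm (m' w) = m (π.symm w) := by
      intro w
      obtain ⟨v, rfl⟩ := π.surjective w
      rw [h, π.symm_apply_apply, π.symm_apply_apply]
    rw [← pairSum_bij (low m) (low m') f g ?_ ?_ ?_ ?_ (four gg m') ?_]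
    · refine pairSum_congr _ fun a _ b _ _ => ?_
      have e1 : ∀ u v, four gg m' (m' u) v = four gg m' u v := by
        intro u v
        simp only [four, (hm' u).2]
        ring
      have e2 : ∀ u v, four gg m' u (m' v) = four gg m' u v := by
        intro u v
        simp only [four, (hm' v).2]
        ring
      have e3 : four gg m' (f a) (f b) = four gg m' (π a) (π b) := by
        simp only [hf]
        split_ifs <;> simp only [e1, e2]
      rw [e3]
      simp only [four, h]
    · intro a _
      simp only [hf]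
      split_ifs with h'
      · exact h'
      · exact (hlow hm' (π a)).resolve_left h'
    · intro b _
      simp only [hg]
      split_ifs with h'
      · exact h'
      · exact (hlow hm (π.symm b)).resolve_left h'
    · intro a ha
      simp only [hf]
      split_ifs with h'
      · simp only [hg, π.symm_apply_apply, if_pos ha]
      · simp only [hg, hm'π, π.symm_apply_apply]
        rw [if_neg (hlow2 hm a ha), (hm a).2]
    · intro b hb
      simp only [hg]
      split_ifs with h'
      · simp only [hf, π.apply_symm_apply, if_pos hb]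
      · simp only [hf]
        rw [← h, π.apply_symm_apply, if_neg (hlow2 hm' b hb), (hm' b).2]
    · intro a ha b hb hab
      have hne2 : a ≠ m' b := by
        intro h
        exact hlow2 hm' b hb (h ▸ ha)
      have hne3 : m' a ≠ b := by
        intro h
        exact hlow2 hm' a ha (h ▸ hb)
      have hne4 : m' a ≠ m' b := fun h => hab (m'.injective h)
      have k1 := gg_add a b hab
      have k2 := gg_add a (m' b) hne2
      have k3 := gg_add (m' a) b hne3
      have k4 := gg_add (m' a) (m' b) hne4
      unfold four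
      have h20 : (2 : ZMod 2) = 0 := by decide
      linear_combination k1 + k2 + k3 + k4 - (gg b a + gg b (m' a) + gg (m' b) a +
        gg (m' b) (m' a) - 2) * h20
  rw [h2, h3, h4]
  ring

end Pool.Agent.Lib.MP_0c183c_co
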