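import Pool.Agent.Lib.MP_0c183c_co.Defs

/-! # Inputs of the machine -/

namespace Pool.Agent.Lib.MP_0c183c_co

/-- The input symbols. -/
inductive Sym
  | vert
  | adj (b : Bool)
  | coin (b : Bool)
  deriving DecidableEq, Fintype

/-- A finite graph on the vertices `0, …, n - 1` together with `n ^ 5` coin tosses. -/
structure Input where
  n : ℕ
  G : SimpleGraph (Fin n)
  coins : Fin (n ^ 5) → Bool

open Classical in
/-- The input word: one symbol for each vertex, the adjacency matrix (row by row), and the coin
tosses. -/
noncomputable def Input.encode (I : Input) : List Sym :=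
  List.replicate I.n Sym.vert ++
    (List.ofFn fun i : Fin I.n =>
      List.ofFn fun j : Fin I.n => Sym.adj (decide (I.G.Adj i j))).flatten ++
    List.ofFn fun t => Sym.coin (I.coins t)

end Pool.Agent.Lib.MP_0c183c_co
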