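import Pool.Agent.Lib.MP_0c183c_co.Main
import Pool.Agent.Lib.MP_0c183c_co.Machine

/-! # The randomised polynomial-time algorithm -/

namespace Pool.Agent.Lib.MP_0c183c_co

open Pool.Agent.Lib.PolyTM Function Finset Turing

/-- Symbols that are counted. -/
def cnt : Sym → Bool
  | .vert => true
  | _ => false

/-- Initial contents of the arrays. -/
def ini : Wa → Sym → Option Bool
  | .g, .adj b => some b
  | .rnd, .coin b => some b
  | _, _ => none

theorem encode_count (I : Input) : I.encode.countP cnt = I.n := by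
  classical
  unfold Input.encode
  rw [List.countP_append, List.countP_append, List.countP_replicate]
  have h1 : List.countP cnt (List.ofFn fun i : Fin I.n =>
      List.ofFn fun j : Fin I.n => Sym.adj (decide (I.G.Adj i j))).flatten = 0 := by
    rw [List.countP_eq_zero]
    intro a ha
    rw [List.mem_flatten] at ha
    obtain ⟨l, hl, hal⟩ := ha
    obtain ⟨i, rfl⟩ := (List.mem_ofFn' _ _).1 hl
    obtain ⟨j, rfl⟩ := (List.mem_ofFn' _ _).1 hal
    simp [cnt]
  have h2 : List.countP cnt (List.ofFn fun t => Sym.coin (I.coins t)) = 0 := by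
    rw [List.countP_eq_zero]
    intro a ha
    obtain ⟨j, rfl⟩ := (List.mem_ofFn' _ _).1 ha
    simp [cnt]
  rw [h1, h2]
  simp [cnt]

theorem filter_vert (w : Wa) (n : ℕ) : (List.replicate n Sym.vert).filterMap (ini w) = [] := by
  rw [List.filterMap_eq_nil_iff]
  intro a ha
  rw [List.eq_of_mem_replicate ha]
  cases w <;> rfl

theorem encode_adj (I : Input) : I.encode.filterMap (ini .g) =
    List.ofFn fun k : Fin (I.n * I.n) => open Classical in decide (I.G.Adj
      (finProdFinEquiv.symm k).1 (finProdFinEquiv.symm k).2) := by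
  classical
  unfold Input.encode
  rw [List.filterMap_append, List.filterMap_append, filter_vert, List.nil_append]
  have h2 : (List.ofFn fun t => Sym.coin (I.coins t)).filterMap (ini .g) = [] := by
    rw [List.filterMap_eq_nil_iff]
    intro a ha
    obtain ⟨j, rfl⟩ := (List.mem_ofFn' _ _).1 ha
    rfl
  rw [h2, List.append_nil, List.filterMap_flatten, List.map_ofFn, List.ofFn_mul]
  congr 1
  congr 1
  funext i
  simp only [comp_apply]
  have h1 : (List.ofFn fun j : Fin I.n => Sym.adj (decide (I.G.Adj i j))) =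
      (List.ofFn fun j : Fin I.n => decide (I.G.Adj i j)).map Sym.adj := by
    rw [List.map_ofFn]
    rfl
  rw [h1, List.filterMap_map]
  have h3 : (ini .g ∘ Sym.adj) = some := rfl
  rw [h3, List.filterMap_some]
  congr 1
  funext j
  have hn : 0 < I.n := i.pos
  have e : (⟨(i : ℕ) * I.n + j, by
      have h1 := i.2
      have h2 := j.2
      have : ((i : ℕ) + 1) * I.n ≤ I.n * I.n := Nat.mul_le_mul_right _ h1
      nlinarith⟩ : Fin (I.n * I.n)) = finProdFinEquiv (i, j) := by
    ext
    simp only [finProdFinEquiv_apply_val]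
    ring
  rw [e, Equiv.symm_apply_apply]

theorem encode_coins (I : Input) : I.encode.filterMap (ini .rnd) = List.ofFn I.coins := by
  classical
  unfold Input.encode
  rw [List.filterMap_append, List.filterMap_append, filter_vert, List.nil_append]
  have h1 : (List.ofFn fun i : Fin I.n =>
      List.ofFn fun j : Fin I.n => Sym.adj (decide (I.G.Adj i j))).flatten.filterMap (ini .rnd)
        = [] := by
    rw [List.filterMap_eq_nil_iff]
    intro a ha
    rw [List.mem_flatten] at ha
    obtain ⟨l, hl, hal⟩ := ha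
    obtain ⟨i, rfl⟩ := (List.mem_ofFn' _ _).1 hl
    obtain ⟨j, rfl⟩ := (List.mem_ofFn' _ _).1 hal
    rfl
  have h2 : (List.ofFn fun t => Sym.coin (I.coins t)) = (List.ofFn I.coins).map Sym.coin := by
    rw [List.map_ofFn]
    rfl
  rw [h1, List.nil_append, h2, List.filterMap_map]
  have h3 : (ini .rnd ∘ Sym.coin) = some := rfl
  rw [h3, List.filterMap_some]

theorem adjOK (I : Input) : AdjOK I.G (iniArr I.n ini I.encode) := by
  classical
  intro u v
  unfold iniArr cell
  rw [encode_adj]
  have e0 : enc I.n [(u : ℕ), (v : ℕ)] = (finProdFinEquiv (u, v) : Fin (I.n * I.n)) := by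
    simp only [enc, finProdFinEquiv_apply_val, List.length_cons, List.length_nil]
    ring
  rw [e0, List.getD_eq_getElem _ _ (by rw [List.length_ofFn]; exact Fin.isLt _),
    List.getElem_ofFn, Fin.eta, Equiv.symm_apply_apply]
  simp

theorem card_eq_pow (n : ℕ) : n * n * n ^ 3 = n ^ 5 := by ring

/-- Coin tosses as random polynomials. -/
def coinEquiv (n : ℕ) : (Fin (n ^ 5) → Bool) ≃ (Fin (n * n) → Fin (n ^ 3) → Bool) :=
  (Equiv.arrowCongr (finProdFinEquiv.trans (finCongr (card_eq_pow n))).symm
    (Equiv.refl Bool)).trans (Equiv.curry _ _ _)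

theorem coinEquiv_apply (n : ℕ) (r : Fin (n ^ 5) → Bool) (e : Fin (n * n)) (t : Fin (n ^ 3)) :
    coinEquiv n r e t = r (finCongr (card_eq_pow n) (finProdFinEquiv (e, t))) := rfl

theorem rOf_eq (I : Input) (u v : Fin I.n) : rOf I.n (iniArr I.n ini I.encode) u v =
    bitPoly (I.n ^ 3) (coinEquiv I.n I.coins (ev u v)) := by
  unfold rOf
  congr 1
  funext t
  rw [coinEquiv_apply]
  unfold iniArr cell
  rw [encode_coins]
  have h3 : (dec I.n 3 t).length = 3 := dec_length 3 t
  have e0 : enc I.n ([(u : ℕ), (v : ℕ)] ++ dec I.n 3 t) =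
      (finCongr (card_eq_pow I.n) (finProdFinEquiv (ev u v, t)) : Fin (I.n ^ 5)) := by
    simp only [enc, List.cons_append, List.nil_append, List.length_cons, h3, enc_dec t.2]
    simp only [ev, finCongr_apply, Fin.val_cast, finProdFinEquiv_apply_val]
    ring
  rw [e0, List.getD_eq_getElem _ _ (by rw [List.length_ofFn]; exact Fin.isLt _),
    List.getElem_ofFn, Fin.eta]

open Classical in
/-- The function computed by the machine. -/
noncomputable def decideFun (I : Input) : Bool :=
  decide (Acc I.G (fun u v => bitPoly (I.n ^ 3) (coinEquiv I.n I.coins (ev u v))))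

theorem out_eq (I : Input) : prog.out cnt ini I.encode = [decideFun I] := by
  classical
  unfold Stmt.out
  rw [encode_count]
  obtain ⟨b, hb, hb2⟩ := prog_spec I.n I.G ⟨iniArr I.n ini I.encode, []⟩ (adjOK I)
    (fun l => by
      have : I.encode.filterMap (ini .F) = [] := by
        rw [List.filterMap_eq_nil_iff]
        intro a _
        cases a <;> rfl
      simp [iniArr, this, cell])
    (fun l => by
      have : I.encode.filterMap (ini .S) = [] := by
        rw [List.filterMap_eq_nil_iff]
        intro a _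
        cases a <;> rfl
      simp [iniArr, this, cell]) rfl (fun _ => 0)
  rw [hb]
  congr 1
  unfold decideFun
  rw [Bool.eq_iff_iff, hb2, decide_eq_true_eq]
  have : rOf I.n (iniArr I.n ini I.encode) =
      fun u v => bitPoly (I.n ^ 3) (coinEquiv I.n I.coins (ev u v)) := by
    funext u v
    exact rOf_eq I u v
  rw [← this]

/-- The machine runs in polynomial time. -/
theorem polytime : ∃ M : TM2ComputableInPolyTime Input.encode (fun b : Bool => [b]) decideFun,
    ∀ k, Finite (M.tm.Γ k) := by
  obtain ⟨M, p, hfin, h⟩ := Stmt.polytime prog prog_wf cnt ini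
  refine ⟨⟨M, p, fun I => Classical.choice ?_⟩, hfin⟩
  have := h I.encode
  rw [out_eq] at this
  exact this

theorem complete {n : ℕ} (G : SimpleGraph (Fin n)) (hG : IsPfaffian G) (r : Fin (n ^ 5) → Bool) :
    decideFun ⟨n, G, r⟩ = true := by
  classical
  unfold decideFun
  rw [decide_eq_true_eq]
  exact acc_of_pfaffian G hG _

theorem sound' {n : ℕ} (G : SimpleGraph (Fin n)) (hG : ¬ IsPfaffian G) :
    2 ^ n ^ 2 * (univ.filter fun r : Fin (n ^ 5) → Bool => decideFun ⟨n, G, r⟩ = true).card ≤
      2 ^ n ^ 5 := by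
  classical
  have h := sound G hG
  rw [mul_comm] at h
  refine le_trans (Nat.mul_le_mul_left _ ?_) h
  refine card_le_card_of_injOn (coinEquiv n) ?_ (fun _ _ _ _ h => (coinEquiv n).injective h)
  intro r hr
  simp only [coe_filter, mem_univ, true_and, Set.mem_ofPred_eq, decideFun,
    decide_eq_true_eq] at hr ⊢
  exact hr

theorem advice (n : ℕ) : ∃ a : Fin (n ^ 5) → Bool, ∀ G : SimpleGraph (Fin n),
    decideFun ⟨n, G, a⟩ = true ↔ IsPfaffian G := by
  classical
  rcases Nat.eq_zero_or_pos n with hn | hn
  · subst hn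
    refine ⟨fun _ => false, fun G => ?_⟩
    have hG := isPfaffian_of_small (n := 0) (by omega) G
    simp [hG, complete G hG]
  set P := {p : Fin n × Fin n // p.1 ≠ p.2} with hP
  have hcardP : Fintype.card P = n * n - n := by
    rw [Fintype.card_subtype]
    have := offDiag_card (univ : Finset (Fin n))
    rw [card_univ, Fintype.card_fin] at this
    rw [← this]
    congr 1
    ext p
    simp
  set code : SimpleGraph (Fin n) → (P → Bool) := fun G p => decide (G.Adj p.1.1 p.1.2) with hcode
  have hinj : Injective code := by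
    intro G H h
    ext u v
    by_cases huv : u = v
    · subst huv
      simp
    · have := congrFun h ⟨(u, v), huv⟩
      simpa [hcode] using this
  let _ : Fintype (SimpleGraph (Fin n)) := Fintype.ofInjective code hinj
  have hcard : Fintype.card (SimpleGraph (Fin n)) ≤ 2 ^ (n * n - n) := by
    refine (Fintype.card_le_of_injective code hinj).trans ?_
    rw [Fintype.card_fun, hcardP, Fintype.card_bool]
  set bad : Finset (Fin (n ^ 5) → Bool) := (univ.filter fun G : SimpleGraph (Fin n) =>
    ¬ IsPfaffian G).biUnion fun G => univ.filter fun r => decideFun ⟨n, G, r⟩ = true with hbad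
  have h1 : 2 ^ n ^ 2 * bad.card ≤ 2 ^ (n * n - n) * 2 ^ n ^ 5 := by
    calc 2 ^ n ^ 2 * bad.card ≤ 2 ^ n ^ 2 * ∑ G ∈ univ.filter (fun G : SimpleGraph (Fin n) =>
            ¬ IsPfaffian G), (univ.filter fun r => decideFun ⟨n, G, r⟩ = true).card :=
          Nat.mul_le_mul_left _ card_biUnion_le
      _ = ∑ G ∈ univ.filter (fun G : SimpleGraph (Fin n) => ¬ IsPfaffian G), 2 ^ n ^ 2 *
            (univ.filter fun r => decideFun ⟨n, G, r⟩ = true).card := by rw [mul_sum]
      _ ≤ ∑ G ∈ univ.filter (fun G : SimpleGraph (Fin n) => ¬ IsPfaffian G), 2 ^ n ^ 5 :=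
          sum_le_sum fun G hG => sound' G (mem_filter.1 hG).2
      _ ≤ 2 ^ (n * n - n) * 2 ^ n ^ 5 := by
          rw [sum_const, smul_eq_mul]
          exact Nat.mul_le_mul_right _ ((card_filter_le _ _).trans hcard)
  have h2 : bad.card < 2 ^ n ^ 5 := by
    by_contra hcon
    push Not at hcon
    have h3 : 2 ^ n ^ 2 * 2 ^ n ^ 5 ≤ 2 ^ (n * n - n) * 2 ^ n ^ 5 :=
      (Nat.mul_le_mul_left _ hcon).trans h1
    have h4 : 2 ^ n ^ 2 ≤ 2 ^ (n * n - n) := Nat.le_of_mul_le_mul_right h3 (by positivity)
    have h5 := (Nat.pow_le_pow_iff_right (by norm_num : 1 < 2)).1 h4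
    have h6 : n ^ 2 = n * n := by ring
    have h7 : n ≤ n * n := Nat.le_mul_self n
    omega
  obtain ⟨a, ha⟩ : ∃ a, a ∉ bad := by
    by_contra hcon
    push Not at hcon
    have : bad = univ := by
      ext r; simp [hcon r]
    rw [this, card_univ] at h2
    simp at h2
  refine ⟨a, fun G => ⟨fun h => ?_, fun h => complete G h a⟩⟩
  by_contra hG
  apply ha
  rw [hbad, mem_biUnion]
  exact ⟨G, mem_filter.2 ⟨mem_univ _, hG⟩, mem_filter.2 ⟨mem_univ _, h⟩⟩

end Pool.Agent.Lib.MP_0c183c_co
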