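import Pool.Agent.Lib.MP_0c183c_co.Cross

/-! # Kasteleyn's lemma: the sign changes along an alternating cycle -/

namespace Pool.Agent.Lib.MP_0c183c_co

open Finset

variable {n : ℕ}

theorem sum_transversal {m : Equiv.Perm (Fin n)} (hm : IsPM m) (T : Finset (Fin n))
    (hT : ∀ u, u ∈ T ↔ m u ∉ T) (φ : Fin n → ZMod 2) (hφ : ∀ u, φ (m u) = φ u) :
    ∑ u ∈ low m, φ u = ∑ u ∈ T, φ u := by
  rw [← sum_filter_add_sum_filter_not (low m) (fun u => u ∈ T) φ,
    ← sum_filter_add_sum_filter_not T (fun u => u ∈ low m) φ]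
  congr 1
  · refine sum_congr ?_ fun _ _ => rfl
    ext u
    simp only [mem_filter]
    tauto
  · refine sum_nbij' m m ?_ ?_ ?_ ?_ ?_
    · intro a ha
      simp only [mem_filter, mem_low] at ha ⊢
      rw [(hm a).2]
      refine ⟨?_, ha.1.not_gt⟩
      by_contra h
      exact ha.2 ((hT a).2 h)
    · intro a ha
      simp only [mem_filter, mem_low] at ha ⊢
      rw [(hm a).2]
      exact ⟨lt_of_le_of_ne (not_lt.1 ha.2) (hm a).1, (hT a).1 ha.1⟩
    · intro a _
      exact (hm a).2
    · intro a _
      exact (hm a).2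
    · intro a _
      exact (hφ a).symm

/-- The indicator (mod 2) that the edge `uv` is not oriented from `u` to `v`, if it is oriented
upwards iff its label is `0`. -/
def dis (x : Fin n → Fin n → ZMod 2) (u v : Fin n) : ZMod 2 := if u < v then x u v else x v u + 1

theorem dis_add_gg (x : Fin n → Fin n → ZMod 2) {u v : Fin n} (h : u < v) :
    dis x u v + gg u v = x u v := by
  simp [dis, gg, h, h.not_gt]

theorem dis_add_gg' (x : Fin n → Fin n → ZMod 2) {u v : Fin n} (h : u < v) :
    dis x v u + gg v u = x u v := by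
  have : (1 : ZMod 2) + 1 = 0 := by decide
  simp only [dis, gg, h, h.not_gt, if_true, if_false]
  linear_combination this

theorem lin_eq (x : Fin n → Fin n → ZMod 2) {m : Equiv.Perm (Fin n)} (hm : IsPM m)
    (T : Finset (Fin n)) (hT : ∀ u, u ∈ T ↔ m u ∉ T) :
    lin x m = ∑ u ∈ T, (dis x u (m u) + gg u (m u)) := by
  rw [← sum_transversal hm T hT (fun u => dis x u (m u) + gg u (m u))]
  · unfold lin low
    rw [sum_filter]
    refine sum_congr rfl fun u _ => ?_
    split_ifs with h
    · exact (dis_add_gg x h).symm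
    · rfl
  · intro u
    rw [(hm u).2]
    rcases lt_or_gt_of_ne (hm u).1 with h | h
    · rw [dis_add_gg x h, dis_add_gg' x h]
    · rw [dis_add_gg x h, dis_add_gg' x h]

theorem sum_range_two_mul (l : ℕ) (f : ℕ → ZMod 2) :
    ∑ i ∈ range (2 * l), f i = ∑ j ∈ range l, (f (2 * j) + f (2 * j + 1)) := by
  induction l with
  | zero => simp
  | succ l ih =>
    rw [show 2 * (l + 1) = 2 * l + 1 + 1 by ring, sum_range_succ, sum_range_succ, ih,
      sum_range_succ, add_assoc]

theorem kasteleyn (x : Fin n → Fin n → ZMod 2) {m m' : Equiv.Perm (Fin n)} (hm : IsPM m)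
    (hm' : IsPM m') (l : ℕ) (hl : 1 ≤ l) (c : ℕ → Fin n)
    (hinj : ∀ i < 2 * l, ∀ j < 2 * l, c i = c j → i = j) (hck : c (2 * l) = c 0)
    (hc : ∀ i < l, m (c (2 * i)) = c (2 * i + 1))
    (hc' : ∀ i < l, m' (c (2 * i + 1)) = c (2 * i + 2))
    (hout : ∀ v, (∀ i < 2 * l, c i ≠ v) → m' v = m v) :
    (cr m + lin x m) + (cr m' + lin x m') = 1 + ∑ i ∈ range (2 * l), dis x (c i) (c (i + 1)) := by
  set L : List (Fin n) := (List.range (2 * l)).map c with hL
  have hLlen : L.length = 2 * l := by simp [hL]
  have hLnd : L.Nodup := by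
    rw [hL]
    refine List.Nodup.map_on ?_ List.nodup_range
    intro i hi j hj h
    exact hinj i (List.mem_range.1 hi) j (List.mem_range.1 hj) h
  have hLmem : ∀ v, v ∈ L ↔ ∃ i < 2 * l, c i = v := by
    intro v
    simp [hL]
  set π : Equiv.Perm (Fin n) := L.formPerm with hπ
  have hπc : ∀ i < 2 * l, π (c i) = c (i + 1) := by
    intro i hi
    have h1 := List.formPerm_apply_getElem L hLnd i (by rw [hLlen]; exact hi)
    have h2 : L[i]'(by rw [hLlen]; exact hi) = c i := by simp [hL]
    rw [h2] at h1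
    rw [hπ, h1]
    rcases Nat.lt_or_ge (i + 1) (2 * l) with h | h
    · have : (i + 1) % L.length = i + 1 := by rw [hLlen]; exact Nat.mod_eq_of_lt h
      simp [hL, Nat.mod_eq_of_lt h]
    · have h3 : i + 1 = 2 * l := by omega
      rw [h3, hck]
      simp [hL, h3]
  have hπo : ∀ v, (∀ i < 2 * l, c i ≠ v) → π v = v := by
    intro v hv
    refine List.formPerm_apply_of_notMem ?_
    rw [hLmem]
    rintro ⟨i, hi, h⟩
    exact hv i hi h
  have hsg : sg π = 1 := by
    rw [sign_eq_sg, (List.isCycle_formPerm hLnd (by omega)).sign,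
      List.support_formPerm_of_nodup L hLnd, List.toFinset_card_of_nodup hLnd, hLlen]
    · rw [pow_mul]
      simp
    · intro y h
      have : L.length = 1 := by rw [h]; rfl
      omega
  have hmc' : ∀ i < l, m (c (2 * i + 1)) = c (2 * i) := by
    intro i hi
    rw [← hc i hi, (hm _).2]
  have hm'c' : ∀ i < l, m' (c (2 * i + 2)) = c (2 * i + 1) := by
    intro i hi
    rw [← hc' i hi, (hm' _).2]
  have hmo : ∀ v, (∀ i < 2 * l, c i ≠ v) → ∀ i < 2 * l, c i ≠ m v := by
    intro v hv i hi h
    have h1 : m (c i) = v := by rw [h, (hm v).2]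
    obtain ⟨j, rfl | rfl⟩ : ∃ j, i = 2 * j ∨ i = 2 * j + 1 := ⟨i / 2, by omega⟩
    · rw [hc j (by omega)] at h1
      exact hv _ (by omega) h1
    · rw [hmc' j (by omega)] at h1
      exact hv _ (by omega) h1
  have hcomm : ∀ v, m' (π v) = π (m v) := by
    intro v
    by_cases hv : ∀ i < 2 * l, c i ≠ v
    · rw [hπo v hv, hout v hv, hπo _ (hmo v hv)]
    · push Not at hv
      obtain ⟨i, hi, rfl⟩ := hv
      rw [hπc i hi]
      obtain ⟨j, rfl | rfl⟩ : ∃ j, i = 2 * j ∨ i = 2 * j + 1 := ⟨i / 2, by omega⟩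
      · rw [hc' j (by omega), hc j (by omega), hπc _ (by omega)]
      · rw [hm'c' j (by omega), hmc' j (by omega), hπc _ (by omega)]
  have key := sg_eq hm π hcomm
  rw [hsg] at key
  -- the transversal
  set C : Finset (Fin n) := (range (2 * l)).image c with hC
  have hCmem : ∀ v, v ∉ C ↔ ∀ i < 2 * l, c i ≠ v := by
    intro v
    simp [hC]
  set T : Finset (Fin n) := (range l).image (fun j => c (2 * j)) ∪ (low m).filter (· ∉ C) with hT
  have hCm : ∀ v, v ∉ C → m v ∉ C := by
    intro v hv
    rw [hCmem] at hv ⊢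
    exact hmo v hv
  have hCm' : ∀ v, v ∈ C → m v ∈ C := by
    intro v hv
    by_contra h
    have := hCm _ h
    rw [(hm v).2] at this
    exact this hv
  have hTmem : ∀ i < 2 * l, (c i ∈ T ↔ i % 2 = 0) := by
    intro i hi
    have hiC : c i ∈ C := by
      rw [hC]
      exact mem_image_of_mem _ (mem_range.2 hi)
    rw [hT, mem_union, mem_filter, mem_image]
    constructor
    · rintro (⟨j, hj, h⟩ | h)
      · rw [mem_range] at hj
        have := hinj _ (by omega) _ hi h
        omega
      · exact absurd hiC h.2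
    · intro h
      left
      exact ⟨i / 2, by rw [mem_range]; omega, by congr 1; omega⟩
  have hTtr : ∀ u, u ∈ T ↔ m u ∉ T := by
    intro u
    by_cases hu : u ∈ C
    · rw [hC, mem_image] at hu
      obtain ⟨i, hi, rfl⟩ := hu
      rw [mem_range] at hi
      obtain ⟨j, rfl | rfl⟩ : ∃ j, i = 2 * j ∨ i = 2 * j + 1 := ⟨i / 2, by omega⟩
      · rw [hc j (by omega), hTmem _ hi, hTmem _ (by omega)]
        omega
      · rw [hmc' j (by omega), hTmem _ hi, hTmem _ (by omega)]
        omega
    · have h1 : ∀ v, v ∉ C → (v ∈ T ↔ v ∈ low m) := by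
        intro v hv
        rw [hT, mem_union, mem_filter, mem_image]
        constructor
        · rintro (⟨j, hj, rfl⟩ | h)
          · exfalso
            apply hv
            rw [hC]
            refine mem_image_of_mem _ (mem_range.2 ?_)
            rw [mem_range] at hj
            omega
          · exact h.1
        · intro h
          exact Or.inr ⟨h, hv⟩
      rw [h1 u hu, h1 _ (hCm u hu), mem_low, mem_low, (hm u).2]
      constructor
      · intro h; exact h.not_gt
      · intro h
        exact lt_of_le_of_ne (not_lt.1 h) (hm u).1.symm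
  have e1 := lin_eq x hm T hTtr
  have e2 : lin x m' = ∑ u ∈ T, (dis x (π u) (π (m u)) + gg (π u) (π (m u))) := by
    have hT' : ∀ u, u ∈ T.map π.toEmbedding ↔ m' u ∉ T.map π.toEmbedding := by
      intro u
      obtain ⟨w, rfl⟩ := π.surjective u
      rw [hcomm]
      have : ∀ w, π w ∈ T.map π.toEmbedding ↔ w ∈ T := by
        intro w
        exact Finset.mem_map' π.toEmbedding
      rw [this, this]
      exact hTtr w
    rw [lin_eq x hm' (T.map π.toEmbedding) hT', sum_map]
    refine sum_congr rfl fun u _ => ?_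
    change dis x (π u) (m' (π u)) + gg (π u) (m' (π u)) = _
    rw [hcomm]
  have e3 : ∑ u ∈ low m, gg (π u) (π (m u)) = ∑ u ∈ T, (gg (π u) (π (m u)) + gg u (m u)) := by
    rw [← sum_transversal hm T hTtr (fun u => gg (π u) (π (m u)) + gg u (m u))]
    · refine sum_congr rfl fun u hu => ?_
      rw [mem_low] at hu
      simp [gg, hu.not_gt]
    · intro u
      rw [(hm u).2]
      have k1 := gg_add (π u) (π (m u)) (fun h => (hm u).1 (π.injective h).symm)
      have k2 := gg_add u (m u) (hm u).1.symm
      have h20 : (2 : ZMod 2) = 0 := by decide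
      linear_combination k1 + k2 - (gg (π u) (π (m u)) + gg u (m u) - 1) * h20
  have e4 : ∑ u ∈ T, (dis x u (m u) + dis x (π u) (π (m u))) =
      ∑ i ∈ range (2 * l), dis x (c i) (c (i + 1)) := by
    rw [sum_range_two_mul, hT, sum_union, sum_image]
    · have : ∑ u ∈ (low m).filter (· ∉ C), (dis x u (m u) + dis x (π u) (π (m u))) = 0 := by
        refine sum_eq_zero fun u hu => ?_
        rw [mem_filter] at hu
        rw [hπo u ((hCmem u).1 hu.2), hπo _ ((hCmem _).1 (hCm u hu.2)),
          CharTwo.add_self_eq_zero]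
      rw [this, add_zero]
      refine sum_congr rfl fun j hj => ?_
      rw [mem_range] at hj
      rw [hc j hj, hπc _ (by omega), hπc _ (by omega)]
    · intro i hi j hj h
      rw [mem_coe, mem_range] at hi hj
      have := hinj _ (by omega) _ (by omega) h
      omega
    · rw [disjoint_left]
      intro u hu hu'
      rw [mem_filter] at hu'
      apply hu'.2
      rw [mem_image] at hu
      obtain ⟨j, hj, rfl⟩ := hu
      rw [mem_range] at hj
      rw [hC]
      exact mem_image_of_mem _ (mem_range.2 (by omega))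
  rw [← e4, e1, e2]
  rw [e3] at key
  simp only [sum_add_distrib] at key ⊢
  linear_combination -key

end Pool.Agent.Lib.MP_0c183c_co
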