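import Pool.Agent.Lib.MP_0c183c_co.SpecMac

/-! # Specification of Gaussian elimination -/

namespace Pool.Agent.Lib.MP_0c183c_co

open Pool.Agent.Lib.PolyTM Function Finset

set_option linter.unusedSimpArgs false
set_option linter.unusedSectionVars false

variable {N : ℕ}

/-- Bits as elements of the field with two elements. -/
def bt (b : Bool) : ZMod 2 := if b = true then 1 else 0

theorem bt_xor (a b : Bool) : bt (xor a b) = bt a + bt b := by
  cases a <;> cases b <;> decide

theorem bt_inj {a b : Bool} (h : bt a = bt b) : a = b := by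
  revert h
  cases a <;> cases b <;> decide

/-- `S` is in the span of the vectors `F i k`, `i, k < N`, on the first `L` coordinates. -/
def InSpan (N L : ℕ) (F : ℕ → ℕ → ℕ → Bool) (S : ℕ → Bool) : Prop :=
  ∃ x : ℕ → ℕ → ZMod 2, ∀ j < L, bt (S j) = ∑ i ∈ range N, ∑ k ∈ range N, x i k * bt (F i k j)

theorem inSpan_step (L : ℕ) (F F' : ℕ → ℕ → ℕ → Bool) (S S' : ℕ → Bool) (p : ℕ) (hp : p < L)
    (i0 k0 : ℕ) (hi0 : i0 < N) (hk0 : k0 < N) (_hF0 : F i0 k0 p = true)
    (hF : ∀ i < N, ∀ k < N, ∀ j < L, F' i k j = if F i k p = true then xor (F i k j) (F i0 k0 j)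
      else F i k j)
    (hS : ∀ j < L, S' j = if S p = true then xor (S j) (F i0 k0 j) else S j) :
    InSpan N L F S ↔ InSpan N L F' S' := by
  have hF' : ∀ i < N, ∀ k < N, ∀ j < L, bt (F' i k j) = bt (F i k j) +
      bt (F i k p) * bt (F i0 k0 j) := by
    intro i hi k hk j hj
    rw [hF i hi k hk j hj]
    split_ifs with h
    · rw [bt_xor, h]; simp [bt]
    · simp [bt, h]
  have hS' : ∀ j < L, bt (S' j) = bt (S j) + bt (S p) * bt (F i0 k0 j) := by
    intro j hj
    rw [hS j hj]
    split_ifs with h
    · rw [bt_xor, h]; simp [bt]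
    · simp [bt, h]
  have hsum : ∀ (x : ℕ → ℕ → ZMod 2), ∀ j < L, ∑ i ∈ range N, ∑ k ∈ range N, x i k *
      bt (F' i k j) = ∑ i ∈ range N, ∑ k ∈ range N, x i k * bt (F i k j) +
        (∑ i ∈ range N, ∑ k ∈ range N, x i k * bt (F i k p)) * bt (F i0 k0 j) := by
    intro x j hj
    rw [sum_mul, ← sum_add_distrib]
    refine sum_congr rfl fun i hi => ?_
    rw [sum_mul, ← sum_add_distrib]
    refine sum_congr rfl fun k hk => ?_
    rw [hF' i (mem_range.1 hi) k (mem_range.1 hk) j hj]
    ring
  constructor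
  · rintro ⟨x, hx⟩
    refine ⟨x, fun j hj => ?_⟩
    rw [hS' j hj, hsum x j hj, ← hx j hj, ← hx p hp]
  · rintro ⟨x, hx⟩
    refine ⟨fun i k => x i k + if i = i0 ∧ k = k0 then
      (∑ i ∈ range N, ∑ k ∈ range N, x i k * bt (F i k p)) + bt (S p) else 0, fun j hj => ?_⟩
    have h1 := hx j hj
    rw [hS' j hj, hsum x j hj] at h1
    simp only [add_mul, sum_add_distrib]
    have h2 : ∀ c : ZMod 2, (∑ i ∈ range N, ∑ k ∈ range N, (if i = i0 ∧ k = k0 then c else 0) *
        bt (F i k j)) = c * bt (F i0 k0 j) := by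
      intro c
      rw [sum_eq_single i0, sum_eq_single k0]
      · simp
      · intro k _ hk
        simp [hk]
      · intro h
        exact absurd (mem_range.2 hk0) h
      · intro i _ hi
        refine sum_eq_zero fun k _ => ?_
        simp [hi]
      · intro h
        exact absurd (mem_range.2 hi0) h
    rw [h2]
    have h20 : (2 : ZMod 2) = 0 := by decide
    linear_combination h1 - bt (S p) * bt (F i0 k0 j) * h20

theorem prefix_ne' {pre pre' ts ts' : List ℕ} (hl : pre.length = pre'.length) (h : pre ≠ pre') :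
    pre ++ ts ≠ pre' ++ ts' := fun he => h (List.append_inj he hl).1

theorem qmap (e : Va → ℕ) (pre : List Va) (hpre : ∀ y ∈ pre, y ∉ qs) (m : ℕ) :
    (pre ++ qs).map (upds e qs (dec N 4 m)) = pre.map e ++ dec N 4 m := by
  rw [List.map_append, upds_map e qs qs_nodup _ (dec_length 4 m),
    map_upds_of_disj e qs pre _ hpre]

theorem dec_two (t : ℕ) : ∃ a b, dec N 2 t = [a, b] := ⟨_, _, rfl⟩

theorem pivot_spec (e : Va → ℕ) (σ : AS Wa) (p : ℕ) (he : ps.map e = dec N 4 p) :
    (∀ i < N, ∀ k < N, (pivot.run N e σ).a (.fl 2) [] = false → blk N σ.a .F [i, k] p = false) ∧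
    ((pivot.run N e σ).a (.fl 2) [] = true → ∃ i < N, ∃ k < N, blk N σ.a .F [i, k] p = true ∧
      ∀ j < N ^ 4, blk N (pivot.run N e σ).a .R [] j = blk N σ.a .F [i, k] j) := by
  set σ1 : AS Wa := (Stmt.wr (.fl 2) [] fls).run N e σ with hσ1
  have hseq : pivot.run N e σ = (loops [.i, .k]
    (.ite (.fml (.and (.not (.arr (.fl 2) [])) (.arr .F ([.i, .k] ++ ps))))
    (.seq (.wr (.fl 2) [] tru) (loops qs (.wr .R ([] ++ qs) (.arr .F ([.i, .k] ++ qs)))))
      .skip)).run N e σ1 := rfl
  rw [hseq]
  have hlen : [Va.i, Va.k].length = 2 := rfl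
  have key := run_num (N := N) (xs := [Va.i, .k]) (s := Stmt.ite
    (.fml (.and (.not (.arr (.fl 2) [])) (.arr .F ([.i, .k] ++ ps))))
    (.seq (.wr (.fl 2) [] tru) (loops qs (.wr .R ([] ++ qs) (.arr .F ([.i, .k] ++ qs)))))
      .skip) (e := e)
    (fun m σ' => σ'.a .F = σ.a .F ∧
      (σ'.a (.fl 2) [] = false → ∀ t < m, blk N σ.a .F (dec N 2 t) p = false) ∧
      (σ'.a (.fl 2) [] = true → ∃ t < N ^ 2, blk N σ.a .F (dec N 2 t) p = true ∧
        ∀ j < N ^ 4, blk N σ'.a .R [] j = blk N σ.a .F (dec N 2 t) j))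
    (by
      rintro m hm σ' ⟨g1, g2, g3⟩
      rw [hlen] at hm ⊢
      obtain ⟨a, b, hab⟩ := dec_two (N := N) m
      set e' := upds e [Va.i, .k] (dec N 2 m) with he'
      have ei : e' .i = a := by rw [he', hab]; simp [upds]
      have ek : e' .k = b := by rw [he', hab]; simp [upds]
      have hp' : ps.map e' = dec N 4 p := by
        rw [he', map_upds_of_disj e _ ps _ (by decide), he]
      have hcond : (Cond.fml (.and (.not (.arr (.fl 2) [])) (.arr .F ([.i, .k] ++ ps))) :
          Cond Va Wa).eval N σ'.a e' = (!σ'.a (.fl 2) [] && blk N σ.a .F (dec N 2 m) p) := by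
        simp only [Cond.eval, Fml.eval]
        rw [List.map_append, hp', g1, hab]
        simp [blk, ei, ek]
      simp only [Stmt.run, hcond]
      by_cases hf : σ'.a (.fl 2) [] = true
      · rw [if_neg (by simp [hf])]
        exact ⟨g1, fun h => absurd hf (by simp [h]), g3⟩
      · have hf' : σ'.a (.fl 2) [] = false := by simpa using hf
        by_cases hb : blk N σ.a .F (dec N 2 m) p = true
        · rw [if_pos (by simp [hf', hb])]
          set σ2 : AS Wa := { σ' with a := update σ'.a (.fl 2) (update (σ'.a (.fl 2))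
            (List.map e' []) (tru.eval N σ'.a e')) } with hσ2
          obtain ⟨_, h2, h3, _⟩ := run_block (N := N) .R [] qs (.arr .F ([.i, .k] ++ qs)) qs_nodup
            (by simp) (by simp [Fml.uses]) e' σ2
          have hF2 : σ2.a .F = σ'.a .F := by simp [hσ2]
          have hfl : σ2.a (.fl 2) [] = true := by simp [hσ2, tru, Fml.eval_tt]
          refine ⟨?_, ?_, ?_⟩
          · rw [h2 .F (by decide), hF2, g1]
          · intro h
            rw [h2 (.fl 2) (by decide), hfl] at h
            exact absurd h (by simp)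
          · intro _
            refine ⟨m, hm, hb, fun j hj => ?_⟩
            unfold blk
            have h4 := h3 (dec N 4 j) (dec_ok hj)
            simp only [List.map_nil] at h4
            rw [h4]
            simp only [Fml.eval]
            rw [qmap e' [.i, .k] (by decide), hF2, g1, hab]
            simp [ei, ek]
        · have hb' : blk N σ.a .F (dec N 2 m) p = false := by simpa using hb
          rw [if_neg (by simp [hb'])]
          refine ⟨g1, fun h t ht => ?_, g3⟩
          rcases Nat.lt_or_ge t m with h' | h'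
          · exact g2 h t h'
          · obtain rfl : t = m := by omega
            exact hb')
    (σ := σ1) (by
      refine ⟨?_, fun _ t ht => absurd ht (Nat.not_lt_zero _), fun h => ?_⟩
      · rw [hσ1, run_mods _ _ (by decide)]
      · rw [hσ1] at h
        simp [Stmt.run, fls, Fml.eval_ff] at h)
  rw [hlen] at key
  obtain ⟨_, k2, k3⟩ := key
  constructor
  · intro i hi k hk h
    have h1 := k2 h (enc N [i, k]) (enc_lt' (okt_two hi hk))
    rwa [dec_enc (okt_two hi hk)] at h1
  · intro h
    obtain ⟨t, ht, h1, h2⟩ := k3 h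
    obtain ⟨a, b, hab⟩ := dec_two (N := N) t
    have hok := dec_ok ht
    rw [hab] at h1 h2 hok
    exact ⟨a, hok.2 a (by simp), b, hok.2 b (by simp), h1, h2⟩

theorem elim_spec (e : Va → ℕ) (σ : AS Wa) (p : ℕ) (hp : p < N ^ 4) (he : ps.map e = dec N 4 p) :
    (∀ i < N, ∀ k < N, ∀ j < N ^ 4, blk N (elim.run N e σ).a .F [i, k] j =
      if blk N σ.a .F [i, k] p = true then xor (blk N σ.a .F [i, k] j) (blk N σ.a .R [] j)
      else blk N σ.a .F [i, k] j) ∧
    (∀ j < N ^ 4, blk N (elim.run N e σ).a .S [] j =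
      if blk N σ.a .S [] p = true then xor (blk N σ.a .S [] j) (blk N σ.a .R [] j)
      else blk N σ.a .S [] j) := by
  set σ1 : AS Wa := (loops [.i, .k] (.ite (.fml (.arr .F ([.i, .k] ++ ps)))
    (loops qs (.wr .F ([.i, .k] ++ qs) (xr (.arr .F ([.i, .k] ++ qs)) (.arr .R qs))))
      .skip) : SS).run N e σ with hσ1
  have hseq : elim.run N e σ = (Stmt.ite (.fml (.arr .S ps)) (loops qs
    (.wr .S ([] ++ qs) (xr (.arr .S ([] ++ qs)) (.arr .R qs)))) .skip).run N e σ1 := rfl
  rw [hseq]
  have hlen : [Va.i, Va.k].length = 2 := rfl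
  have key := run_num (N := N) (xs := [Va.i, .k]) (s := Stmt.ite (.fml (.arr .F ([.i, .k] ++ ps)))
    (loops qs (.wr .F ([.i, .k] ++ qs) (xr (.arr .F ([.i, .k] ++ qs)) (.arr .R qs))))
      .skip) (e := e)
    (fun m σ' => σ'.a .R = σ.a .R ∧ σ'.a .S = σ.a .S ∧
      ∀ t < N ^ 2, ∀ j < N ^ 4, blk N σ'.a .F (dec N 2 t) j = if t < m then
        (if blk N σ.a .F (dec N 2 t) p = true then
          xor (blk N σ.a .F (dec N 2 t) j) (blk N σ.a .R [] j)
          else blk N σ.a .F (dec N 2 t) j) else blk N σ.a .F (dec N 2 t) j)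
    (by
      rintro m hm σ' ⟨g1, g2, g3⟩
      rw [hlen] at hm ⊢
      obtain ⟨a, b, hab⟩ := dec_two (N := N) m
      set e' := upds e [Va.i, .k] (dec N 2 m) with he'
      have ei : e' .i = a := by rw [he', hab]; simp [upds]
      have ek : e' .k = b := by rw [he', hab]; simp [upds]
      have hp' : ps.map e' = dec N 4 p := by
        rw [he', map_upds_of_disj e _ ps _ (by decide), he]
      have hcond : (Cond.fml (.arr .F ([.i, .k] ++ ps)) :
          Cond Va Wa).eval N σ'.a e' = blk N σ.a .F (dec N 2 m) p := by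
        have h1 := g3 m hm p hp
        rw [if_neg (lt_irrefl m)] at h1
        rw [← h1]
        simp only [Cond.eval, Fml.eval]
        rw [List.map_append, hp', hab]
        simp [blk, ei, ek]
      simp only [Stmt.run, hcond]
      by_cases hb : blk N σ.a .F (dec N 2 m) p = true
      · rw [if_pos hb]
        obtain ⟨h1, h2⟩ := run_xor (N := N) .F [.i, .k] qs (.arr .R qs) qs_nodup
          (by decide) (by simp [Fml.uses]) e' σ'
        simp only [List.map_cons, List.map_nil, ei, ek, qs_length] at h1 h2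
        refine ⟨?_, ?_, ?_⟩
        · rw [run_mods _ _ (by simp [mods_loops, mods]), g1]
        · rw [run_mods _ _ (by simp [mods_loops, mods]), g2]
        · intro t ht j hj
          by_cases htm : t = m
          · subst htm
            rw [if_pos (by omega), if_pos hb]
            have h3 := g3 t ht j hj
            rw [if_neg (lt_irrefl t)] at h3
            rw [← h3]
            unfold blk
            rw [hab, h1 _ (dec_ok hj)]
            simp only [Fml.eval]
            rw [upds_map _ qs qs_nodup _ (dec_length 4 j), g1]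
            rfl
          · have h4 : dec N 2 t ≠ [a, b] := by
              rw [← hab]
              exact fun h => htm (dec_inj ht hm h)
            have h5 : (((loops qs (.wr .F ([.i, .k] ++ qs)
              (xr (.arr .F ([.i, .k] ++ qs)) (.arr .R qs)))) : SS).run N e' σ').a .F
                (dec N 2 t ++ dec N 4 j) = σ'.a .F (dec N 2 t ++ dec N 4 j) :=
              h2 _ (fun ts _ => prefix_ne' (by simp [dec_length]) h4)
            have h6 := g3 t ht j hj
            unfold blk at h6 ⊢
            rw [h5, h6]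
            by_cases hlt : t < m
            · rw [if_pos hlt, if_pos (show t < m + 1 by omega)]
            · rw [if_neg hlt, if_neg (show ¬ t < m + 1 by omega)]
      · rw [if_neg hb]
        refine ⟨g1, g2, fun t ht j hj => ?_⟩
        rw [g3 t ht j hj]
        by_cases htm : t = m
        · subst htm
          rw [if_neg (lt_irrefl t), if_pos (by omega), if_neg hb]
        · by_cases hlt : t < m
          · rw [if_pos hlt, if_pos (show t < m + 1 by omega)]
          · rw [if_neg hlt, if_neg (show ¬ t < m + 1 by omega)])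
    (σ := σ) ⟨rfl, rfl, fun t _ j _ => by rw [if_neg (Nat.not_lt_zero t)]⟩
  rw [hlen] at key
  obtain ⟨hR1, hS1, hF1⟩ := key
  change σ1.a .R = σ.a .R at hR1
  change σ1.a .S = σ.a .S at hS1
  constructor
  · intro i hi k hk j hj
    have h1 : ((Stmt.ite (.fml (.arr .S ps)) (loops qs
        (.wr .S ([] ++ qs) (xr (.arr .S ([] ++ qs)) (.arr .R qs)))) .skip : SS).run N e σ1).a .F =
        σ1.a .F := run_mods _ _ (by decide) _ _
    have h2 := hF1 (enc N [i, k]) (enc_lt' (okt_two hi hk)) j hj
    rw [dec_enc (okt_two hi hk), if_pos (enc_lt' (okt_two hi hk))] at h2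
    rw [← h2]
    unfold blk
    rw [h1]
  · intro j hj
    have hcond : (Cond.fml (.arr .S ps) : Cond Va Wa).eval N σ1.a e = blk N σ.a .S [] p := by
      simp only [Cond.eval, Fml.eval]
      rw [he, hS1]
      rfl
    simp only [Stmt.run, hcond]
    by_cases hb : blk N σ.a .S [] p = true
    · rw [if_pos hb, if_pos hb]
      obtain ⟨h1, _⟩ := run_xor (N := N) .S [] qs (.arr .R qs) qs_nodup
        (by simp) (by simp [Fml.uses]) e σ1
      have h2 := h1 (dec N 4 j) (dec_ok hj)
      simp only [List.map_nil, Fml.eval] at h2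
      unfold blk
      rw [h2, upds_map _ qs qs_nodup _ (dec_length 4 j), hS1, hR1]
      rfl
    · rw [if_neg hb, if_neg hb]
      unfold blk
      rw [hS1]

theorem gauss_spec (e : Va → ℕ) (σ : AS Wa) :
    InSpan N (N ^ 4) (fun i k => blk N σ.a .F [i, k]) (blk N σ.a .S []) ↔
      ∀ j < N ^ 4, blk N (gauss.run N e σ).a .S [] j = false := by
  have key := run_num (N := N) (xs := ps) (s := Stmt.seq pivot
    (.ite (.fml (.arr (.fl 2) [])) elim .skip)) (e := e)
    (fun m σ' => (InSpan N (N ^ 4) (fun i k => blk N σ.a .F [i, k]) (blk N σ.a .S []) ↔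
      InSpan N (N ^ 4) (fun i k => blk N σ'.a .F [i, k]) (blk N σ'.a .S [])) ∧
      ∀ i < N, ∀ k < N, ∀ j < N ^ 4, j < m → blk N σ'.a .F [i, k] j = false)
    (by
      rintro m hm σ' ⟨g1, g2⟩
      rw [ps_length] at hm ⊢
      set e' := upds e ps (dec N 4 m) with he'
      have hp' : ps.map e' = dec N 4 m := upds_map e ps ps_nodup _ (dec_length 4 m)
      obtain ⟨k1, k2⟩ := pivot_spec e' σ' m hp'
      set σ2 := pivot.run N e' σ' with hσ2
      have hF2 : σ2.a .F = σ'.a .F := run_mods _ _ (by decide) _ _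
      have hS2 : σ2.a .S = σ'.a .S := run_mods _ _ (by decide) _ _
      have hrun : (Stmt.seq pivot (.ite (.fml (.arr (.fl 2) [])) elim .skip)).run N e' σ' =
        (Stmt.ite (.fml (.arr (.fl 2) [])) elim .skip : SS).run N e' σ2 := rfl
      rw [hrun]
      have hcond : (Cond.fml (.arr (.fl 2) []) : Cond Va Wa).eval N σ2.a e' =
          σ2.a (.fl 2) [] := rfl
      simp only [Stmt.run, hcond]
      by_cases hf : σ2.a (.fl 2) [] = true
      · rw [if_pos hf]
        obtain ⟨i0, hi0, k0, hk0, hpiv, hR⟩ := k2 hf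
        obtain ⟨l1, l2⟩ := elim_spec e' σ2 m hm hp'
        set σ3 := elim.run N e' σ2 with hσ3
        have hF2' : ∀ i k, blk N σ2.a .F [i, k] = blk N σ'.a .F [i, k] := by
          intro i k; unfold blk; rw [hF2]
        have hS2' : blk N σ2.a .S [] = blk N σ'.a .S [] := by
          unfold blk; rw [hS2]
        have hF3 : ∀ i < N, ∀ k < N, ∀ j < N ^ 4, blk N σ3.a .F [i, k] j =
            if blk N σ'.a .F [i, k] m = true then
              xor (blk N σ'.a .F [i, k] j) (blk N σ'.a .F [i0, k0] j)
            else blk N σ'.a .F [i, k] j := by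
          intro i hi k hk j hj
          rw [l1 i hi k hk j hj, hF2', hR j hj]
        constructor
        · rw [g1]
          refine inSpan_step (N ^ 4) _ _ _ _ m hm i0 k0 hi0 hk0 hpiv hF3 ?_
          intro j hj
          rw [l2 j hj, hS2', hR j hj]
        · intro i hi k hk j hj hjm
          rw [hF3 i hi k hk j hj]
          rcases Nat.lt_or_ge j m with h | h
          · rw [g2 i hi k hk j hj h, g2 i0 hi0 k0 hk0 j hj h]
            simp
          · obtain rfl : j = m := by omega
            split_ifs with h'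
            · rw [h', hpiv]; rfl
            · simpa using h'
      · rw [if_neg hf]
        have hf' : σ2.a (.fl 2) [] = false := by simpa using hf
        have hF2' : ∀ i k, blk N σ2.a .F [i, k] = blk N σ'.a .F [i, k] := by
          intro i k; unfold blk; rw [hF2]
        have hS2' : blk N σ2.a .S [] = blk N σ'.a .S [] := by
          unfold blk; rw [hS2]
        simp only [hF2', hS2']
        refine ⟨g1, fun i hi k hk j hj hjm => ?_⟩
        rcases Nat.lt_or_ge j m with h | h
        · exact g2 i hi k hk j hj h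
        · obtain rfl : j = m := by omega
          exact k1 i hi k hk hf')
    (σ := σ) ⟨Iff.rfl, fun _ _ _ _ j _ h => absurd h (Nat.not_lt_zero j)⟩
  rw [ps_length] at key
  obtain ⟨g1, g2⟩ := key
  rw [g1]
  change InSpan N (N ^ 4) (fun i k => blk N (gauss.run N e σ).a .F [i, k])
    (blk N (gauss.run N e σ).a .S []) ↔ _
  change ∀ i < N, ∀ k < N, ∀ j < N ^ 4, j < N ^ 4 →
    blk N (gauss.run N e σ).a .F [i, k] j = false at g2
  constructor
  · rintro ⟨x, hx⟩ j hj
    have h1 := hx j hj
    have h2 : ∑ i ∈ range N, ∑ k ∈ range N, x i k *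
        bt (blk N (gauss.run N e σ).a .F [i, k] j) = 0 := by
      refine sum_eq_zero fun i hi => sum_eq_zero fun k hk => ?_
      rw [g2 i (mem_range.1 hi) k (mem_range.1 hk) j hj hj]
      simp [bt]
    rw [h2] at h1
    exact bt_inj (b := false) (h1.trans (by simp [bt]))
  · intro h
    refine ⟨fun _ _ => 0, fun j hj => ?_⟩
    rw [h j hj]
    simp [bt]

theorem emit_eval (a : Arr Wa) (e : Va → ℕ) :
    (Fml.not (.ex (.q 0) (.ex (.q 1) (.ex (.q 2) (.ex (.q 3) (.arr .S qs)))))).eval N a e = true ↔
      ∀ j < N ^ 4, blk N a .S [] j = false := by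
  rw [Fml.eval_not]
  simp only [Fml.eval_ex, Fml.eval_arr]
  constructor
  · intro h j hj
    by_contra hcon
    apply h
    have hok := dec_ok hj
    obtain ⟨t0, t1, t2, t3, hts⟩ : ∃ t0 t1 t2 t3, dec N 4 j = [t0, t1, t2, t3] := by
      simp [dec]
    unfold blk at hcon
    rw [hts] at hcon hok
    refine ⟨t0, hok.2 _ (by simp), t1, hok.2 _ (by simp), t2, hok.2 _ (by simp), t3,
      hok.2 _ (by simp), ?_⟩
    simpa [qs] using hcon
  · rintro h ⟨t0, h0, t1, h1, t2, h2, t3, h3, hS⟩
    have hok : OKt N 4 [t0, t1, t2, t3] := ⟨rfl, by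
      intro t ht
      simp only [List.mem_cons, List.not_mem_nil, or_false] at ht
      rcases ht with rfl | rfl | rfl | rfl <;> assumption⟩
    have := h (enc N [t0, t1, t2, t3]) (enc_lt' hok)
    unfold blk at this
    rw [dec_enc hok] at this
    simp [qs] at hS
    rw [List.nil_append] at this
    rw [this] at hS
    exact absurd hS (by simp)

end Pool.Agent.Lib.MP_0c183c_co
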