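import Pool.Agent.Lib.MP_0c183c_co.SpecPoly
import Pool.Agent.Lib.MP_0c183c_co.SpecGauss
import Pool.Agent.Lib.MP_0c183c_co.Prob

/-! # The program decides the algebraic acceptance condition -/

namespace Pool.Agent.Lib.MP_0c183c_co

open Pool.Agent.Lib.PolyTM Function Finset Polynomial

set_option linter.unusedSimpArgs false
set_option linter.unusedSectionVars false

/-- The random bits of an array as polynomials. -/
noncomputable def rOf (n : ℕ) (a : Arr Wa) (u v : Fin n) : (ZMod 2)[X] :=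
  bitPoly (n ^ 3) (fun t => a .rnd ([(u : ℕ), (v : ℕ)] ++ dec n 3 t))

/-- The array `g` contains the adjacency matrix of `G`. -/
def AdjOK {n : ℕ} (G : SimpleGraph (Fin n)) (a : Arr Wa) : Prop :=
  ∀ u v : Fin n, a .g [(u : ℕ), (v : ℕ)] = true ↔ G.Adj u v

variable {n : ℕ} {A : Type} [CommRing A] [CharP A 2]

theorem dec_four (m : ℕ) : ∃ t : ℕ, ∃ l, dec n 4 m = t :: l ∧ l = dec n 3 (m % n ^ 3) ∧
    t = m / n ^ 3 := ⟨_, _, rfl, rfl, rfl⟩

theorem initY_spec (φ : (ZMod 2)[X] →+* A) (G : SimpleGraph (Fin n)) (e : Va → ℕ) (σ : AS Wa)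
    (hG : AdjOK G σ.a) :
    MW n (φ X) (initY.run n e σ).a .y = φ.mapMatrix (ymat G (rOf n σ.a)) := by
  ext u v
  have hn : 0 < n := u.pos
  have key : ∀ m < n ^ 4, blk n (initY.run n e σ).a .y [(u : ℕ), (v : ℕ)] m = true ↔
      G.Adj u v ∧ m < n ^ 3 ∧
        σ.a .rnd ([((min u v : Fin n) : ℕ), ((max u v : Fin n) : ℕ)] ++ dec n 3 m) = true := by
    intro m hm
    obtain ⟨e', h1, h2, h3, h5, h4⟩ := fill6_spec (N := n) .y yF (by decide) e σ u v (dec n 4 m)
      u.2 v.2 (dec_ok hm)
    unfold blk initY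
    rw [h4]
    unfold yF
    have hqs : e' (.q 0) = m / n ^ 3 ∧ [e' (.q 1), e' (.q 2), e' (.q 3)] =
        dec n 3 (m % n ^ 3) := by
      have : [e' (.q 0), e' (.q 1), e' (.q 2), e' (.q 3)] = dec n 4 m := h3
      rw [dec] at this
      exact ⟨(List.cons.inj this).1, (List.cons.inj this).2⟩
    have hzero : (¬ ∃ s < n, (Fml.lt .z (.q 0) : FF).eval n σ.a (update e' .z s) = true) ↔
        m < n ^ 3 := by
      constructor
      · intro h
        by_contra hcon
        apply h
        refine ⟨0, hn, ?_⟩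
        rw [Fml.eval_lt, update_self, update_of_ne (by decide), hqs.1]
        exact Nat.div_pos (by omega) (by positivity)
      · rintro h ⟨s, hs, h'⟩
        rw [Fml.eval_lt, update_self, update_of_ne (by decide), hqs.1, Nat.div_eq_of_lt h] at h'
        omega
    rw [Fml.eval_and, Fml.eval_and, Fml.eval_not, Fml.eval_ex, hzero, Fml.eval_or, Fml.eval_and,
      Fml.eval_and, Fml.eval_lt, Fml.eval_lt, h1, h2]
    simp only [Fml.eval, List.map_cons, List.map_nil, h1, h2]
    rw [hG u v]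
    refine and_congr_right fun hadj => and_congr_right fun hlt => ?_
    rw [Nat.mod_eq_of_lt hlt] at hqs
    have hne := hadj.ne
    rcases lt_or_gt_of_ne hne with h | h
    · have h' : (u : ℕ) < v := h
      rw [min_eq_left h.le, max_eq_right h.le, ← hqs.2]
      simp [h', h'.not_gt]
    · have h' : (v : ℕ) < u := h
      rw [min_eq_right h.le, max_eq_left h.le, ← hqs.2]
      simp [h', h'.not_gt]
  unfold MW
  rw [RingHom.mapMatrix_apply, Matrix.map_apply]
  unfold ymat
  by_cases hadj : G.Adj u v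
  · rw [if_pos hadj]
    unfold rOf bitPoly qv
    rw [map_sum]
    have h34 : n ^ 3 ≤ n ^ 4 := Nat.pow_le_pow_right hn (by norm_num)
    rw [← sum_subset (range_subset_range.2 h34)]
    · rw [← Fin.sum_univ_eq_sum_range]
      refine sum_congr rfl fun t _ => ?_
      have h1 := key t (lt_of_lt_of_le t.2 h34)
      by_cases hb : σ.a .rnd ([((min u v : Fin n) : ℕ), ((max u v : Fin n) : ℕ)] ++
          dec n 3 t) = true
      · rw [if_pos (h1.2 ⟨hadj, t.2, hb⟩), if_pos hb, map_pow]
      · rw [if_neg (fun h => hb (h1.1 h).2.2), if_neg hb, map_zero]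
    · intro m hm hm'
      rw [mem_range] at hm hm'
      rw [if_neg]
      intro h
      exact hm' ((key m hm).1 h).2.1
  · rw [if_neg hadj, map_zero]
    refine qv_false _ _ fun m hm => ?_
    by_contra h
    rw [Bool.not_eq_false] at h
    exact hadj ((key m hm).1 h).1

theorem map_maskN (φ : (ZMod 2)[X] →+* A) (i k : ℕ) (M : Matrix (Fin n) (Fin n) (ZMod 2)[X]) :
    maskN i k (φ.mapMatrix M) = φ.mapMatrix (maskN i k M) := by
  ext u v
  simp only [maskN, RingHom.mapMatrix_apply, Matrix.map_apply]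
  split_ifs <;> simp

/-- Coefficients of the value of a bit vector. -/
theorem qv_coeff (L : ℕ) (b : ℕ → Bool) (j : ℕ) :
    (qv (X : (ZMod 2)[X]) L b).coeff j = if j < L then bt (b j) else 0 := by
  unfold qv
  rw [finsetSum_coeff]
  have : ∀ m, (if b m = true then (X : (ZMod 2)[X]) ^ m else 0).coeff j =
      if m = j then bt (b m) else 0 := by
    intro m
    by_cases hb : b m = true
    · rw [if_pos hb, coeff_X_pow]
      simp [bt, hb, eq_comm]
    · rw [if_neg hb]
      simp [bt, hb]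
  simp only [this]
  by_cases hj : j < L
  · rw [if_pos hj, sum_ite_eq' (range L) j, if_pos (mem_range.2 hj)]
  · rw [if_neg hj]
    refine sum_eq_zero fun m hm => ?_
    rw [mem_range] at hm
    rw [if_neg (by omega)]

theorem map_qv (φ : (ZMod 2)[X] →+* A) (L : ℕ) (b : ℕ → Bool) :
    φ (qv X L b) = qv (φ X) L b := by
  unfold qv
  rw [map_sum]
  refine sum_congr rfl fun m _ => ?_
  split_ifs <;> simp

theorem qv_degree (L : ℕ) (b : ℕ → Bool) : (qv (X : (ZMod 2)[X]) L b).degree < L := by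
  rw [degree_lt_iff_coeff_zero]
  intro m hm
  rw [qv_coeff, if_neg (by omega)]

/-- The quotient ring. -/
abbrev QR (L : ℕ) : Type := (ZMod 2)[X] ⧸ Ideal.span {(X : (ZMod 2)[X]) ^ L}

/-- The quotient map. -/
noncomputable abbrev qmk (L : ℕ) : (ZMod 2)[X] →+* QR L := Ideal.Quotient.mk _

theorem qmk_pow (L : ℕ) : (qmk L X) ^ L = 0 := by
  rw [← map_pow, Ideal.Quotient.eq_zero_iff_mem]
  exact Ideal.mem_span_singleton_self _

theorem qmk_inj {L : ℕ} {p q : (ZMod 2)[X]} (hp : p.degree < L) (hq : q.degree < L)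
    (h : qmk L p = qmk L q) : p = q := by
  rw [Ideal.Quotient.eq, Ideal.mem_span_singleton] at h
  have h1 := eq_zero_of_dvd_of_degree_lt h (by
    rw [degree_X_pow]
    exact (degree_sub_le p q).trans_lt (max_lt hp hq))
  exact sub_eq_zero.1 h1

theorem charP_QR (L : ℕ) (hL : 0 < L) : CharP (QR L) 2 := by
  have : Nontrivial (QR L) := by
    refine Ideal.Quotient.nontrivial_iff.2 ?_
    intro h
    rw [Ideal.eq_top_iff_one, Ideal.mem_span_singleton] at h
    have := (Polynomial.isUnit_iff_degree_eq_zero.1 (isUnit_of_dvd_one h))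
    rw [degree_X_pow] at this
    have h2 : L = 0 := by exact_mod_cast this
    omega
  exact (Algebra.charP_iff (ZMod 2) (QR L) 2).1 inferInstance

theorem ymat_degree {n : ℕ} (G : SimpleGraph (Fin n)) (a : Arr Wa) (u v : Fin n) :
    (ymat G (rOf n a) u v).natDegree ≤ n ^ 3 - 1 := by
  unfold ymat
  split_ifs
  · unfold rOf bitPoly
    refine natDegree_sum_le_of_forall_le _ _ fun t _ => ?_
    split_ifs
    · rw [natDegree_X_pow]
      have := t.2
      omega
    · simp
  · simp

theorem det_degree {n : ℕ} (hn : 0 < n) (M : Matrix (Fin n) (Fin n) (ZMod 2)[X])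
    (h : ∀ u v, (M u v).natDegree ≤ n ^ 3 - 1) : M.det.degree < ((n ^ 4 : ℕ) : WithBot ℕ) := by
  have h1 : M.det.natDegree ≤ n * (n ^ 3 - 1) := by
    rw [Matrix.det_apply]
    refine natDegree_sum_le_of_forall_le _ _ fun σ _ => ?_
    refine (natDegree_smul_le _ _).trans ?_
    refine (natDegree_prod_le _ _).trans ?_
    refine (sum_le_sum fun i _ => h (σ i) i).trans ?_
    simp
  refine lt_of_le_of_lt (degree_le_natDegree) ?_
  have h2 : n * (n ^ 3 - 1) < n ^ 4 := by
    have h3 : 0 < n ^ 3 := by positivity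
    have h4 : n * (n ^ 3 - 1) = n ^ 4 - n := by
      rw [Nat.mul_sub, mul_one]
      congr 1
      ring
    have h5 : 0 < n ^ 4 := by positivity
    omega
  exact_mod_cast lt_of_le_of_lt h1 h2

theorem maskN_degree {n : ℕ} (M : Matrix (Fin n) (Fin n) (ZMod 2)[X]) (d i k : ℕ)
    (h : ∀ u v, (M u v).natDegree ≤ d) : ∀ u v, (maskN i k M u v).natDegree ≤ d := by
  intro u v
  unfold maskN
  split_ifs
  · exact h u v
  · simp

theorem prog_spec (n : ℕ) (G : SimpleGraph (Fin n)) (σ : AS Wa) (hG : AdjOK G σ.a)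
    (hF : ∀ l, σ.a .F l = false) (hS : ∀ l, σ.a .S l = false) (ho : σ.o = []) (e : Va → ℕ) :
    ∃ b : Bool, (prog.run n e σ).o = [b] ∧ (b = true ↔ Acc G (rOf n σ.a)) := by
  set σ1 := initY.run n e σ with hσ1
  set σ2 := edges.run n e σ1 with hσ2
  set σ3 := cross.run n e σ2 with hσ3
  set σ4 := gauss.run n e σ3 with hσ4
  have hseq : prog.run n e σ = (Stmt.emit (.not (.ex (.q 0) (.ex (.q 1) (.ex (.q 2) (.ex (.q 3)
    (.arr .S qs))))))).run n e σ4 := rfl
  have ho4 : σ4.o = [] := by
    rw [hσ4, run_quiet _ (by decide), hσ3, run_quiet _ (by decide), hσ2,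
      run_quiet _ (by decide), hσ1, run_quiet _ (by decide), ho]
  refine ⟨(Fml.not (.ex (.q 0) (.ex (.q 1) (.ex (.q 2) (.ex (.q 3)
    (.arr .S qs)))))).eval n σ4.a e, ?_, ?_⟩
  · rw [hseq]
    simp only [Stmt.run, ho4, List.nil_append]
  rw [emit_eval, hσ4, ← gauss_spec]
  rcases Nat.eq_zero_or_pos n with hn | hn
  · subst hn
    constructor
    · intro _
      refine ⟨fun _ _ => 0, ?_⟩
      simp [detS]
    · intro _
      exact ⟨fun _ _ => 0, fun j hj => absurd hj (by simp)⟩
  obtain ⟨N, rfl⟩ : ∃ N, n = N + 1 := ⟨n - 1, by omega⟩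
  set L := (N + 1) ^ 4 with hL
  have hLpos : 0 < L := by positivity
  have := charP_QR L hLpos
  have hx := qmk_pow L
  set Y := ymat G (rOf (N + 1) σ.a) with hY
  have hY1 : MW (N + 1) (qmk L X) σ1.a .y = (qmk L).mapMatrix Y := by
    rw [hσ1, initY_spec (qmk L) G e σ hG]
  have hY2 : MW (N + 1) (qmk L X) σ2.a .y = (qmk L).mapMatrix Y := by
    rw [← hY1]
    exact MW_congr _ (by rw [hσ2, run_mods _ _ (by decide)])
  have hYdeg : ∀ u v, (Y u v).natDegree ≤ (N + 1) ^ 3 - 1 := ymat_degree G σ.a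
  have hF3 : σ3.a .F = σ2.a .F := by rw [hσ3, run_mods _ _ (by decide)]
  -- the edge polynomials
  have hFval : ∀ i k : Fin (N + 1), i < k → qv X L (blk (N + 1) σ3.a .F [(i : ℕ), (k : ℕ)]) =
      (mask i k Y).det := by
    intro i k hik
    apply qmk_inj (L := L) (qv_degree _ _)
    · rw [mask_eq_maskN]
      exact det_degree hn _ (maskN_degree _ _ _ _ hYdeg)
    · rw [map_qv, RingHom.map_det, mask_eq_maskN, ← map_maskN, ← hY1]
      have := (edges_spec (qmk L X) hx e σ1 i k i.2 k.2).1 hik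
      rw [← hσ2] at this
      rw [← this]
      unfold blk
      rw [hF3]
  have hFval' : ∀ i k : Fin (N + 1), ¬ i < k →
      qv (X : (ZMod 2)[X]) L (blk (N + 1) σ3.a .F [(i : ℕ), (k : ℕ)]) = 0 := by
    intro i k hik
    refine qv_false _ _ fun m _ => ?_
    unfold blk
    rw [hF3]
    have := (edges_spec (qmk L X) hx e σ1 i k i.2 k.2).2 hik (dec (N + 1) 4 m)
    rw [← hσ2] at this
    rw [this, hσ1, run_mods _ _ (by decide)]
    exact hF _
  -- the crossing polynomial
  have hSval : qv X L (blk (N + 1) σ3.a .S []) = detS Y := by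
    apply qmk_inj (L := L) (qv_degree _ _)
    · unfold detS
      refine lt_of_le_of_lt (degree_sum_le _ _) ((Finset.sup_lt_iff (WithBot.bot_lt_coe _)).2
        fun i _ => ?_)
      refine lt_of_le_of_lt (degree_sum_le _ _) ((Finset.sup_lt_iff (WithBot.bot_lt_coe _)).2
        fun j _ => ?_)
      refine lt_of_le_of_lt (degree_sum_le _ _) ((Finset.sup_lt_iff (WithBot.bot_lt_coe _)).2
        fun k _ => ?_)
      refine lt_of_le_of_lt (degree_sum_le _ _) ((Finset.sup_lt_iff (WithBot.bot_lt_coe _)).2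
        fun l _ => ?_)
      split_ifs
      · rw [mask_eq_maskN, mask_eq_maskN]
        exact det_degree hn _ (maskN_degree _ _ _ _ (maskN_degree _ _ _ _ hYdeg))
      · rw [degree_zero]
        exact WithBot.bot_lt_coe _
    · rw [map_qv]
      have h1 := cross_spec (qmk L X) hx e σ2
      rw [← hσ3, hY2] at h1
      have h2 : qv (qmk L X) L (blk (N + 1) σ2.a .S []) = 0 := by
        refine qv_false _ _ fun m _ => ?_
        unfold blk
        rw [hσ2, run_mods _ _ (by decide), hσ1, run_mods _ _ (by decide)]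
        exact hS _
      rw [h2, zero_add] at h1
      rw [h1]
      unfold detS
      simp only [map_sum]
      rw [← Fin.sum_univ_eq_sum_range (fun i => ∑ j ∈ range (N + 1), ∑ k ∈ range (N + 1),
        ∑ l ∈ range (N + 1), crTerm ((qmk L).mapMatrix Y) i j k l)]
      refine sum_congr rfl fun i _ => ?_
      rw [← Fin.sum_univ_eq_sum_range (fun j => ∑ k ∈ range (N + 1),
        ∑ l ∈ range (N + 1), crTerm ((qmk L).mapMatrix Y) i j k l)]
      refine sum_congr rfl fun j _ => ?_
      rw [← Fin.sum_univ_eq_sum_range (fun k => ∑ l ∈ range (N + 1),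
        crTerm ((qmk L).mapMatrix Y) i j k l)]
      refine sum_congr rfl fun k _ => ?_
      rw [← Fin.sum_univ_eq_sum_range (fun l => crTerm ((qmk L).mapMatrix Y) i j k l)]
      refine sum_congr rfl fun l _ => ?_
      unfold crTerm
      by_cases h : i < j ∧ j < k ∧ k < l
      · have h' : (i : ℕ) < j ∧ (j : ℕ) < k ∧ (k : ℕ) < l := h
        rw [if_pos h, if_pos h', mask_eq_maskN, mask_eq_maskN, RingHom.map_det, ← map_maskN,
          ← map_maskN]
      · have h' : ¬ ((i : ℕ) < j ∧ (j : ℕ) < k ∧ (k : ℕ) < l) := h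
        rw [if_neg h, if_neg h', map_zero]
  -- comparison of the two span conditions
  have hcomb : ∀ x : ℕ → ℕ → ZMod 2,
      (∑ i : Fin (N + 1), ∑ k : Fin (N + 1), if i < k then C (x i k) * (mask i k Y).det else 0) =
      ∑ i ∈ range (N + 1), ∑ k ∈ range (N + 1), C (x i k) *
        qv X L (blk (N + 1) σ3.a .F [i, k]) := by
    intro x
    rw [← Fin.sum_univ_eq_sum_range (fun i => ∑ k ∈ range (N + 1), C (x i k) *
        qv X L (blk (N + 1) σ3.a .F [i, k]))]
    refine sum_congr rfl fun i _ => ?_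
    rw [← Fin.sum_univ_eq_sum_range (fun k => C (x i k) *
        qv X L (blk (N + 1) σ3.a .F [(i : ℕ), k]))]
    refine sum_congr rfl fun k _ => ?_
    split_ifs with h
    · rw [hFval i k h]
    · rw [hFval' i k h, mul_zero]
  have hcoef : ∀ x : ℕ → ℕ → ZMod 2, (∀ j < L, bt (blk (N + 1) σ3.a .S [] j) =
      ∑ i ∈ range (N + 1), ∑ k ∈ range (N + 1), x i k *
        bt (blk (N + 1) σ3.a .F [i, k] j)) ↔
      qv X L (blk (N + 1) σ3.a .S []) = ∑ i ∈ range (N + 1), ∑ k ∈ range (N + 1), C (x i k) *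
        qv X L (blk (N + 1) σ3.a .F [i, k]) := by
    intro x
    rw [Polynomial.ext_iff]
    refine forall_congr' fun j => ?_
    simp only [finsetSum_coeff, coeff_C_mul, qv_coeff]
    by_cases hj : j < L
    · simp [hj]
    · simp [hj]
  unfold Acc InSpan
  constructor
  · rintro ⟨x, hx'⟩
    refine ⟨fun i k => x i k, ?_⟩
    rw [← hSval, hcomb, (hcoef x).1 hx']
  · rintro ⟨x, hx'⟩
    refine ⟨fun i k => if h : i < N + 1 ∧ k < N + 1 then x ⟨i, h.1⟩ ⟨k, h.2⟩ else 0, ?_⟩
    rw [hcoef, hSval, ← hcomb]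
    refine hx'.trans ?_
    refine sum_congr rfl fun i _ => sum_congr rfl fun k _ => ?_
    split_ifs with h1 h2
    · rfl
    · exact absurd ⟨i.2, k.2⟩ h2
    · rfl

end Pool.Agent.Lib.MP_0c183c_co
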