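import Pool.Agent.Lib.MP_0c183c_co.Walks

/-! # Pfaffian graphs are those whose crossing parities are linear -/

namespace Pool.Agent.Lib.MP_0c183c_co

open Finset

variable {n : ℕ} {G : SimpleGraph (Fin n)}

theorem dis_add (x : Fin n → Fin n → ZMod 2) {u v : Fin n} (h : u ≠ v) :
    dis x u v + dis x v u = 1 := by
  have h2 : (2 : ZMod 2) = 0 := by decide
  unfold dis
  rcases lt_or_gt_of_ne h with h | h
  · rw [if_pos h, if_neg h.not_gt]
    linear_combination (x u v) * h2
  · rw [if_pos h, if_neg h.not_gt]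
    linear_combination (x v u) * h2

theorem zmod2_ne_zero {a : ZMod 2} : a ≠ 0 ↔ a = 1 := by
  revert a; decide

theorem dis_zero_iff (x : Fin n → Fin n → ZMod 2) {u v : Fin n} (h : u ≠ v) :
    dis x u v = 0 ↔ ¬ dis x v u = 0 := by
  have h1 := dis_add x h
  constructor
  · intro h2 h3
    rw [h2, h3] at h1
    exact absurd h1 (by decide)
  · intro h2
    rw [zmod2_ne_zero.1 h2] at h1
    linear_combination h1

/-- The orientation given by a labelling. -/
def ofLabel (G : SimpleGraph (Fin n)) (x : Fin n → Fin n → ZMod 2) : Orientation G where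
  dir u v := dis x u v = 0
  dir_iff _ _ h := dis_zero_iff x h.ne

/-- Kasteleyn's lemma for a central cycle. -/
theorem central_cycle (x : Fin n → Fin n → ZMod 2) {v : Fin n} (c : G.Walk v v)
    (hc : c.IsCycle) (l : ℕ) (hl : c.length = 2 * l) (hcen : Central G c) :
    ∃ m m', IsPM m ∧ InG G m ∧ IsPM m' ∧ InG G m' ∧
      (cr m + lin x m) + (cr m' + lin x m') =
        1 + ∑ i ∈ range (2 * l), dis x (c.getVert i) (c.getVert (i + 1)) := by
  obtain ⟨M, hM, hMv⟩ := hcen
  have h3 := hc.three_le_length
  have hinj : ∀ i < 2 * l, ∀ j < 2 * l, c.getVert i = c.getVert j → i = j := by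
    intro i hi j hj h
    refine hc.getVert_injOn' ?_ ?_ h
    · rw [Set.mem_ofPred_eq]; omega
    · rw [Set.mem_ofPred_eq]; omega
  have hck : c.getVert (2 * l) = c.getVert 0 := by
    rw [← hl, SimpleGraph.Walk.getVert_length, SimpleGraph.Walk.getVert_zero]
  have hinj' : ∀ i < 2 * l, ∀ j < 2 * l, c.getVert (i + 1) = c.getVert (j + 1) → i = j := by
    intro i hi j hj h
    have := hc.getVert_injOn (x₁ := i + 1) (x₂ := j + 1) (by rw [Set.mem_ofPred_eq]; omega)
      (by rw [Set.mem_ofPred_eq]; omega) h
    omega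
  have hsupp : ∀ w, w ∈ M.verts ↔ ∀ i < 2 * l, c.getVert i ≠ w := by
    intro w
    rw [hMv, Set.mem_ofPred_eq, SimpleGraph.Walk.mem_support_iff_exists_getVert]
    push Not
    constructor
    · intro h i hi hw
      have := h i hw
      omega
    · intro h i hi
      rcases Nat.lt_or_ge i (2 * l) with h' | h'
      · exact absurd hi (h i h')
      · by_contra hcon
        have : i = 2 * l := by omega
        subst this
        rw [hck] at hi
        exact h 0 (by omega) hi
  have hsupp' : ∀ w, w ∈ M.verts ↔ ∀ i < 2 * l, c.getVert (i + 1) ≠ w := by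
    intro w
    rw [hsupp]
    constructor
    · intro h i hi
      rcases Nat.lt_or_ge (i + 1) (2 * l) with h' | h'
      · exact h _ h'
      · have : i + 1 = 2 * l := by omega
        rw [this, hck]
        exact h 0 (by omega)
    · intro h i hi
      rcases Nat.eq_zero_or_pos i with h' | h'
      · subst h'
        rw [← hck]
        have := h (2 * l - 1) (by omega)
        rwa [show 2 * l - 1 + 1 = 2 * l by omega] at this
      · have := h (i - 1) (by omega)
        rwa [show i - 1 + 1 = i by omega] at this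
  have hadj : ∀ i < 2 * l, G.Adj (c.getVert i) (c.getVert (i + 1)) := fun i hi =>
    c.adj_getVert_succ (by omega)
  obtain ⟨m, hm, hmG, hmc, hmM⟩ := exists_pm_cycle M hM c.getVert l hinj hsupp
    (fun i hi => hadj _ (by omega))
  obtain ⟨m', hm', hmG', hmc', hmM'⟩ := exists_pm_cycle M hM (fun i => c.getVert (i + 1)) l hinj'
    hsupp' (fun i hi => hadj _ (by omega))
  refine ⟨m, m', hm, hmG, hm', hmG', ?_⟩
  refine kasteleyn x hm hm' l (by omega) c.getVert hinj hck hmc hmc' ?_
  intro w hw
  have hw' := (hsupp w).2 hw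
  obtain ⟨y, _, hy⟩ := hM hw'
  rw [hy _ (hmM w hw'), hy _ (hmM' w hw')]

open Classical in
theorem sum_dis_eq (x : Fin n → Fin n → ZMod 2) {v : Fin n} (c : G.Walk v v) (l : ℕ)
    (hl : c.length = 2 * l) (D : Orientation G)
    (hD : ∀ u v, G.Adj u v → (D.dir u v ↔ dis x u v = 0)) :
    ∑ i ∈ range (2 * l), dis x (c.getVert i) (c.getVert (i + 1)) =
      ((c.darts.countP fun d => D.dir d.fst d.snd : ℕ) : ZMod 2) := by
  rw [darts_count c (fun u v => D.dir u v), hl]
  have h : ∀ i ∈ range (2 * l), dis x (c.getVert i) (c.getVert (i + 1)) =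
      (if D.dir (c.getVert i) (c.getVert (i + 1)) then 1 else 0) + 1 := by
    intro i hi
    rw [mem_range] at hi
    have ha := c.adj_getVert_succ (i := i) (by omega)
    have := hD _ _ ha
    split_ifs with h'
    · rw [this.1 h']
      decide
    · rw [zero_add]
      exact zmod2_ne_zero.1 (fun h'' => h' (this.2 h''))
  rw [sum_congr rfl h, sum_add_distrib, sum_const, card_range, nsmul_eq_mul, mul_one]
  have : ((2 * l : ℕ) : ZMod 2) = 0 := by
    rw [ZMod.natCast_eq_zero_iff_even]
    exact even_two_mul l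
  rw [this, add_zero]

theorem pfaffian_of_lin (x : Fin n → Fin n → ZMod 2)
    (h : ∀ m, IsPM m → InG G m → cr m = lin x m) : IsPfaffian G := by
  classical
  refine ⟨ofLabel G x, ?_⟩
  intro v c hc hev hcen
  obtain ⟨l, hl⟩ := hev
  have hl' : c.length = 2 * l := by omega
  obtain ⟨m, m', hm, hmG, hm', hmG', key⟩ := central_cycle x c hc l hl' hcen
  rw [h m hm hmG, h m' hm' hmG', CharTwo.add_self_eq_zero, CharTwo.add_self_eq_zero,
    sum_dis_eq x c l hl' (ofLabel G x) (fun u v _ => Iff.rfl), add_zero] at key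
  have h11 : (1 : ZMod 2) + 1 = 0 := by decide
  have key2 : ((c.darts.countP fun d => (ofLabel G x).dir d.fst d.snd : ℕ) : ZMod 2) = 1 := by
    linear_combination -key - h11
  rw [ZMod.natCast_eq_one_iff_odd] at key2
  convert key2

open Classical in
/-- The labelling given by an orientation. -/
noncomputable def labelOf (D : Orientation G) (u v : Fin n) : ZMod 2 := if D.dir u v then 0 else 1

theorem labelOf_dis (D : Orientation G) {u v : Fin n} (h : G.Adj u v) :
    D.dir u v ↔ dis (labelOf D) u v = 0 := by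
  have h2 := D.dir_iff u v h
  have h3 : (1 : ZMod 2) + 1 = 0 := by decide
  unfold dis labelOf
  rcases lt_or_gt_of_ne h.ne with h' | h'
  · rw [if_pos h']
    split_ifs with h4
    · simp [h4]
    · simp [h4]
  · rw [if_neg h'.not_gt]
    by_cases h4 : D.dir v u
    · rw [if_pos h4]
      simp [h2, h4]
    · rw [if_neg h4]
      simp [h2, h4, h3]

/-- Number of vertices where two matchings differ. -/
def differ (m m' : Equiv.Perm (Fin n)) : ℕ := (univ.filter fun v => m v ≠ m' v).card

theorem eq_of_pfaffian (D : Orientation G) (hD : D.IsPfaffian) (m m' : Equiv.Perm (Fin n))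
    (hm : IsPM m) (hmG : InG G m) (hm' : IsPM m') (hmG' : InG G m') :
    cr m + lin (labelOf D) m = cr m' + lin (labelOf D) m' := by
  classical
  induction hN : differ m m' using Nat.strong_induction_on generalizing m with
  | _ N ih =>
  by_cases hmm : m = m'
  · rw [hmm]
  obtain ⟨v0, hv0⟩ : ∃ v, m v ≠ m' v := by
    by_contra hcon
    push Not at hcon
    exact hmm (Equiv.ext hcon)
  set σ : Fin n → Fin n := fun v => m' (m v) with hσ
  set σ' : Fin n → Fin n := fun v => m (m' v) with hσ'
  have hσσ' : ∀ v, σ (σ' v) = v := fun v => by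
    simp only [hσ, hσ', (hm _).2, (hm' _).2]
  have hσ'σ : ∀ v, σ' (σ v) = v := fun v => by
    simp only [hσ, hσ', (hm _).2, (hm' _).2]
  have hσinj : Function.Injective σ := fun a b h => by rw [← hσ'σ a, ← hσ'σ b, h]
  set l := Function.minimalPeriod σ v0 with hl
  have hper : v0 ∈ Function.periodicPts σ := by
    exact Function.Injective.mem_periodicPts hσinj v0
  have hlpos : 0 < l := Function.minimalPeriod_pos_of_mem_periodicPts hper
  have hσl : σ^[l] v0 = v0 := Function.iterate_minimalPeriod
  have hl2 : 2 ≤ l := by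
    by_contra hcon
    have h1 : l = 1 := by omega
    rw [h1, Function.iterate_one] at hσl
    apply hv0
    have : m' (m' (m v0)) = m' v0 := by rw [show m' (m v0) = v0 from hσl]
    rw [(hm' _).2] at this
    exact this
  -- injectivity of the even part
  have hinjE : ∀ i < l, ∀ j < l, σ^[i] v0 = σ^[j] v0 → i = j := by
    intro i hi j hj h
    exact (Function.iterate_injOn_Iio_minimalPeriod (f := σ) (x := v0)) hi hj h
  have hmσ : ∀ j v, m (σ^[j] v) = σ'^[j] (m v) := by
    intro j
    induction j with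
    | zero => intro v; rfl
    | succ j ihj =>
      intro v
      rw [Function.iterate_succ_apply', Function.iterate_succ_apply', ← ihj]
  have hσ'it : ∀ j v, σ^[j] (σ'^[j] v) = v := by
    intro j
    exact (Function.LeftInverse.iterate hσσ' j)
  have hEO : ∀ i j, σ^[i] v0 ≠ m (σ^[j] v0) := by
    intro i j h
    rw [hmσ] at h
    have h1 : σ^[i + j] v0 = m v0 := by
      rw [add_comm, Function.iterate_add_apply, h, hσ'it]
    rcases Nat.even_or_odd' (i + j) with ⟨r, hr | hr⟩
    · rw [hr, two_mul, Function.iterate_add_apply] at h1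
      have h2 : σ'^[r] (σ^[r] (σ^[r] v0)) = σ'^[r] (m v0) := by rw [h1]
      rw [(Function.LeftInverse.iterate hσ'σ r) _, ← hmσ] at h2
      exact (hm _).1 h2.symm
    · rw [hr, show 2 * r + 1 = r + (r + 1) by ring, Function.iterate_add_apply] at h1
      have h2 : σ'^[r] (σ^[r] (σ^[r + 1] v0)) = σ'^[r] (m v0) := by rw [h1]
      rw [(Function.LeftInverse.iterate hσ'σ r) _, ← hmσ, Function.iterate_succ_apply'] at h2
      exact (hm' _).1 h2
  set c : ℕ → Fin n := fun i => if i % 2 = 0 then σ^[i / 2] v0 else m (σ^[i / 2] v0) with hc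
  have hc0 : ∀ i, c (2 * i) = σ^[i] v0 := by
    intro i
    simp [hc]
  have hc1 : ∀ i, c (2 * i + 1) = m (σ^[i] v0) := by
    intro i
    have h1 : (2 * i + 1) % 2 = 1 := by omega
    have h2 : (2 * i + 1) / 2 = i := by omega
    simp only [hc, h1, h2]
    simp
  have hinj : ∀ i < 2 * l, ∀ j < 2 * l, c i = c j → i = j := by
    intro i hi j hj h
    obtain ⟨i', rfl | rfl⟩ : ∃ j, i = 2 * j ∨ i = 2 * j + 1 := ⟨i / 2, by omega⟩ <;>
    obtain ⟨j', rfl | rfl⟩ : ∃ i, j = 2 * i ∨ j = 2 * i + 1 := ⟨j / 2, by omega⟩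
    · rw [hc0, hc0] at h
      rw [hinjE _ (by omega) _ (by omega) h]
    · rw [hc0, hc1] at h
      exact absurd h (hEO _ _)
    · rw [hc0, hc1] at h
      exact absurd h.symm (hEO _ _)
    · rw [hc1, hc1] at h
      rw [hinjE _ (by omega) _ (by omega) (m.injective h)]
  have hck : c (2 * l) = c 0 := by
    rw [hc0, hσl]
    exact (hc0 0).symm
  have hm'c : ∀ i, m' (c (2 * i + 1)) = c (2 * i + 2) := by
    intro i
    rw [show 2 * i + 2 = 2 * (i + 1) by ring, hc0, hc1, Function.iterate_succ_apply']
  have hmc : ∀ i, m (c (2 * i)) = c (2 * i + 1) := by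
    intro i
    rw [hc0, hc1]
  have hadj : ∀ i < 2 * l, G.Adj (c i) (c (i + 1)) := by
    intro i _
    obtain ⟨j, rfl | rfl⟩ : ∃ j, i = 2 * j ∨ i = 2 * j + 1 := ⟨i / 2, by omega⟩
    · rw [← hmc]; exact hmG _
    · rw [← hm'c]; exact hmG' _
  obtain ⟨w, hw, hwl, hwv⟩ := exists_cycle c (2 * l) (by omega) hadj hinj hck
  -- closedness of the cycle
  set C : Finset (Fin n) := (range (2 * l)).image c with hC
  have hCmem : ∀ v, v ∉ C ↔ ∀ i < 2 * l, c i ≠ v := by
    intro v
    simp [hC]
  have hmem : ∀ i ≤ 2 * l, c i ∈ C := by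
    intro i hi
    rcases Nat.lt_or_ge i (2 * l) with h | h
    · exact mem_image_of_mem _ (mem_range.2 h)
    · obtain rfl : i = 2 * l := by omega
      rw [hck]
      exact mem_image_of_mem _ (mem_range.2 (by omega))
  have hCm : ∀ v, v ∈ C → m v ∈ C := by
    intro v hv
    obtain ⟨i, hi, rfl⟩ := mem_image.1 hv
    rw [mem_range] at hi
    obtain ⟨j, rfl | rfl⟩ : ∃ j, i = 2 * j ∨ i = 2 * j + 1 := ⟨i / 2, by omega⟩
    · rw [hmc]; exact hmem _ (by omega)
    · rw [← hmc, (hm _).2]; exact hmem _ (by omega)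
  have hCm' : ∀ v, v ∈ C → m' v ∈ C := by
    intro v hv
    obtain ⟨i, hi, rfl⟩ := mem_image.1 hv
    rw [mem_range] at hi
    obtain ⟨j, rfl | rfl⟩ : ∃ j, i = 2 * j ∨ i = 2 * j + 1 := ⟨i / 2, by omega⟩
    · rcases Nat.eq_zero_or_pos j with h | h
      · subst h
        rw [mul_zero, ← hck, show 2 * l = 2 * (l - 1) + 2 by omega, ← hm'c, (hm' _).2]
        exact hmem _ (by omega)
      · rw [show 2 * j = 2 * (j - 1) + 2 by omega, ← hm'c, (hm' _).2]
        exact hmem _ (by omega)
    · rw [hm'c]; exact hmem _ (by omega)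
  have hCmn : ∀ v, v ∉ C → m v ∉ C := fun v hv h => hv (by
    have := hCm _ h
    rwa [(hm v).2] at this)
  -- the switched matching
  set f : Fin n → Fin n := fun v => if v ∈ C then m' v else m v with hf
  have hff : ∀ v, f (f v) = v := by
    intro v
    simp only [hf]
    by_cases hv : v ∈ C
    · rw [if_pos hv, if_pos (hCm' v hv), (hm' v).2]
    · rw [if_neg hv, if_neg (hCmn v hv), (hm v).2]
  set m1 : Equiv.Perm (Fin n) := ⟨f, f, hff, hff⟩ with hm1
  have hm1v : ∀ v, m1 v = f v := fun _ => rfl
  have hm1P : IsPM m1 := by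
    intro v
    refine ⟨?_, hff v⟩
    rw [hm1v]
    simp only [hf]
    split_ifs
    · exact (hm' v).1
    · exact (hm v).1
  have hm1G : InG G m1 := by
    intro v
    rw [hm1v]
    simp only [hf]
    split_ifs
    · exact hmG' v
    · exact hmG v
  -- centrality
  have hcen : Central G w := by
    refine ⟨⟨{u | u ∉ w.support}, fun u v => u ∉ C ∧ v = m u, ?_, ?_, ?_⟩, ?_, rfl⟩
    · rintro u v ⟨_, rfl⟩
      exact hmG u
    · rintro u v ⟨hu, rfl⟩
      rw [Set.mem_ofPred_eq, SimpleGraph.Walk.mem_support_iff_exists_getVert]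
      rintro ⟨i, hi, hil⟩
      rw [hwl] at hil
      rw [hwv i hil] at hi
      exact hu (hi ▸ hmem i hil)
    · refine ⟨?_⟩
      rintro u v ⟨hu, rfl⟩
      exact ⟨hCmn u hu, ((hm u).2).symm⟩
    · intro u hu
      have huC : u ∉ C := by
        intro huC
        apply hu
        obtain ⟨i, hi, rfl⟩ := mem_image.1 huC
        rw [mem_range] at hi
        rw [SimpleGraph.Walk.mem_support_iff_exists_getVert]
        exact ⟨i, hwv i hi.le, by omega⟩
      exact ⟨m u, ⟨huC, rfl⟩, fun y hy => hy.2⟩
  have hodd := hD _ w hw (by rw [hwl]; exact even_two_mul l) hcen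
  have hsum := sum_dis_eq (labelOf D) w l hwl D (fun u v h => labelOf_dis D h)
  have key := kasteleyn (labelOf D) hm hm1P l (by omega) c hinj hck (fun i _ => hmc i)
    (fun i hi => by
      rw [hm1v]
      simp only [hf]
      rw [if_pos (hmem _ (by omega)), hm'c]) (fun v hv => by
      rw [hm1v]
      simp only [hf]
      rw [if_neg ((hCmem v).2 hv)])
  have hsum2 : ∑ i ∈ range (2 * l), dis (labelOf D) (c i) (c (i + 1)) = 1 := by
    rw [← ZMod.natCast_eq_one_iff_odd] at hodd
    rw [← hodd, ← hsum]
    refine sum_congr rfl fun i hi => ?_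
    rw [mem_range] at hi
    rw [hwv i (by omega), hwv (i + 1) (by omega)]
  rw [hsum2] at key
  have h11 : (1 : ZMod 2) + 1 = 0 := by decide
  have h2 : (2 : ZMod 2) = 0 := by decide
  have hstep : cr m + lin (labelOf D) m = cr m1 + lin (labelOf D) m1 := by
    linear_combination key + h11 - (cr m1 + lin (labelOf D) m1) * h2
  rw [hstep]
  refine ih (differ m1 m') ?_ m1 hm1P hm1G rfl
  rw [← hN]
  unfold differ
  apply card_lt_card
  rw [ssubset_iff_of_subset]
  · refine ⟨v0, by simp [hv0], ?_⟩
    rw [mem_filter, hm1v]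
    simp only [hf]
    have : v0 ∈ C := by
      have := hmem 0 (by omega)
      rwa [show c 0 = v0 from hc0 0] at this
    rw [if_pos this]
    simp
  · intro v hv
    rw [mem_filter, hm1v] at hv
    rw [mem_filter]
    refine ⟨mem_univ v, ?_⟩
    intro h
    apply hv.2
    simp only [hf]
    split_ifs
    · rfl
    · exact h

/-- Pfaffian graphs are those whose crossing parities are linear. -/
theorem pfaffian_iff : IsPfaffian G ↔
    ∃ x : Fin n → Fin n → ZMod 2, ∀ m, IsPM m → InG G m → cr m = lin x m := by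
  constructor
  · rintro ⟨D, hD⟩
    by_cases hex : ∃ m0, IsPM m0 ∧ InG G m0
    · obtain ⟨m0, hm0, hmG0⟩ := hex
      rcases Nat.eq_zero_or_pos n with hn | hn
      · subst hn
        refine ⟨fun _ _ => 0, fun m _ _ => ?_⟩
        simp [cr, lin]
      · set t := cr m0 + lin (labelOf D) m0 with ht
        have key : ∀ m, IsPM m → InG G m → cr m + lin (labelOf D) m = t := fun m hm hmG =>
          eq_of_pfaffian D hD m m0 hm hmG hm0 hmG0
        refine ⟨fun u v => labelOf D u v + if u = ⟨0, hn⟩ then t else 0, fun m hm hmG => ?_⟩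
        have h1 := key m hm hmG
        have h2 : lin (fun u v => labelOf D u v + if u = ⟨0, hn⟩ then t else 0) m =
            lin (labelOf D) m + t := by
          unfold lin
          have : ∀ v : Fin n, (if v < m v then labelOf D v (m v) + (if v = ⟨0, hn⟩ then t else 0)
              else 0) = (if v < m v then labelOf D v (m v) else 0) +
              (if v = ⟨0, hn⟩ then t else 0) := by
            intro v
            by_cases hv : v = ⟨0, hn⟩
            · have : v < m v := by
                refine lt_of_le_of_ne ?_ (hm v).1.symm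
                rw [hv, Fin.le_def]
                exact Nat.zero_le _
              simp [this]
            · simp [hv]
          rw [sum_congr rfl fun v _ => this v, sum_add_distrib]
          simp
        rw [h2, ← h1]
        have h20 : (2 : ZMod 2) = 0 := by decide
        linear_combination -(lin (labelOf D) m) * h20
    · exact ⟨fun _ _ => 0, fun m hm hmG => absurd ⟨m, hm, hmG⟩ hex⟩
  · rintro ⟨x, hx⟩
    exact pfaffian_of_lin x hx

end Pool.Agent.Lib.MP_0c183c_co
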