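import Pool.Agent.Lib.MP_0c183c_co.Rules

/-! # The program -/

namespace Pool.Agent.Lib.MP_0c183c_co

open Pool.Agent.Lib.PolyTM

/-- Index variables. -/
inductive Va
  | u | v | w | i | j | k | l | r | z
  | p (t : Fin 4)
  | q (t : Fin 4)
  deriving DecidableEq, Fintype

/-- Arrays: adjacency matrix, random bits, weighted adjacency matrix, current matrix, iterate of
Bird's algorithm, auxiliary matrix, multiplicand, edge polynomials, crossing polynomial, pivot row,
and three flags. -/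
inductive Wa
  | g | rnd | y | B | X | Z | Q | F | S | R
  | fl (t : Fin 3)
  deriving DecidableEq, Fintype

def ar : Wa → ℕ
  | .g => 2
  | .rnd => 5
  | .y => 6
  | .B => 6
  | .X => 6
  | .Z => 6
  | .Q => 4
  | .F => 6
  | .S => 4
  | .R => 4
  | .fl _ => 0

abbrev FF := Fml Va Wa
abbrev SS := Stmt Va Wa

def qs : List Va := [.q 0, .q 1, .q 2, .q 3]
def ps : List Va := [.p 0, .p 1, .p 2, .p 3]

def tru : FF := Fml.tt (.arr (.fl 0) [])
def fls : FF := Fml.ff (.arr (.fl 0) [])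

/-- The entries of the weighted adjacency matrix: only the lowest `N ^ 3` coefficients of the entry
`(u, v)` can be nonzero; they are the random bits for the edge `uv`. -/
def yF : FF := .and (.arr .g [.u, .v]) (.and (.not (.ex .z (Fml.lt .z (.q 0))))
  (Fml.or (.and (Fml.lt .u .v) (.arr .rnd [.u, .v, .q 1, .q 2, .q 3]))
    (.and (Fml.lt .v .u) (.arr .rnd [.v, .u, .q 1, .q 2, .q 3]))))

/-- The weighted adjacency matrix. -/
def initY : SS := fill .y ([.u, .v] ++ qs) yF

/-- Multiplication of `Q` by the variable. -/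
def shiftQ : SS := .seq (.wr (.fl 1) [] fls) (loops qs
  (.seq (.wr (.fl 0) [] (.arr .Q qs)) (.seq (.wr .Q qs (.arr (.fl 1) [])) (.wr (.fl 1) [] (.arr (.fl 0) [])))))

/-- `X[u,v] += Z[u,w] * B[w,v]`. -/
def mac : SS := .seq (loops qs (.wr .Q ([] ++ qs) (.arr .B ([.w, .v] ++ qs))))
  (loops ps (.seq (.ite (.fml (.arr .Z ([.u, .w] ++ ps)))
    (loops qs (.wr .X ([.u, .v] ++ qs) (xr (.arr .X ([.u, .v] ++ qs)) (.arr .Q qs)))) .skip)
    shiftQ))

/-- `Z` becomes the strict upper part of `X`. -/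
def zfill : SS := fill .Z ([.u, .v] ++ qs) (.and (Fml.lt .u .v) (.arr .X ([.u, .v] ++ qs)))

/-- The diagonal of `Z`. -/
def zdiag : SS := .loop .u (.loop .w (.ite (.fml (Fml.lt .u .w))
  (loops qs (.wr .Z ([.u, .u] ++ qs) (xr (.arr .Z ([.u, .u] ++ qs)) (.arr .X ([.w, .w] ++ qs)))))
  .skip))

/-- `X = Z * B`. -/
def mul : SS := loops [.u, .v] (.seq (loops qs (.wr .X ([.u, .v] ++ qs) fls)) (.loop .w mac))

/-- One step of Bird's algorithm. -/
def step : SS := .seq zfill (.seq zdiag mul)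

/-- Bird's algorithm. -/
def det : SS := .seq (fill .X ([.u, .v] ++ qs) (.arr .B ([.u, .v] ++ qs)))
  (.loop .r (.ite (.fml (.ex .z (Fml.lt .r .z))) step .skip))

/-- The entry `X[0,0]`. -/
def x00 : FF := .ex .z (.and (.not (.ex .w (Fml.lt .w .z))) (.arr .X ([.z, .z] ++ qs)))

/-- `x` belongs to `{a, b}` iff `y` does. -/
def msk (a b : Va) : FF :=
  let φ : FF := Fml.or (Fml.eq .u a) (Fml.eq .u b)
  let ψ : FF := Fml.or (Fml.eq .v a) (Fml.eq .v b)
  Fml.or (.and φ ψ) (.and (.not φ) (.not ψ))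

/-- The edge polynomials. -/
def edges : SS := loops [.i, .k] (.ite (.fml (Fml.lt .i .k))
  (.seq (fill .B ([.u, .v] ++ qs) (.and (msk .i .k) (.arr .y ([.u, .v] ++ qs))))
    (.seq det (loops qs (.wr .F ([.i, .k] ++ qs) x00)))) .skip)

/-- The crossing polynomial. -/
def cross : SS := loops [.i, .j, .k, .l] (.ite
  (.fml (.and (Fml.lt .i .j) (.and (Fml.lt .j .k) (Fml.lt .k .l))))
  (.seq (fill .B ([.u, .v] ++ qs) (.and (msk .i .k) (.and (msk .j .l) (.arr .y ([.u, .v] ++ qs)))))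
    (.seq det (loops qs (.wr .S ([] ++ qs) (xr (.arr .S ([] ++ qs)) x00))))) .skip)

/-- Search for a pivot row. -/
def pivot : SS := .seq (.wr (.fl 2) [] fls) (loops [.i, .k]
  (.ite (.fml (.and (.not (.arr (.fl 2) [])) (.arr .F ([.i, .k] ++ ps))))
    (.seq (.wr (.fl 2) [] tru) (loops qs (.wr .R ([] ++ qs) (.arr .F ([.i, .k] ++ qs))))) .skip))

/-- Elimination with the pivot row. -/
def elim : SS := .seq (loops [.i, .k] (.ite (.fml (.arr .F ([.i, .k] ++ ps)))
    (loops qs (.wr .F ([.i, .k] ++ qs) (xr (.arr .F ([.i, .k] ++ qs)) (.arr .R qs)))) .skip))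
  (.ite (.fml (.arr .S ps)) (loops qs (.wr .S ([] ++ qs) (xr (.arr .S ([] ++ qs)) (.arr .R qs))))
    .skip)

/-- Gaussian elimination. -/
def gauss : SS := loops ps (.seq pivot (.ite (.fml (.arr (.fl 2) [])) elim .skip))

/-- The whole program. -/
def prog : SS := .seq initY (.seq edges (.seq cross (.seq gauss
  (.emit (.not (.ex (.q 0) (.ex (.q 1) (.ex (.q 2) (.ex (.q 3) (.arr .S qs))))))))))

theorem prog_wf : prog.wf ar [] = true := by decide +kernel

end Pool.Agent.Lib.MP_0c183c_co
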