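import Pool.Agent.Lib.PolyTM.Rules

/-! # More proof rules for programs of the array language -/

namespace Pool.Agent.Lib.MP_0c183c_co

open Pool.Agent.Lib.PolyTM Function

set_option linter.unusedSectionVars false

variable {V W : Type} [DecidableEq V] [DecidableEq W] {N : ℕ}

/-- The `k` digits of `m` in base `N`. -/
def dec (N : ℕ) : ℕ → ℕ → List ℕ
  | 0, _ => []
  | k + 1, m => (m / N ^ k) :: dec N k (m % N ^ k)

theorem dec_length (k m : ℕ) : (dec N k m).length = k := by
  induction k generalizing m with
  | zero => rfl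
  | succ k ih => simp [dec, ih]

theorem dec_ok {k m : ℕ} (h : m < N ^ k) : OKt N k (dec N k m) := by
  refine ⟨dec_length k m, ?_⟩
  induction k generalizing m with
  | zero => intro t ht; simp [dec] at ht
  | succ k ih =>
    intro t ht
    have hpos : 0 < N ^ k := by
      rcases Nat.eq_zero_or_pos (N ^ k) with h0 | h0
      · rw [pow_succ, h0, zero_mul] at h
        omega
      · exact h0
    simp only [dec, List.mem_cons] at ht
    rcases ht with rfl | ht
    · rw [Nat.div_lt_iff_lt_mul hpos, mul_comm]
      rwa [pow_succ] at h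
    · exact ih (Nat.mod_lt _ hpos) t ht

theorem enc_dec {k m : ℕ} (h : m < N ^ k) : enc N (dec N k m) = m := by
  induction k generalizing m with
  | zero =>
    simp only [pow_zero, Nat.lt_one_iff] at h
    simp [dec, enc, h]
  | succ k ih =>
    have hpos : 0 < N ^ k := by
      rcases Nat.eq_zero_or_pos (N ^ k) with h0 | h0
      · rw [pow_succ, h0, zero_mul] at h
        omega
      · exact h0
    simp only [dec, enc, dec_length]
    rw [ih (Nat.mod_lt _ hpos)]
    exact Nat.div_add_mod' m (N ^ k)

theorem dec_enc {k : ℕ} {ts : List ℕ} (h : OKt N k ts) : dec N k (enc N ts) = ts := by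
  have hlt : enc N ts < N ^ k := by
    have := enc_lt h.2
    rwa [h.1] at this
  exact enc_inj (by rw [dec_length, h.1]) (dec_ok hlt).2 h.2 (enc_dec hlt)

theorem enc_lt' {k : ℕ} {ts : List ℕ} (h : OKt N k ts) : enc N ts < N ^ k := by
  have := enc_lt h.2
  rwa [h.1] at this

theorem dec_succ {k t m : ℕ} (hm : m < N ^ k) : dec N (k + 1) (t * N ^ k + m) = t :: dec N k m := by
  have hpos : 0 < N ^ k := by omega
  simp only [dec]
  rw [Nat.mul_comm t, Nat.mul_add_div hpos, Nat.div_eq_of_lt hm, add_zero, Nat.mul_add_mod,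
    Nat.mod_eq_of_lt hm]

/-- Numeric rule for nested loops. -/
theorem run_num {xs : List V} {s : Stmt V W} {e : V → ℕ} (I : ℕ → AS W → Prop)
    (h : ∀ m < N ^ xs.length, ∀ σ, I m σ → I (m + 1) (s.run N (upds e xs (dec N xs.length m)) σ))
    {σ : AS W} (h0 : I 0 σ) : I (N ^ xs.length) ((loops xs s).run N e σ) := by
  induction xs generalizing e I σ with
  | nil =>
    have := h 0 (by simp) σ h0
    simp only [List.length_nil, pow_zero]
    exact this
  | cons x xs ih =>
    have key := run_loop (N := N) (x := x) (s := loops xs s) (e := e)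
      (fun t σ => I (t * N ^ xs.length) σ)
      (by
        intro t ht σ hσ
        have := ih (e := update e x t) (I := fun m => I (t * N ^ xs.length + m))
          (by
            intro m hm σ hσ
            have hlt : t * N ^ xs.length + m < N ^ (x :: xs).length := by
              rw [List.length_cons, pow_succ]
              have : (t + 1) * N ^ xs.length ≤ N * N ^ xs.length := Nat.mul_le_mul_right _ ht
              nlinarith
            have h2 := h (t * N ^ xs.length + m) hlt σ hσ
            rw [List.length_cons, dec_succ hm] at h2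
            exact h2)
          (σ := σ) (by simpa using hσ)
        rw [show (t + 1) * N ^ xs.length = t * N ^ xs.length + N ^ xs.length by ring]
        exact this)
      (σ := σ) (by simpa using h0)
    rw [List.length_cons, pow_succ, mul_comm]
    exact key

/-- Arrays modified by a statement. -/
def mods : Stmt V W → List W
  | .wr w _ _ => [w]
  | .seq s t => mods s ++ mods t
  | .ite _ s t => mods s ++ mods t
  | .loop _ s => mods s
  | .emit _ => []
  | .skip => []

/-- No output. -/
def quiet : Stmt V W → Bool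
  | .wr _ _ _ => true
  | .seq s t => quiet s && quiet t
  | .ite _ s t => quiet s && quiet t
  | .loop _ s => quiet s
  | .emit _ => false
  | .skip => true

theorem run_mods (s : Stmt V W) (w : W) (hw : w ∉ mods s) (e : V → ℕ) (σ : AS W) :
    (s.run N e σ).a w = σ.a w := by
  induction s generalizing e σ with
  | wr w' xs φ =>
    simp only [mods, List.mem_singleton] at hw
    simp only [Stmt.run, update_of_ne hw]
  | seq s t ih1 ih2 =>
    simp only [mods, List.mem_append, not_or] at hw
    simp only [Stmt.run]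
    rw [ih2 hw.2, ih1 hw.1]
  | ite c s t ih1 ih2 =>
    simp only [mods, List.mem_append, not_or] at hw
    simp only [Stmt.run]
    split
    · exact ih1 hw.1 _ _
    · exact ih2 hw.2 _ _
  | loop x s ih =>
    exact run_loop (N := N) (x := x) (s := s) (e := e) (fun _ σ' => σ'.a w = σ.a w)
      (fun t _ σ' h => by rw [ih hw, h]) rfl
  | emit φ => rfl
  | skip => rfl

theorem run_quiet (s : Stmt V W) (hs : quiet s = true) (e : V → ℕ) (σ : AS W) :
    (s.run N e σ).o = σ.o := by
  induction s generalizing e σ with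
  | wr w' xs φ => rfl
  | seq s t ih1 ih2 =>
    simp only [quiet, Bool.and_eq_true] at hs
    simp only [Stmt.run]
    rw [ih2 hs.2, ih1 hs.1]
  | ite c s t ih1 ih2 =>
    simp only [quiet, Bool.and_eq_true] at hs
    simp only [Stmt.run]
    split
    · exact ih1 hs.1 _ _
    · exact ih2 hs.2 _ _
  | loop x s ih =>
    exact run_loop (N := N) (x := x) (s := s) (e := e) (fun _ σ' => σ'.o = σ.o)
      (fun t _ σ' h => by rw [ih hs, h]) rfl
  | emit φ => simp [quiet] at hs
  | skip => rfl

theorem mods_loops (xs : List V) (s : Stmt V W) : mods (loops xs s) = mods s := by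
  induction xs with
  | nil => rfl
  | cons x xs ih => simp [loops, mods, ih]

theorem quiet_loops (xs : List V) (s : Stmt V W) : quiet (loops xs s) = quiet s := by
  induction xs with
  | nil => rfl
  | cons x xs ih => simp [loops, quiet, ih]

/-- Assignment of a block of cells, each depending only on its own old value and on other
arrays. -/
theorem run_cells (w : W) (xs0 xs : List V) (φ : Fml V W) (hnd : xs.Nodup)
    (hdisj : ∀ x ∈ xs0, x ∉ xs) (e : V → ℕ) (σ : AS W)
    (hloc : ∀ ts, OKt N xs.length ts → ∀ a' : Arr W, (∀ w', w' ≠ w → a' w' = σ.a w') →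
      a' w (xs0.map e ++ ts) = σ.a w (xs0.map e ++ ts) →
      φ.eval N a' (upds e xs ts) = φ.eval N σ.a (upds e xs ts)) :
    (∀ ts, OKt N xs.length ts → ((loops xs (.wr w (xs0 ++ xs) φ)).run N e σ).a w
      (xs0.map e ++ ts) = φ.eval N σ.a (upds e xs ts)) ∧
    (∀ l, (∀ ts, OKt N xs.length ts → l ≠ xs0.map e ++ ts) →
      ((loops xs (.wr w (xs0 ++ xs) φ)).run N e σ).a w l = σ.a w l) := by
  have hidx : ∀ ts, OKt N xs.length ts →
      (xs0 ++ xs).map (upds e xs ts) = xs0.map e ++ ts := by
    intro ts hts
    rw [List.map_append, upds_map e xs hnd ts hts.1, map_upds_of_disj e xs xs0 ts hdisj]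
  have key := run_num (N := N) (xs := xs) (s := Stmt.wr w (xs0 ++ xs) φ) (e := e)
    (fun m σ' => (∀ w', w' ≠ w → σ'.a w' = σ.a w') ∧
      (∀ ts, OKt N xs.length ts → enc N ts < m →
        σ'.a w (xs0.map e ++ ts) = φ.eval N σ.a (upds e xs ts)) ∧
      (∀ ts, OKt N xs.length ts → m ≤ enc N ts →
        σ'.a w (xs0.map e ++ ts) = σ.a w (xs0.map e ++ ts)) ∧
      (∀ l, (∀ ts, OKt N xs.length ts → l ≠ xs0.map e ++ ts) → σ'.a w l = σ.a w l))
    (by
      intro m hm σ' ⟨i1, i2, i3, i4⟩
      have hd := dec_ok hm
      refine ⟨fun w' hw' => ?_, fun ts hts hlt => ?_, fun ts hts hlt => ?_, fun l hl => ?_⟩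
      · simp only [Stmt.run, update_of_ne hw']
        exact i1 w' hw'
      · simp only [Stmt.run, update_self, hidx _ hd]
        by_cases h : ts = dec N xs.length m
        · rw [← h, update_self]
          refine hloc ts hts σ'.a i1 (i3 ts hts ?_)
          rw [h, enc_dec hm]
        · rw [update_of_ne (fun hc => h (List.append_cancel_left hc))]
          refine i2 ts hts ?_
          have : enc N ts ≠ m := by
            intro h'
            apply h
            rw [← h', dec_enc hts]
          omega
      · have h : ts ≠ dec N xs.length m := by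
          intro h
          rw [h, enc_dec hm] at hlt
          omega
        simp only [Stmt.run, update_self, hidx _ hd]
        rw [update_of_ne (fun hc => h (List.append_cancel_left hc))]
        exact i3 ts hts (by omega)
      · simp only [Stmt.run, update_self, hidx _ hd, update_of_ne (hl _ hd)]
        exact i4 l hl)
    (σ := σ) ⟨fun _ _ => rfl, fun ts _ h => absurd h (Nat.not_lt_zero _), fun _ _ _ => rfl,
      fun _ _ => rfl⟩
  exact ⟨fun ts hts => key.2.1 ts hts (enc_lt' hts), key.2.2.2⟩

/-- Exclusive or. -/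
def xr (φ ψ : Fml V W) : Fml V W := .or (.and φ (.not ψ)) (.and (.not φ) ψ)

theorem eval_xr (a : Arr W) (e : V → ℕ) (φ ψ : Fml V W) :
    (xr φ ψ).eval N a e = xor (φ.eval N a e) (ψ.eval N a e) := by
  simp only [xr, Fml.or, Fml.eval]
  cases φ.eval N a e <;> cases ψ.eval N a e <;> rfl

/-- Adding to a block. -/
theorem run_xor (w : W) (xs0 xs : List V) (ψ : Fml V W) (hnd : xs.Nodup)
    (hdisj : ∀ x ∈ xs0, x ∉ xs) (hu : w ∉ ψ.uses) (e : V → ℕ) (σ : AS W) :
    (∀ ts, OKt N xs.length ts →
      ((loops xs (.wr w (xs0 ++ xs) (xr (.arr w (xs0 ++ xs)) ψ))).run N e σ).a w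
      (xs0.map e ++ ts) = xor (σ.a w (xs0.map e ++ ts)) (ψ.eval N σ.a (upds e xs ts))) ∧
    (∀ l, (∀ ts, OKt N xs.length ts → l ≠ xs0.map e ++ ts) →
      ((loops xs (.wr w (xs0 ++ xs) (xr (.arr w (xs0 ++ xs)) ψ))).run N e σ).a w l = σ.a w l) := by
  have hidx : ∀ ts, OKt N xs.length ts →
      (xs0 ++ xs).map (upds e xs ts) = xs0.map e ++ ts := by
    intro ts hts
    rw [List.map_append, upds_map e xs hnd ts hts.1, map_upds_of_disj e xs xs0 ts hdisj]
  obtain ⟨h1, h2⟩ := run_cells (N := N) w xs0 xs (xr (.arr w (xs0 ++ xs)) ψ) hnd hdisj e σ (by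
    intro ts hts a' h1 h2
    rw [eval_xr, eval_xr]
    simp only [Fml.eval, hidx ts hts, h2]
    congr 1
    exact Fml.eval_congr ψ (fun w' hw' => h1 w' (fun h => hu (h ▸ hw'))) _)
  refine ⟨fun ts hts => ?_, h2⟩
  rw [h1 ts hts, eval_xr]
  simp only [Fml.eval, hidx ts hts]

end Pool.Agent.Lib.MP_0c183c_co
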