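import Pool.Agent.Lib.MP_0c183c_co.SpecMac
import Pool.Agent.Lib.MP_0c183c_co.Bird

/-! # Specification of the determinant program -/

namespace Pool.Agent.Lib.MP_0c183c_co

open Pool.Agent.Lib.PolyTM Function Finset

set_option linter.unusedSimpArgs false

variable {N : ℕ} {A : Type} [CommRing A] [CharP A 2] (x : A)

/-- The matrix stored in an array. -/
def MW (N : ℕ) (x : A) (a : Arr Wa) (w : Wa) : Matrix (Fin N) (Fin N) A :=
  fun u v => qv x (N ^ 4) (blk N a w [u, v])

omit [CharP A 2] in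
theorem MW_congr {a a' : Arr Wa} {w : Wa} (h : a w = a' w) : MW N x a w = MW N x a' w := by
  unfold MW blk
  rw [h]

theorem prefix_ne {pre pre' ts ts' : List ℕ} (hl : pre.length = pre'.length) (h : pre ≠ pre') :
    pre ++ ts ≠ pre' ++ ts' := fun he => h (List.append_inj he hl).1

/-- Body of the matrix multiplication. -/
theorem mulBody_spec (hx : x ^ (N ^ 4) = 0) (e : Va → ℕ) (σ : AS Wa) :
    qv x (N ^ 4) (blk N ((Stmt.seq (loops qs (.wr .X ([.u, .v] ++ qs) fls))
      (.loop .w mac)).run N e σ).a .X [e .u, e .v]) =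
        ∑ w ∈ range N, qv x (N ^ 4) (blk N σ.a .Z [e .u, w]) *
          qv x (N ^ 4) (blk N σ.a .B [w, e .v]) ∧
      ∀ l, (∀ ts, OKt N 4 ts → l ≠ [e .u, e .v] ++ ts) →
        ((Stmt.seq (loops qs (.wr .X ([.u, .v] ++ qs) fls)) (.loop .w mac)).run N e σ).a .X l =
          σ.a .X l := by
  have hseq : (Stmt.seq (loops qs (.wr .X ([.u, .v] ++ qs) fls)) (.loop .w mac)).run N e σ =
    (Stmt.loop .w mac).run N e ((loops qs (.wr .X ([.u, .v] ++ qs) fls)).run N e σ) := rfl
  rw [hseq]
  set σ1 := (loops qs (.wr .X ([.u, .v] ++ qs) fls)).run N e σ with hσ1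
  obtain ⟨_, h1, h2, h3⟩ := run_block (N := N) .X [.u, .v] qs fls qs_nodup (by decide)
    (by simp [fls, Fml.ff, Fml.uses]) e σ
  rw [← hσ1] at h1 h2 h3
  simp only [List.map_cons, List.map_nil, qs_length] at h2 h3
  have hclr : qv x (N ^ 4) (blk N σ1.a .X [e .u, e .v]) = 0 := by
    refine qv_false x _ fun m hm => ?_
    unfold blk
    rw [h2 _ (dec_ok hm)]
    simp [fls, Fml.ff, Fml.eval]
  have key := run_loop (N := N) (x := Va.w) (s := mac) (e := e)
    (fun m σ' => σ'.a .Z = σ.a .Z ∧ σ'.a .B = σ.a .B ∧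
      qv x (N ^ 4) (blk N σ'.a .X [e .u, e .v]) = ∑ w ∈ range m,
        qv x (N ^ 4) (blk N σ.a .Z [e .u, w]) * qv x (N ^ 4) (blk N σ.a .B [w, e .v]) ∧
      ∀ l, (∀ ts, OKt N 4 ts → l ≠ [e .u, e .v] ++ ts) → σ'.a .X l = σ.a .X l)
    (by
      rintro m hm σ' ⟨g1, g2, g3, g4⟩
      obtain ⟨k1, k2⟩ := mac_spec x hx (update e .w m) σ'
      have eu : update e .w m .u = e .u := update_of_ne (by decide) _ _
      have ev : update e .w m .v = e .v := update_of_ne (by decide) _ _
      have ew : update e .w m .w = m := update_self _ _ _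
      rw [eu, ev, ew] at k1
      rw [eu, ev] at k2
      refine ⟨?_, ?_, ?_, ?_⟩
      · rw [run_mods _ _ (by decide), g1]
      · rw [run_mods _ _ (by decide), g2]
      · rw [k1, g3, sum_range_succ]
        congr 2
        · unfold blk; rw [g1]
        · unfold blk; rw [g2]
      · intro l hl
        rw [k2 l hl, g4 l hl])
    (σ := σ1) ⟨h1 .Z (by decide), h1 .B (by decide), by rw [hclr, range_zero, sum_empty],
      fun l hl => h3 l hl⟩
  exact ⟨key.2.2.1, key.2.2.2⟩

theorem mul_spec (hx : x ^ (N ^ 4) = 0) (e : Va → ℕ) (σ : AS Wa) :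
    MW N x (mul.run N e σ).a .X = MW N x σ.a .Z * MW N x σ.a .B := by
  have key := run_loops (N := N) (xs := [Va.u, Va.v])
    (s := Stmt.seq (loops qs (.wr .X ([.u, .v] ++ qs) fls)) (.loop .w mac)) (e := e)
    (fun σ' => σ'.a .Z = σ.a .Z ∧ σ'.a .B = σ.a .B)
    (fun ts σ' => qv x (N ^ 4) (blk N σ'.a .X ts) = ∑ w ∈ range N,
        qv x (N ^ 4) (blk N σ.a .Z [ts.getD 0 0, w]) *
          qv x (N ^ 4) (blk N σ.a .B [w, ts.getD 1 0]))
    (by
      intro ts hts σ' ⟨g1, g2⟩
      obtain ⟨u0, v0, rfl, hu0, hv0⟩ := hts.two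
      have eu : upds e [Va.u, Va.v] [u0, v0] .u = u0 := by simp [upds]
      have ev : upds e [Va.u, Va.v] [u0, v0] .v = v0 := by simp [upds]
      refine ⟨⟨?_, ?_⟩, ?_⟩
      · rw [run_mods _ _ (by decide), g1]
      · rw [run_mods _ _ (by decide), g2]
      · have := (mulBody_spec x hx (upds e [Va.u, Va.v] [u0, v0]) σ').1
        rw [eu, ev] at this
        rw [this]
        refine sum_congr rfl fun w _ => ?_
        unfold blk
        rw [g1, g2]
        rfl)
    (by
      intro ts ts' hts hts' σ' ⟨g1, g2⟩ hP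
      obtain ⟨u0, v0, rfl, hu0, hv0⟩ := hts.two
      obtain ⟨u1, v1, rfl, hu1, hv1⟩ := hts'.two
      have eu : upds e [Va.u, Va.v] [u1, v1] .u = u1 := by simp [upds]
      have ev : upds e [Va.u, Va.v] [u1, v1] .v = v1 := by simp [upds]
      have hs := mulBody_spec x hx (upds e [Va.u, Va.v] [u1, v1]) σ'
      rw [eu, ev] at hs
      by_cases h : [u0, v0] = [u1, v1]
      · rw [h, hs.1]
        refine sum_congr rfl fun w _ => ?_
        unfold blk
        rw [g1, g2]
        rfl
      · rw [← hP]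
        refine qv_congr x _ fun m hm => ?_
        unfold blk
        exact hs.2 _ (fun ts _ => prefix_ne rfl h))
    (σ := σ) ⟨rfl, rfl⟩
  ext u v
  rw [Matrix.mul_apply]
  have := key.2 [(u : ℕ), (v : ℕ)] (okt_two u.2 v.2)
  unfold MW
  change qv x (N ^ 4) (blk N (mul.run N e σ).a .X [(u : ℕ), (v : ℕ)]) = _
  unfold mul
  rw [this, ← Fin.sum_univ_eq_sum_range (fun w => qv x (N ^ 4) (blk N σ.a .Z
    [[(u : ℕ), (v : ℕ)].getD 0 0, w]) * qv x (N ^ 4) (blk N σ.a .B
      [w, [(u : ℕ), (v : ℕ)].getD 1 0])) N]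
  rfl

theorem fill6_spec (w : Wa) (φ : FF) (hu : w ∉ φ.uses) (e : Va → ℕ) (σ : AS Wa) :
    ∀ u0 v0 ts, u0 < N → v0 < N → OKt N 4 ts →
      ∃ e' : Va → ℕ, e' .u = u0 ∧ e' .v = v0 ∧ qs.map e' = ts ∧
        (∀ y, y ∉ [Va.u, .v] ++ qs → e' y = e y) ∧
        ((fill w ([.u, .v] ++ qs) φ).run N e σ).a w ([u0, v0] ++ ts) = φ.eval N σ.a e' := by
  intro u0 v0 ts hu0 hv0 hts
  obtain ⟨_, _, h⟩ := run_fill (N := N) w ([Va.u, .v] ++ qs) φ (by decide) hu e σ
  have hok : OKt N ([Va.u, .v] ++ qs).length ([u0, v0] ++ ts) := (okt_two hu0 hv0).append hts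
  obtain ⟨h1, h2⟩ := env_split e [Va.u, .v] qs (by decide) [u0, v0] ts rfl hts.1
  refine ⟨upds e ([Va.u, .v] ++ qs) ([u0, v0] ++ ts), ?_, ?_, h2, ?_, h _ hok⟩
  · simpa using congrArg (fun l => l.getD 0 0) h1
  · simpa using congrArg (fun l => l.getD 1 0) h1
  · intro y hy
    exact upds_notMem _ _ _ hy

theorem zfill_spec (e : Va → ℕ) (σ : AS Wa) (u0 v0 : ℕ) (hu0 : u0 < N) (hv0 : v0 < N) :
    qv x (N ^ 4) (blk N (zfill.run N e σ).a .Z [u0, v0]) =
      if u0 < v0 then qv x (N ^ 4) (blk N σ.a .X [u0, v0]) else 0 := by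
  have key : ∀ m < N ^ 4, blk N (zfill.run N e σ).a .Z [u0, v0] m =
      (decide (u0 < v0) && blk N σ.a .X [u0, v0] m) := by
    intro m hm
    obtain ⟨e', h1, h2, h3, _, h4⟩ := fill6_spec (N := N) .Z
      (.and (Fml.lt .u .v) (.arr .X ([.u, .v] ++ qs))) (by decide) e σ u0 v0 (dec N 4 m) hu0 hv0
      (dec_ok hm)
    unfold blk zfill
    rw [h4]
    simp only [Fml.eval, Fml.lt]
    rw [List.map_append, h3]
    simp only [List.map_cons, List.map_nil, h1, h2]
    congr 1
    by_cases h : u0 < v0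
    · simp [h]
    · simp [h, not_lt.1 h]
  split_ifs with h
  · refine qv_congr x _ fun m hm => ?_
    rw [key m hm]
    simp [h]
  · refine qv_false x _ fun m hm => ?_
    rw [key m hm]
    simp [h]

theorem zinner_spec (e : Va → ℕ) (σ : AS Wa) :
    qv x (N ^ 4) (blk N ((Stmt.loop .w (.ite (.fml (Fml.lt .u .w))
      (loops qs (.wr .Z ([.u, .u] ++ qs) (xr (.arr .Z ([.u, .u] ++ qs))
        (.arr .X ([.w, .w] ++ qs))))) .skip)).run N e σ).a .Z [e .u, e .u]) =
        qv x (N ^ 4) (blk N σ.a .Z [e .u, e .u]) +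
          ∑ w ∈ range N, (if e .u < w then qv x (N ^ 4) (blk N σ.a .X [w, w]) else 0) ∧
      ∀ l, (∀ ts, OKt N 4 ts → l ≠ [e .u, e .u] ++ ts) →
        ((Stmt.loop .w (.ite (.fml (Fml.lt .u .w))
      (loops qs (.wr .Z ([.u, .u] ++ qs) (xr (.arr .Z ([.u, .u] ++ qs))
        (.arr .X ([.w, .w] ++ qs))))) .skip)).run N e σ).a .Z l = σ.a .Z l := by
  have key := run_loop (N := N) (x := Va.w) (s := Stmt.ite (.fml (Fml.lt .u .w))
      (loops qs (.wr .Z ([.u, .u] ++ qs) (xr (.arr .Z ([.u, .u] ++ qs))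
        (.arr .X ([.w, .w] ++ qs))))) .skip) (e := e)
    (fun m σ' => σ'.a .X = σ.a .X ∧
      qv x (N ^ 4) (blk N σ'.a .Z [e .u, e .u]) = qv x (N ^ 4) (blk N σ.a .Z [e .u, e .u]) +
        ∑ w ∈ range m, (if e .u < w then qv x (N ^ 4) (blk N σ.a .X [w, w]) else 0) ∧
      ∀ l, (∀ ts, OKt N 4 ts → l ≠ [e .u, e .u] ++ ts) → σ'.a .Z l = σ.a .Z l)
    (by
      rintro m hm σ' ⟨g1, g2, g3⟩
      have eu : update e .w m .u = e .u := update_of_ne (by decide) _ _
      have ew : update e .w m .w = m := update_self _ _ _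
      have hcond : (Cond.fml (Fml.lt .u .w) : Cond Va Wa).eval N σ'.a (update e .w m) =
          decide (e .u < m) := by
        rw [Bool.eq_iff_iff, decide_eq_true_eq]
        simp only [Cond.eval]
        rw [Fml.eval_lt, eu, ew]
      simp only [Stmt.run, hcond]
      rw [sum_range_succ]
      by_cases h : e .u < m
      · rw [if_pos (by simpa using h), if_pos h]
        set σ2 := (loops qs (.wr .Z ([.u, .u] ++ qs) (xr (.arr .Z ([.u, .u] ++ qs))
          (.arr .X ([.w, .w] ++ qs))))).run N (update e .w m) σ' with hσ2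
        obtain ⟨k1, k2⟩ := run_xor (N := N) .Z [.u, .u] qs (.arr .X ([.w, .w] ++ qs)) qs_nodup
          (by decide) (by simp [Fml.uses]) (update e .w m) σ'
        rw [← hσ2] at k1 k2
        simp only [List.map_cons, List.map_nil, eu, qs_length] at k1 k2
        refine ⟨?_, ?_, ?_⟩
        · rw [hσ2, run_mods _ _ (by simp [mods_loops, mods]), g1]
        · have e1 : qv x (N ^ 4) (blk N σ2.a .Z [e .u, e .u]) =
              qv x (N ^ 4) (blk N σ'.a .Z [e .u, e .u]) +
                qv x (N ^ 4) (blk N σ.a .X [m, m]) := by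
            refine qv_xor x _ fun j hj => ?_
            unfold blk
            rw [k1 _ (dec_ok hj)]
            congr 1
            simp only [Fml.eval]
            rw [List.map_append, upds_map _ qs qs_nodup _ (dec_length 4 j),
              map_upds_of_disj _ qs [.w, .w] _ (by decide), g1]
            simp only [List.map_cons, List.map_nil, ew]
          rw [e1, g2, add_assoc]
        · intro l hl
          rw [k2 l hl, g3 l hl]
      · rw [if_neg (by simpa using h), if_neg h, add_zero]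
        exact ⟨g1, g2, g3⟩)
    (σ := σ) ⟨rfl, by simp, fun _ _ => rfl⟩
  exact key.2

theorem zdiag_spec (e : Va → ℕ) (σ : AS Wa) :
    (∀ u0 < N, qv x (N ^ 4) (blk N (zdiag.run N e σ).a .Z [u0, u0]) =
        qv x (N ^ 4) (blk N σ.a .Z [u0, u0]) +
          ∑ w ∈ range N, (if u0 < w then qv x (N ^ 4) (blk N σ.a .X [w, w]) else 0)) ∧
      ∀ u0 v0, u0 ≠ v0 → ∀ ts, (zdiag.run N e σ).a .Z ([u0, v0] ++ ts) =
        σ.a .Z ([u0, v0] ++ ts) := by
  have key := run_loop (N := N) (x := Va.u) (s := Stmt.loop .w (.ite (.fml (Fml.lt .u .w))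
      (loops qs (.wr .Z ([.u, .u] ++ qs) (xr (.arr .Z ([.u, .u] ++ qs))
        (.arr .X ([.w, .w] ++ qs))))) .skip)) (e := e)
    (fun t σ' => σ'.a .X = σ.a .X ∧
      (∀ u0 < t, qv x (N ^ 4) (blk N σ'.a .Z [u0, u0]) =
        qv x (N ^ 4) (blk N σ.a .Z [u0, u0]) +
          ∑ w ∈ range N, (if u0 < w then qv x (N ^ 4) (blk N σ.a .X [w, w]) else 0)) ∧
      ∀ l, (∀ u0 < t, ∀ ts, OKt N 4 ts → l ≠ [u0, u0] ++ ts) → σ'.a .Z l = σ.a .Z l)
    (by
      rintro t ht σ' ⟨g1, g2, g3⟩
      have eu : update e .u t .u = t := update_self _ _ _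
      obtain ⟨k1, k2⟩ := zinner_spec x (update e .u t) σ'
      rw [eu] at k1 k2
      refine ⟨?_, ?_, ?_⟩
      · rw [run_mods _ _ (by decide), g1]
      · intro u0 hu0
        rcases Nat.lt_or_ge u0 t with h | h
        · rw [← g2 u0 h]
          refine qv_congr x _ fun m hm => ?_
          unfold blk
          exact k2 _ (fun ts _ => prefix_ne rfl (by
            intro h'
            simp only [List.cons.injEq] at h'
            omega))
        · obtain rfl : u0 = t := by omega
          rw [k1]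
          congr 1
          · refine qv_congr x _ fun m hm => ?_
            unfold blk
            exact g3 _ (fun u1 hu1 ts _ => prefix_ne rfl (by
              intro h'
              simp only [List.cons.injEq] at h'
              omega))
          · refine sum_congr rfl fun w _ => ?_
            unfold blk
            rw [g1]
      · intro l hl
        rw [k2 l (hl t (by omega)), g3 l (fun u0 hu0 => hl u0 (by omega))])
    (σ := σ) ⟨rfl, fun u0 h => absurd h (Nat.not_lt_zero _), fun _ _ => rfl⟩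
  refine ⟨key.2.1, fun u0 v0 h ts => ?_⟩
  exact key.2.2 _ (fun u1 _ ts _ => prefix_ne rfl (by
    intro h'
    simp only [List.cons.injEq] at h'
    omega))

theorem step_spec (hx : x ^ (N ^ 4) = 0) (e : Va → ℕ) (σ : AS Wa) :
    MW N x (step.run N e σ).a .X = mu (MW N x σ.a .X) * MW N x σ.a .B := by
  have h1 : step.run N e σ = mul.run N e (zdiag.run N e (zfill.run N e σ)) := rfl
  rw [h1, mul_spec x hx]
  set σ1 := zfill.run N e σ with hσ1
  set σ2 := zdiag.run N e σ1 with hσ2
  have hX1 : σ1.a .X = σ.a .X := run_mods _ _ (by decide) _ _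
  have hB : MW N x σ2.a .B = MW N x σ.a .B := MW_congr x (by
    rw [hσ2, run_mods _ _ (by decide), hσ1, run_mods _ _ (by decide)])
  have hZ : MW N x σ2.a .Z = mu (MW N x σ.a .X) := by
    obtain ⟨k1, k2⟩ := zdiag_spec x (N := N) e σ1
    rw [← hσ2] at k1 k2
    ext u v
    unfold MW mu
    by_cases huv : u = v
    · subst huv
      rw [if_neg (lt_irrefl _), if_pos rfl, k1 u u.2, zfill_spec x e σ u u u.2 u.2,
        if_neg (lt_irrefl _), zero_add,
        ← Fin.sum_univ_eq_sum_range (fun w => if (u : ℕ) < w then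
          qv x (N ^ 4) (blk N σ1.a .X [w, w]) else 0) N]
      refine sum_congr rfl fun w _ => ?_
      simp only [Fin.lt_def]
      unfold blk
      rw [hX1]
    · have huv' : (u : ℕ) ≠ v := fun h => huv (Fin.ext h)
      have e1 : qv x (N ^ 4) (blk N σ2.a .Z [(u : ℕ), (v : ℕ)]) =
          qv x (N ^ 4) (blk N σ1.a .Z [(u : ℕ), (v : ℕ)]) := by
        refine qv_congr x _ fun m _ => ?_
        unfold blk
        exact k2 _ _ huv' _
      rw [e1, zfill_spec x e σ u v u.2 v.2, if_neg huv]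
      rfl
  rw [hZ, hB]

/-- Bird's algorithm computes the determinant. -/
theorem det_spec (hx : x ^ ((N + 1) ^ 4) = 0) (e : Va → ℕ) (σ : AS Wa) :
    qv x ((N + 1) ^ 4) (blk (N + 1) (det.run (N + 1) e σ).a .X [0, 0]) =
      (MW (N + 1) x σ.a .B).det := by
  rw [← bird_det]
  have hseq : det.run (N + 1) e σ = (Stmt.loop .r (.ite (.fml (.ex .z (Fml.lt .r .z))) step
      .skip)).run (N + 1) e ((fill .X ([.u, .v] ++ qs) (.arr .B ([.u, .v] ++ qs))).run (N + 1)
        e σ) := rfl
  rw [hseq]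
  set σ1 := (fill .X ([.u, .v] ++ qs) (.arr .B ([.u, .v] ++ qs))).run (N + 1) e σ with hσ1
  have hB1 : σ1.a .B = σ.a .B := run_mods _ _ (by decide) _ _
  have hX1 : MW (N + 1) x σ1.a .X = MW (N + 1) x σ.a .B := by
    ext u v
    unfold MW
    refine qv_congr x _ fun m hm => ?_
    obtain ⟨e', h1, h2, h3, _, h4⟩ := fill6_spec (N := N + 1) .X
      (.arr .B ([.u, .v] ++ qs)) (by decide) e σ u v (dec (N + 1) 4 m) u.2 v.2 (dec_ok hm)
    unfold blk
    rw [hσ1, h4]
    simp only [Fml.eval]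
    rw [List.map_append, h3]
    simp only [List.map_cons, List.map_nil, h1, h2]
  have key := run_loop (N := N + 1) (x := Va.r) (s := Stmt.ite (.fml (.ex .z (Fml.lt .r .z))) step
      .skip) (e := e)
    (fun t σ' => σ'.a .B = σ.a .B ∧
      MW (N + 1) x σ'.a .X = bird (MW (N + 1) x σ.a .B) (min t N))
    (by
      rintro t ht σ' ⟨g1, g2⟩
      have er : update e .r t .r = t := update_self _ _ _
      have hcond : (Cond.fml (.ex .z (Fml.lt .r .z)) : Cond Va Wa).eval (N + 1) σ'.a
          (update e .r t) = decide (t < N) := by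
        rw [Bool.eq_iff_iff, decide_eq_true_eq]
        simp only [Cond.eval]
        rw [Fml.eval_ex]
        constructor
        · rintro ⟨s, hs, h⟩
          rw [Fml.eval_lt, update_self, update_of_ne (by decide), er] at h
          omega
        · intro h
          refine ⟨N, by omega, ?_⟩
          rw [Fml.eval_lt, update_self, update_of_ne (by decide), er]
          exact h
      simp only [Stmt.run, hcond]
      by_cases h : t < N
      · rw [if_pos (by simpa using h)]
        refine ⟨?_, ?_⟩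
        · rw [run_mods _ _ (by decide), g1]
        · rw [step_spec x hx, g2, MW_congr x g1, min_eq_left h.le, min_eq_left (by omega)]
          rfl
      · rw [if_neg (by simpa using h)]
        refine ⟨g1, ?_⟩
        rw [g2, min_eq_right (by omega), min_eq_right (by omega)])
    (σ := σ1) ⟨hB1, by rw [hX1]; simp [bird]⟩
  have := key.2
  rw [min_eq_right (by omega)] at this
  rw [← this]
  rfl

end Pool.Agent.Lib.MP_0c183c_co
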