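import Pool.Agent.Lib.MP_0c183c_co.Prog
import Pool.Agent.Lib.MP_0c183c_co.Alg

/-! # Specification of shift and multiply-accumulate -/

namespace Pool.Agent.Lib.MP_0c183c_co

open Pool.Agent.Lib.PolyTM Function Finset

set_option linter.unusedSimpArgs false

variable {N : ℕ} {A : Type} [CommRing A] [CharP A 2] (x : A)

theorem qs_nodup : qs.Nodup := by decide
theorem ps_nodup : ps.Nodup := by decide
theorem qs_length : qs.length = 4 := rfl
theorem ps_length : ps.length = 4 := rfl

theorem dec_inj {k m m' : ℕ} (h : m < N ^ k) (h' : m' < N ^ k) (he : dec N k m = dec N k m') :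
    m = m' := by
  rw [← enc_dec h, ← enc_dec h', he]

theorem shiftQ_spec (e : Va → ℕ) (σ : AS Wa) :
    (0 < N ^ 4 → blk N (shiftQ.run N e σ).a .Q [] 0 = false) ∧
      ∀ m, m + 1 < N ^ 4 → blk N (shiftQ.run N e σ).a .Q [] (m + 1) = blk N σ.a .Q [] m := by
  unfold shiftQ
  simp only [Stmt.run]
  set σ1 : AS Wa := { σ with a := update σ.a (.fl 1) (update (σ.a (.fl 1)) (List.map e [])
    (fls.eval N σ.a e)) } with hσ1
  have key := run_num (N := N) (xs := qs) (s := Stmt.seq (.wr (.fl 0) [] (.arr .Q qs))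
    (.seq (.wr .Q qs (.arr (.fl 1) [])) (.wr (.fl 1) [] (.arr (.fl 0) [])))) (e := e)
    (fun m σ' => σ'.a (.fl 1) [] = (if m = 0 then false else σ.a .Q (dec N 4 (m - 1))) ∧
      ∀ j < N ^ 4, σ'.a .Q (dec N 4 j) = if j < m then (if j = 0 then false else
        σ.a .Q (dec N 4 (j - 1))) else σ.a .Q (dec N 4 j))
    (by
      rintro m hm σ' ⟨h1, h2⟩
      have hmap : qs.map (upds e qs (dec N 4 m)) = dec N 4 m :=
        upds_map e qs qs_nodup _ (dec_length 4 m)
      simp only [Stmt.run, Fml.eval, List.map_nil, hmap, qs_length]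
      constructor
      · simp [h2 m hm]
      · intro j hj
        by_cases hjm : j = m
        · subst hjm
          simp [h1]
        · have hne : dec N 4 j ≠ dec N 4 m := fun h => hjm (dec_inj hj hm h)
          have h3 := h2 j hj
          rcases lt_or_gt_of_ne hjm with h4 | h4
          · rw [if_pos h4] at h3
            rw [if_pos (show j < m + 1 by omega), ← h3]
            simp [hne]
          · rw [if_neg (show ¬ j < m by omega)] at h3
            rw [if_neg (show ¬ j < m + 1 by omega), ← h3]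
            simp [hne])
    (σ := σ1) (by
      refine ⟨?_, fun j _ => ?_⟩
      · simp [hσ1, fls, Fml.ff, Fml.eval]
      · simp [hσ1])
  rw [qs_length] at key
  obtain ⟨_, key⟩ := key
  constructor
  · intro h
    unfold blk
    rw [List.nil_append, key 0 h]
    simp [h]
  · intro m hm
    unfold blk
    rw [List.nil_append, List.nil_append, key (m + 1) hm]
    simp [hm]

omit [CharP A 2] in
theorem shiftQ_qv (hx : x ^ (N ^ 4) = 0) (e : Va → ℕ) (σ : AS Wa) :
    qv x (N ^ 4) (blk N (shiftQ.run N e σ).a .Q []) = x * qv x (N ^ 4) (blk N σ.a .Q []) := by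
  obtain ⟨h1, h2⟩ := shiftQ_spec (N := N) e σ
  exact qv_shift x _ hx h1 h2

theorem mac_spec (hx : x ^ (N ^ 4) = 0) (e : Va → ℕ) (σ : AS Wa) :
    qv x (N ^ 4) (blk N (mac.run N e σ).a .X [e .u, e .v]) =
        qv x (N ^ 4) (blk N σ.a .X [e .u, e .v]) +
        qv x (N ^ 4) (blk N σ.a .Z [e .u, e .w]) * qv x (N ^ 4) (blk N σ.a .B [e .w, e .v]) ∧
      ∀ l, (∀ ts, OKt N 4 ts → l ≠ [e .u, e .v] ++ ts) → (mac.run N e σ).a .X l = σ.a .X l := by
  unfold mac
  simp only [Stmt.run]
  set σ1 := (loops qs (.wr .Q ([] ++ qs) (.arr .B ([.w, .v] ++ qs)))).run N e σ with hσ1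
  have hQ := run_block (N := N) .Q [] qs (.arr .B ([.w, .v] ++ qs)) qs_nodup (by simp)
    (by simp [Fml.uses]) e σ
  rw [← hσ1] at hQ
  obtain ⟨_, hQ1, hQ2, _⟩ := hQ
  simp only [List.map_nil] at hQ2
  have hidx : ∀ (xs0 : List Va), (∀ y ∈ xs0, y ∉ qs) → ∀ ts, OKt N 4 ts →
      (xs0 ++ qs).map (upds e qs ts) = xs0.map e ++ ts := by
    intro xs0 h0 ts hts
    rw [List.map_append, upds_map e qs qs_nodup ts hts.1, map_upds_of_disj e qs xs0 ts h0]
  have hq0 : qv x (N ^ 4) (blk N σ1.a .Q []) = qv x (N ^ 4) (blk N σ.a .B [e .w, e .v]) := by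
    refine qv_congr x _ fun m hm => ?_
    unfold blk
    rw [hQ2 (dec N 4 m) (dec_ok hm)]
    simp only [Fml.eval]
    rw [hidx [.w, .v] (by decide) _ (dec_ok hm)]
    rfl
  have key := run_num (N := N) (xs := ps) (s := Stmt.seq (.ite (.fml (.arr .Z ([.u, .w] ++ ps)))
    (loops qs (.wr .X ([.u, .v] ++ qs) (xr (.arr .X ([.u, .v] ++ qs)) (.arr .Q qs)))) .skip)
    shiftQ) (e := e)
    (fun m σ' => σ'.a .Z = σ.a .Z ∧
      qv x (N ^ 4) (blk N σ'.a .Q []) = x ^ m * qv x (N ^ 4) (blk N σ.a .B [e .w, e .v]) ∧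
      qv x (N ^ 4) (blk N σ'.a .X [e .u, e .v]) = qv x (N ^ 4) (blk N σ.a .X [e .u, e .v]) +
        (∑ j ∈ range m, if blk N σ.a .Z [e .u, e .w] j = true then x ^ j else 0) *
          qv x (N ^ 4) (blk N σ.a .B [e .w, e .v]) ∧
      ∀ l, (∀ ts, OKt N 4 ts → l ≠ [e .u, e .v] ++ ts) → σ'.a .X l = σ.a .X l)
    (by
      rintro m hm σ' ⟨h1, h2, h3, h4⟩
      rw [ps_length] at hm ⊢
      set e' := upds e ps (dec N 4 m) with he'
      have heu : e' .u = e .u := upds_notMem _ _ _ (by decide)
      have hev : e' .v = e .v := upds_notMem _ _ _ (by decide)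
      have hew : e' .w = e .w := upds_notMem _ _ _ (by decide)
      have hcond : ((Cond.fml (.arr .Z ([.u, .w] ++ ps)) : Cond Va Wa)).eval N σ'.a e' =
          blk N σ.a .Z [e .u, e .w] m := by
        simp only [Cond.eval, Fml.eval, blk]
        rw [h1, List.map_append, upds_map e ps ps_nodup _ (dec_length 4 m)]
        simp [heu, hew]
      simp only [Stmt.run, hcond]
      by_cases hb : blk N σ.a .Z [e .u, e .w] m = true
      · rw [if_pos hb]
        set σ2 := (loops qs (.wr .X ([.u, .v] ++ qs)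
          (xr (.arr .X ([.u, .v] ++ qs)) (.arr .Q qs)))).run N e' σ' with hσ2
        obtain ⟨g1, g2⟩ := run_xor (N := N) .X [.u, .v] qs (.arr .Q qs) qs_nodup (by decide)
          (by simp [Fml.uses]) e' σ'
        rw [← hσ2] at g1 g2
        have hQ' : σ2.a .Q = σ'.a .Q := run_mods _ _ (by simp [mods_loops, mods]) _ _
        have hZ' : σ2.a .Z = σ'.a .Z := run_mods _ _ (by simp [mods_loops, mods]) _ _
        have hZ'' : (shiftQ.run N e' σ2).a .Z = σ2.a .Z := run_mods _ _ (by decide) _ _
        have hX'' : (shiftQ.run N e' σ2).a .X = σ2.a .X := run_mods _ _ (by decide) _ _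
        refine ⟨by rw [hZ'', hZ', h1], ?_, ?_, ?_⟩
        · rw [shiftQ_qv x hx, pow_succ' x m, mul_assoc, ← h2]
          congr 1
          unfold blk
          rw [hQ']
        · have e1 : qv x (N ^ 4) (blk N (shiftQ.run N e' σ2).a .X [e .u, e .v]) =
              qv x (N ^ 4) (blk N σ'.a .X [e .u, e .v]) + qv x (N ^ 4) (blk N σ'.a .Q []) := by
            refine qv_xor x _ fun j hj => ?_
            have g3 := g1 (dec N 4 j) (dec_ok hj)
            simp only [List.map_cons, List.map_nil, heu, hev] at g3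
            unfold blk
            rw [hX'', g3]
            simp only [Fml.eval]
            rw [upds_map e' qs qs_nodup _ (dec_length 4 j)]
            rfl
          rw [e1, h2, h3, sum_range_succ, if_pos hb]
          ring
        · intro l hl
          rw [hX'', g2 l (fun ts hts => by
            simp only [List.map_cons, List.map_nil, heu, hev]
            exact hl ts hts), h4 l hl]
      · rw [if_neg hb]
        have hZ'' : (shiftQ.run N e' σ').a .Z = σ'.a .Z := run_mods _ _ (by decide) _ _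
        have hX'' : (shiftQ.run N e' σ').a .X = σ'.a .X := run_mods _ _ (by decide) _ _
        refine ⟨by rw [hZ'', h1], ?_, ?_, ?_⟩
        · rw [shiftQ_qv x hx, pow_succ' x m, mul_assoc, ← h2]
        · rw [sum_range_succ, if_neg hb, add_zero]
          unfold blk
          rw [hX'']
          exact h3
        · intro l hl
          rw [hX'', h4 l hl])
    (σ := σ1) (by
      refine ⟨hQ1 .Z (by simp), by rw [hq0, pow_zero, one_mul], ?_, ?_⟩
      · rw [range_zero, sum_empty, zero_mul, add_zero]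
        unfold blk
        rw [hQ1 .X (by simp)]
      · intro l _
        rw [hQ1 .X (by simp)])
  exact ⟨key.2.2.1, key.2.2.2⟩

end Pool.Agent.Lib.MP_0c183c_co
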