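import Pool.Agent.Lib.MP_0c183c_co.SpecBird
import Pool.Agent.Lib.MP_0c183c_co.CharTwo

/-! # Specification of the edge and crossing polynomials -/

namespace Pool.Agent.Lib.MP_0c183c_co

open Pool.Agent.Lib.PolyTM Function Finset

set_option linter.unusedSimpArgs false
set_option linter.unusedSectionVars false

variable {N : ℕ} {A : Type} [CommRing A] [CharP A 2] (x : A)

/-- Masks with natural number indices. -/
def maskN (i k : ℕ) (B : Matrix (Fin N) (Fin N) A) : Matrix (Fin N) (Fin N) A :=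
  fun u v => if ((u : ℕ) = i ∨ (u : ℕ) = k) ↔ ((v : ℕ) = i ∨ (v : ℕ) = k) then B u v else 0

theorem mask_eq_maskN (i k : Fin N) (B : Matrix (Fin N) (Fin N) A) :
    mask i k B = maskN i k B := by
  ext u v
  simp only [mask, maskN, Fin.ext_iff]

theorem x00_eval (a : Arr Wa) (e : Va → ℕ) :
    x00.eval (N + 1) a e = a .X ([0, 0] ++ qs.map e) := by
  have hmap : ∀ t, qs.map (update e .z t) = qs.map e := by
    intro t
    refine List.map_congr_left fun y hy => update_of_ne ?_ _ _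
    rintro rfl
    revert hy
    decide
  have key : ∀ t < N + 1, (Fml.and (.not (.ex .w (Fml.lt .w .z)))
      (.arr .X ([.z, .z] ++ qs)) : FF).eval (N + 1) a (update e .z t) = true ↔
      t = 0 ∧ a .X ([t, t] ++ qs.map e) = true := by
    intro t ht
    rw [Fml.eval_and, Fml.eval_not, Fml.eval_ex]
    apply and_congr
    · constructor
      · intro h
        by_contra h0
        apply h
        refine ⟨0, by omega, ?_⟩
        rw [Fml.eval_lt, update_self, update_of_ne (by decide), update_self]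
        omega
      · rintro rfl ⟨s, hs, h⟩
        rw [Fml.eval_lt, update_self, update_of_ne (by decide), update_self] at h
        omega
    · simp only [Fml.eval]
      rw [List.map_append, hmap]
      simp
  rw [Bool.eq_iff_iff]
  unfold x00
  rw [Fml.eval_ex]
  constructor
  · rintro ⟨t, ht, h⟩
    obtain ⟨rfl, h2⟩ := (key t ht).1 h
    exact h2
  · intro h
    exact ⟨0, by omega, (key 0 (by omega)).2 ⟨rfl, h⟩⟩

theorem msk_eval (a : Arr Wa) (e : Va → ℕ) (p q : Va) :
    (msk p q).eval N a e = true ↔ ((e .u = e p ∨ e .u = e q) ↔ (e .v = e p ∨ e .v = e q)) := by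
  unfold msk
  simp only [Fml.eval_or, Fml.eval_and, Fml.eval_not, Fml.eval_eq]
  tauto

/-- Filling `B` with a masked matrix. -/
theorem fillB_spec (φ : FF) (hφ : Wa.B ∉ φ.uses) (M : Matrix (Fin N) (Fin N) A)
    (σ : AS Wa) (e : Va → ℕ) (P : ℕ → ℕ → Prop) [∀ u v, Decidable (P u v)]
    (hP : ∀ e' : Va → ℕ, (∀ y, y ∉ [Va.u, .v] ++ qs → e' y = e y) →
      (φ.eval N σ.a e' = true ↔ P (e' .u) (e' .v) ∧ σ.a .y ([e' .u, e' .v] ++ qs.map e') = true))
    (hM : ∀ u v : Fin N, M u v = if P u v then MW N x σ.a .y u v else 0) :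
    MW N x ((fill .B ([.u, .v] ++ qs) φ).run N e σ).a .B = M := by
  ext u v
  rw [hM]
  have key : ∀ m < N ^ 4, blk N ((fill .B ([.u, .v] ++ qs) φ).run N e σ).a .B [(u : ℕ), (v : ℕ)] m =
      (decide (P u v) && blk N σ.a .y [(u : ℕ), (v : ℕ)] m) := by
    intro m hm
    obtain ⟨e', h1, h2, h3, h5, h4⟩ := fill6_spec (N := N) .B φ hφ e σ u v (dec N 4 m) u.2 v.2
      (dec_ok hm)
    unfold blk
    rw [h4, Bool.eq_iff_iff, hP e' h5, h1, h2, h3]
    simp
  unfold MW
  split_ifs with h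
  · refine qv_congr x _ fun m hm => ?_
    rw [key m hm]
    simp [h]
  · refine qv_false x _ fun m hm => ?_
    rw [key m hm]
    simp [h]

theorem edgeBody_spec (hx : x ^ ((N + 1) ^ 4) = 0) (e : Va → ℕ) (σ : AS Wa) :
    qv x ((N + 1) ^ 4) (blk (N + 1) ((Stmt.seq (fill .B ([.u, .v] ++ qs)
      (.and (msk .i .k) (.arr .y ([.u, .v] ++ qs))))
      (.seq det (loops qs (.wr .F ([.i, .k] ++ qs) x00)))).run (N + 1) e σ).a .F [e .i, e .k]) =
      (maskN (e .i) (e .k) (MW (N + 1) x σ.a .y)).det ∧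
    ∀ l, (∀ ts, OKt (N + 1) 4 ts → l ≠ [e .i, e .k] ++ ts) →
      ((Stmt.seq (fill .B ([.u, .v] ++ qs)
      (.and (msk .i .k) (.arr .y ([.u, .v] ++ qs))))
      (.seq det (loops qs (.wr .F ([.i, .k] ++ qs) x00)))).run (N + 1) e σ).a .F l = σ.a .F l := by
  set σ1 := (fill .B ([.u, .v] ++ qs) (.and (msk .i .k)
    (.arr .y ([.u, .v] ++ qs)))).run (N + 1) e σ with hσ1
  set σ2 := det.run (N + 1) e σ1 with hσ2
  have hseq : (Stmt.seq (fill .B ([.u, .v] ++ qs)
      (.and (msk .i .k) (.arr .y ([.u, .v] ++ qs))))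
      (.seq det (loops qs (.wr .F ([.i, .k] ++ qs) x00)))).run (N + 1) e σ =
      (loops qs (.wr .F ([.i, .k] ++ qs) x00)).run (N + 1) e σ2 := rfl
  rw [hseq]
  have hB : MW (N + 1) x σ1.a .B = maskN (e .i) (e .k) (MW (N + 1) x σ.a .y) := by
    refine fillB_spec x _ (by decide) _ σ e
      (fun u v => ((u = e .i ∨ u = e .k) ↔ (v = e .i ∨ v = e .k))) ?_ ?_
    · intro e' he'
      rw [Fml.eval_and, msk_eval, he' .i (by decide), he' .k (by decide)]
      simp only [Fml.eval]
      rw [List.map_append]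
      rfl
    · intro u v
      rfl
  have hdet := det_spec x hx e σ1
  rw [← hσ2, hB] at hdet
  have hF : σ2.a .F = σ.a .F := by
    rw [hσ2, run_mods _ _ (by decide), hσ1, run_mods _ _ (by decide)]
  obtain ⟨_, _, k1, k2⟩ := run_block (N := N + 1) .F [.i, .k] qs x00 qs_nodup (by decide)
    (by decide) e σ2
  simp only [List.map_cons, List.map_nil, qs_length] at k1 k2
  refine ⟨?_, fun l hl => ?_⟩
  · rw [← hdet]
    refine qv_congr x _ fun m hm => ?_
    unfold blk
    rw [k1 _ (dec_ok hm), x00_eval, upds_map _ qs qs_nodup _ (dec_length 4 m)]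
  · rw [k2 l hl, hF]

theorem edges_spec (hx : x ^ ((N + 1) ^ 4) = 0) (e : Va → ℕ) (σ : AS Wa) (i0 k0 : ℕ)
    (hi : i0 < N + 1) (hk : k0 < N + 1) :
    (i0 < k0 → qv x ((N + 1) ^ 4) (blk (N + 1) (edges.run (N + 1) e σ).a .F [i0, k0]) =
      (maskN i0 k0 (MW (N + 1) x σ.a .y)).det) ∧
    (¬ i0 < k0 → ∀ ts, (edges.run (N + 1) e σ).a .F ([i0, k0] ++ ts) =
      σ.a .F ([i0, k0] ++ ts)) := by
  have hcond : ∀ (t s : ℕ) (a : Arr Wa), (Cond.fml (Fml.lt .i .k) : Cond Va Wa).eval (N + 1) a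
      (upds e [Va.i, Va.k] [t, s]) = decide (t < s) := by
    intro t s a
    rw [Bool.eq_iff_iff, decide_eq_true_eq]
    simp only [Cond.eval]
    rw [Fml.eval_lt]
    simp [upds]
  have hei : ∀ t s : ℕ, upds e [Va.i, Va.k] [t, s] .i = t := by intro t s; simp [upds]
  have hek : ∀ t s : ℕ, upds e [Va.i, Va.k] [t, s] .k = s := by intro t s; simp [upds]
  have key := run_loops (N := N + 1) (xs := [Va.i, Va.k]) (s := Stmt.ite (.fml (Fml.lt .i .k))
    (.seq (fill .B ([.u, .v] ++ qs) (.and (msk .i .k) (.arr .y ([.u, .v] ++ qs))))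
      (.seq det (loops qs (.wr .F ([.i, .k] ++ qs) x00)))) .skip) (e := e)
    (fun σ' => σ'.a .y = σ.a .y ∧ ∀ i k, ¬ i < k → ∀ ts, σ'.a .F ([i, k] ++ ts) =
      σ.a .F ([i, k] ++ ts))
    (fun ts σ' => ts.getD 0 0 < ts.getD 1 0 → qv x ((N + 1) ^ 4) (blk (N + 1) σ'.a .F ts) =
      (maskN (ts.getD 0 0) (ts.getD 1 0) (MW (N + 1) x σ.a .y)).det)
    (by
      intro ts hts σ' ⟨g1, g2⟩
      obtain ⟨t, s, rfl, ht, hs⟩ := hts.two
      simp only [Stmt.run, hcond]
      by_cases h : t < s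
      · rw [if_pos (by simpa using h)]
        have hb := edgeBody_spec x hx (upds e [Va.i, Va.k] [t, s]) σ'
        rw [hei, hek] at hb
        obtain ⟨b1, b2⟩ := hb
        refine ⟨⟨?_, ?_⟩, ?_⟩
        · change ((Stmt.seq (fill .B ([.u, .v] ++ qs)
            (.and (msk .i .k) (.arr .y ([.u, .v] ++ qs))))
            (.seq det (loops qs (.wr .F ([.i, .k] ++ qs) x00)))).run (N + 1)
              (upds e [Va.i, Va.k] [t, s]) σ').a .y = _
          rw [run_mods _ _ (by decide), g1]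
        · intro i k hik us
          rw [← g2 i k hik us]
          exact b2 _ (fun ts _ => prefix_ne rfl (by
            intro h'
            simp only [List.cons.injEq] at h'
            omega))
        · intro _
          refine b1.trans ?_
          rw [MW_congr x g1]
          rfl
      · rw [if_neg (by simpa using h)]
        exact ⟨⟨g1, g2⟩, fun h' => absurd h' h⟩)
    (by
      intro ts ts' hts hts' σ' ⟨g1, g2⟩ hP
      obtain ⟨t, s, rfl, ht, hs⟩ := hts.two
      obtain ⟨t', s', rfl, ht', hs'⟩ := hts'.two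
      simp only [Stmt.run, hcond]
      by_cases h : t' < s'
      · rw [if_pos (by simpa using h)]
        have hb := edgeBody_spec x hx (upds e [Va.i, Va.k] [t', s']) σ'
        rw [hei, hek] at hb
        obtain ⟨b1, b2⟩ := hb
        intro hlt
        by_cases hne : [t, s] = [t', s']
        · rw [hne]
          refine b1.trans ?_
          rw [MW_congr x g1]
          rfl
        · rw [← hP hlt]
          refine qv_congr x _ fun m hm => ?_
          unfold blk
          exact b2 _ (fun ts _ => prefix_ne rfl hne)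
      · rw [if_neg (by simpa using h)]
        exact hP)
    (σ := σ) ⟨rfl, fun _ _ _ _ => rfl⟩
  refine ⟨fun h => ?_, fun h ts => key.1.2 i0 k0 h ts⟩
  exact key.2 [i0, k0] (okt_two hi hk) h

theorem crossBody_spec (hx : x ^ ((N + 1) ^ 4) = 0) (e : Va → ℕ) (σ : AS Wa) :
    qv x ((N + 1) ^ 4) (blk (N + 1) ((Stmt.seq (fill .B ([.u, .v] ++ qs) (.and (msk .i .k)
      (.and (msk .j .l) (.arr .y ([.u, .v] ++ qs)))))
      (.seq det (loops qs (.wr .S ([] ++ qs) (xr (.arr .S ([] ++ qs)) x00))))).run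
        (N + 1) e σ).a .S []) =
      qv x ((N + 1) ^ 4) (blk (N + 1) σ.a .S []) +
      (maskN (e .i) (e .k) (maskN (e .j) (e .l) (MW (N + 1) x σ.a .y))).det := by
  set σ1 := (fill .B ([.u, .v] ++ qs) (.and (msk .i .k)
      (.and (msk .j .l) (.arr .y ([.u, .v] ++ qs))))).run (N + 1) e σ with hσ1
  set σ2 := det.run (N + 1) e σ1 with hσ2
  have hseq : (Stmt.seq (fill .B ([.u, .v] ++ qs) (.and (msk .i .k)
      (.and (msk .j .l) (.arr .y ([.u, .v] ++ qs)))))
      (.seq det (loops qs (.wr .S ([] ++ qs) (xr (.arr .S ([] ++ qs)) x00))))).run (N + 1) e σ =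
      (loops qs (.wr .S ([] ++ qs) (xr (.arr .S ([] ++ qs)) x00))).run (N + 1) e σ2 := rfl
  rw [hseq]
  have hB : MW (N + 1) x σ1.a .B = maskN (e .i) (e .k) (maskN (e .j) (e .l)
      (MW (N + 1) x σ.a .y)) := by
    refine fillB_spec x _ (by decide) _ σ e
      (fun u v => ((u = e .i ∨ u = e .k) ↔ (v = e .i ∨ v = e .k)) ∧
        ((u = e .j ∨ u = e .l) ↔ (v = e .j ∨ v = e .l))) ?_ ?_
    · intro e' he'
      rw [Fml.eval_and, Fml.eval_and, msk_eval, msk_eval, he' .i (by decide),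
        he' .k (by decide), he' .j (by decide), he' .l (by decide), and_assoc]
      simp only [Fml.eval]
      rw [List.map_append]
      rfl
    · intro u v
      simp only [maskN]
      by_cases h1 : ((u : ℕ) = e .i ∨ (u : ℕ) = e .k) ↔ ((v : ℕ) = e .i ∨ (v : ℕ) = e .k)
      · by_cases h2 : ((u : ℕ) = e .j ∨ (u : ℕ) = e .l) ↔ ((v : ℕ) = e .j ∨ (v : ℕ) = e .l)
        · rw [if_pos h1, if_pos h2, if_pos ⟨h1, h2⟩]
        · rw [if_pos h1, if_neg h2, if_neg (fun h => h2 h.2)]
      · rw [if_neg h1, if_neg (fun h => h1 h.1)]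
  have hdet := det_spec x hx e σ1
  rw [← hσ2, hB] at hdet
  have hS : σ2.a .S = σ.a .S := by
    rw [hσ2, run_mods _ _ (by decide), hσ1, run_mods _ _ (by decide)]
  obtain ⟨k1, _⟩ := run_xor (N := N + 1) .S [] qs x00 qs_nodup (by simp)
    (by decide) e σ2
  simp only [List.map_nil, qs_length] at k1
  rw [← hdet]
  refine qv_xor x _ fun m hm => ?_
  unfold blk
  rw [k1 _ (dec_ok hm), x00_eval, upds_map _ qs qs_nodup _ (dec_length 4 m), hS]

/-- The terms of the crossing polynomial. -/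
def crTerm (M : Matrix (Fin N) (Fin N) A) (i j k l : ℕ) : A :=
  if i < j ∧ j < k ∧ k < l then (maskN i k (maskN j l M)).det else 0

theorem cross_spec (hx : x ^ ((N + 1) ^ 4) = 0) (e : Va → ℕ) (σ : AS Wa) :
    qv x ((N + 1) ^ 4) (blk (N + 1) (cross.run (N + 1) e σ).a .S []) =
      qv x ((N + 1) ^ 4) (blk (N + 1) σ.a .S []) +
      ∑ i ∈ range (N + 1), ∑ j ∈ range (N + 1), ∑ k ∈ range (N + 1), ∑ l ∈ range (N + 1),
        crTerm (MW (N + 1) x σ.a .y) i j k l := by
  have key := run_num (N := N + 1) (xs := [Va.i, .j, .k, .l]) (s := Stmt.ite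
    (.fml (.and (Fml.lt .i .j) (.and (Fml.lt .j .k) (Fml.lt .k .l))))
    (.seq (fill .B ([.u, .v] ++ qs) (.and (msk .i .k) (.and (msk .j .l)
      (.arr .y ([.u, .v] ++ qs)))))
      (.seq det (loops qs (.wr .S ([] ++ qs) (xr (.arr .S ([] ++ qs)) x00))))) .skip) (e := e)
    (fun m σ' => σ'.a .y = σ.a .y ∧
      qv x ((N + 1) ^ 4) (blk (N + 1) σ'.a .S []) = qv x ((N + 1) ^ 4) (blk (N + 1) σ.a .S []) +
        ∑ t ∈ range m, (fun ts : List ℕ => crTerm (MW (N + 1) x σ.a .y) (ts.getD 0 0)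
          (ts.getD 1 0) (ts.getD 2 0) (ts.getD 3 0)) (dec (N + 1) 4 t))
    (by
      rintro m hm σ' ⟨g1, g2⟩
      have hlen : [Va.i, .j, .k, .l].length = 4 := rfl
      rw [hlen] at hm ⊢
      have hd := dec_ok hm
      obtain ⟨t0, t1, t2, t3, hts⟩ : ∃ t0 t1 t2 t3, dec (N + 1) 4 m = [t0, t1, t2, t3] := by
        simp [dec]
      rw [sum_range_succ, hts]
      have ei : upds e [Va.i, .j, .k, .l] [t0, t1, t2, t3] .i = t0 := by simp [upds]
      have ej : upds e [Va.i, .j, .k, .l] [t0, t1, t2, t3] .j = t1 := by simp [upds]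
      have ek : upds e [Va.i, .j, .k, .l] [t0, t1, t2, t3] .k = t2 := by simp [upds]
      have el : upds e [Va.i, .j, .k, .l] [t0, t1, t2, t3] .l = t3 := by simp [upds]
      have hcond : (Cond.fml (.and (Fml.lt .i .j) (.and (Fml.lt .j .k) (Fml.lt .k .l))) :
          Cond Va Wa).eval (N + 1) σ'.a (upds e [Va.i, .j, .k, .l] [t0, t1, t2, t3]) =
          decide (t0 < t1 ∧ t1 < t2 ∧ t2 < t3) := by
        rw [Bool.eq_iff_iff, decide_eq_true_eq]
        simp only [Cond.eval]
        rw [Fml.eval_and, Fml.eval_and, Fml.eval_lt, Fml.eval_lt, Fml.eval_lt, ei, ej, ek, el]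
      simp only [Stmt.run, hcond]
      by_cases h : t0 < t1 ∧ t1 < t2 ∧ t2 < t3
      · rw [if_pos (by simpa using h)]
        have hb := crossBody_spec x hx (upds e [Va.i, .j, .k, .l] [t0, t1, t2, t3]) σ'
        rw [ei, ej, ek, el] at hb
        refine ⟨?_, ?_⟩
        · change ((Stmt.seq (fill .B ([.u, .v] ++ qs) (.and (msk .i .k) (.and (msk .j .l)
            (.arr .y ([.u, .v] ++ qs)))))
            (.seq det (loops qs (.wr .S ([] ++ qs) (xr (.arr .S ([] ++ qs)) x00))))).run (N + 1)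
              (upds e [Va.i, .j, .k, .l] [t0, t1, t2, t3]) σ').a .y = _
          rw [run_mods _ _ (by decide), g1]
        · refine hb.trans ?_
          rw [g2, MW_congr x g1, add_assoc]
          congr 2
          simp [crTerm, h]
      · rw [if_neg (by simpa using h)]
        refine ⟨g1, ?_⟩
        rw [g2]
        congr 1
        simp only [List.getD_cons_zero, List.getD_cons_succ, crTerm, h, if_false, add_zero])
    (σ := σ) ⟨rfl, by simp⟩
  have hlen : [Va.i, .j, .k, .l].length = 4 := rfl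
  rw [hlen] at key
  refine key.2.trans ?_
  congr 1
  set g : List ℕ → A := fun ts => crTerm (MW (N + 1) x σ.a .y) (ts.getD 0 0)
          (ts.getD 1 0) (ts.getD 2 0) (ts.getD 3 0) with hg
  refine (sum_dec (N + 1) 3 g).trans ?_
  refine sum_congr rfl fun i _ => ?_
  refine (sum_dec (N + 1) 2 (fun ts => g (i :: ts))).trans ?_
  refine sum_congr rfl fun j _ => ?_
  refine (sum_dec (N + 1) 1 (fun ts => g (i :: j :: ts))).trans ?_
  refine sum_congr rfl fun k _ => ?_
  refine (sum_dec (N + 1) 0 (fun ts => g (i :: j :: k :: ts))).trans ?_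
  refine sum_congr rfl fun l _ => ?_
  simp [dec, hg]

end Pool.Agent.Lib.MP_0c183c_co
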