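import Pool.Agent.Lib.MP_0c183c_co.Kast

/-! # Pfaffian graphs are those whose crossing parities are linear -/

namespace Pool.Agent.Lib.MP_0c183c_co

open Finset

section walks

variable {V : Type} {G : SimpleGraph V}

open Classical in
theorem darts_count {u v : V} (w : G.Walk u v) (P : V → V → Prop) :
    ((w.darts.countP fun d => P d.fst d.snd : ℕ) : ZMod 2) =
      ∑ i ∈ range w.length, if P (w.getVert i) (w.getVert (i + 1)) then 1 else 0 := by
  induction w with
  | nil => simp
  | cons h p ih =>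
    rw [SimpleGraph.Walk.darts_cons, List.countP_cons, SimpleGraph.Walk.length_cons,
      sum_range_succ', Nat.cast_add, ih]
    congr 1
    simp only [SimpleGraph.Walk.getVert_zero, zero_add]
    have : (SimpleGraph.Walk.cons h p).getVert 1 = p.getVert 0 :=
      SimpleGraph.Walk.getVert_cons_succ _ _
    rw [this, SimpleGraph.Walk.getVert_zero]
    split_ifs <;> simp_all

theorem exists_walk (c : ℕ → V) (k : ℕ) (h : ∀ i < k, G.Adj (c i) (c (i + 1))) :
    ∃ w : G.Walk (c 0) (c k), w.length = k ∧ ∀ i ≤ k, w.getVert i = c i := by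
  induction k with
  | zero => exact ⟨.nil, rfl, fun i hi => by
      obtain rfl : i = 0 := by omega
      rfl⟩
  | succ k ih =>
    obtain ⟨w, hw, hv⟩ := ih fun i hi => h i (by omega)
    refine ⟨w.concat (h k (by omega)), by rw [SimpleGraph.Walk.length_concat, hw], ?_⟩
    intro i hi
    rw [SimpleGraph.Walk.concat_eq_append, SimpleGraph.Walk.getVert_append]
    rw [hw]
    split_ifs with h'
    · rw [hv i (by omega)]
    · rcases Nat.lt_or_ge k i with h1 | h1
      · obtain rfl : i = k + 1 := by omega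
        have : k + 1 - k = 1 := by omega
        rw [this]
        simp
      · obtain rfl : i = k := by omega
        simp

theorem exists_cycle (c : ℕ → V) (k : ℕ) (hk : 3 ≤ k) (h : ∀ i < k, G.Adj (c i) (c (i + 1)))
    (hinj : ∀ i < k, ∀ j < k, c i = c j → i = j) (hck : c k = c 0) :
    ∃ w : G.Walk (c 0) (c 0), w.IsCycle ∧ w.length = k ∧ ∀ i ≤ k, w.getVert i = c i := by
  obtain ⟨k, rfl⟩ : ∃ k', k = k' + 1 := ⟨k - 1, by omega⟩
  obtain ⟨p, hp, hpv⟩ := exists_walk (fun i => c (i + 1)) k (fun i hi => h (i + 1) (by omega))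
  set p' : G.Walk (c 1) (c 0) := p.copy rfl hck with hp'
  have hpl : p'.length = k := by rw [hp', SimpleGraph.Walk.length_copy, hp]
  have hpv' : ∀ i ≤ k, p'.getVert i = c (i + 1) := by
    intro i hi
    rw [hp', SimpleGraph.Walk.getVert_copy]
    exact hpv i hi
  have hinj' : ∀ i ≤ k, ∀ j ≤ k, c (i + 1) = c (j + 1) → i = j := by
    intro i hi j hj hij
    rcases Nat.lt_or_ge i k with h1 | h1
    · rcases Nat.lt_or_ge j k with h2 | h2
      · have := hinj _ (by omega) _ (by omega) hij
        omega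
      · have : j = k := by omega
        subst this
        rw [hck] at hij
        have := hinj _ (by omega) _ (by omega) hij
        omega
    · have : i = k := by omega
      subst this
      rcases Nat.lt_or_ge j i with h2 | h2
      · rw [hck] at hij
        have := hinj _ (by omega) _ (by omega) hij
        omega
      · omega
  refine ⟨SimpleGraph.Walk.cons (h 0 (by omega)) p', ?_, ?_, ?_⟩
  · rw [SimpleGraph.Walk.cons_isCycle_iff]
    constructor
    · rw [← SimpleGraph.Walk.IsPath.getVert_injOn_iff]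
      intro i hi j hj hij
      simp only [Set.mem_ofPred_eq, hpl] at hi hj
      rw [hpv' i hi, hpv' j hj] at hij
      exact hinj' i hi j hj hij
    · intro he
      rw [SimpleGraph.Walk.edges, List.mem_map] at he
      obtain ⟨d, hd, hde⟩ := he
      rw [List.mem_iff_getElem] at hd
      obtain ⟨i, hi, rfl⟩ := hd
      rw [SimpleGraph.Walk.length_darts, hpl] at hi
      rw [SimpleGraph.Walk.darts_getElem_eq_getVert] at hde
      simp only [SimpleGraph.dart_edge_eq_mk'_iff'] at hde
      rw [hpv' i (by omega), hpv' (i + 1) (by omega)] at hde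
      rcases hde with ⟨h1, h2⟩ | ⟨h1, h2⟩
      · have := hinj' i (by omega) k le_rfl (by rw [h1, hck])
        omega
      · have e1 := hinj' i (by omega) 0 (by omega) h1
        have e2 := hinj' (i + 1) (by omega) k le_rfl (by rw [h2, hck])
        omega
  · rw [SimpleGraph.Walk.length_cons, hpl]
  · intro i hi
    rcases Nat.eq_zero_or_pos i with rfl | hi'
    · simp
    · obtain ⟨j, rfl⟩ : ∃ j, i = j + 1 := ⟨i - 1, by omega⟩
      rw [SimpleGraph.Walk.getVert_cons_succ, hpv' j (by omega)]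

end walks

variable {n : ℕ}

/-- Perfect matchings from relations. -/
theorem exists_pm (R : Fin n → Fin n → Prop) (hs : ∀ u v, R u v → R v u) (hex : ∀ u, ∃ v, R u v)
    (hu : ∀ u v w, R u v → R u w → v = w) (hirr : ∀ u, ¬ R u u) :
    ∃ m : Equiv.Perm (Fin n), IsPM m ∧ ∀ u, R u (m u) := by
  choose f hf using hex
  have hff : ∀ u, f (f u) = u := fun u => hu (f u) _ _ (hf (f u)) (hs _ _ (hf u))
  refine ⟨⟨f, f, hff, hff⟩, fun v => ⟨?_, hff v⟩, hf⟩
  intro h
  have := hf v
  change f v = v at h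
  rw [h] at this
  exact hirr v this

theorem exists_pm_cycle {G : SimpleGraph (Fin n)} (M : G.Subgraph) (hM : M.IsMatching)
    (c : ℕ → Fin n) (l : ℕ) (hinj : ∀ i < 2 * l, ∀ j < 2 * l, c i = c j → i = j)
    (hsupp : ∀ v, v ∈ M.verts ↔ ∀ i < 2 * l, c i ≠ v)
    (hadj : ∀ i < l, G.Adj (c (2 * i)) (c (2 * i + 1))) :
    ∃ m : Equiv.Perm (Fin n), IsPM m ∧ InG G m ∧ (∀ i < l, m (c (2 * i)) = c (2 * i + 1)) ∧
      ∀ v ∈ M.verts, M.Adj v (m v) := by
  set R : Fin n → Fin n → Prop := fun u v => M.Adj u v ∨ ∃ i < l,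
    (u = c (2 * i) ∧ v = c (2 * i + 1)) ∨ (v = c (2 * i) ∧ u = c (2 * i + 1)) with hR
  have hMc : ∀ u v, M.Adj u v → ∀ i < 2 * l, c i ≠ u := fun u v h => (hsupp u).1 (M.edge_vert h)
  have hx : ∃ m : Equiv.Perm (Fin n), IsPM m ∧ ∀ u, R u (m u) := by
    refine exists_pm R ?_ ?_ ?_ ?_
    · rintro u v (h | ⟨i, hi, h | h⟩)
      · exact Or.inl h.symm
      · exact Or.inr ⟨i, hi, Or.inr h⟩
      · exact Or.inr ⟨i, hi, Or.inl h⟩
    · intro u
      by_cases hu : u ∈ M.verts
      · obtain ⟨w, hw, _⟩ := hM hu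
        exact ⟨w, Or.inl hw⟩
      · rw [hsupp] at hu
        push Not at hu
        obtain ⟨i, hi, rfl⟩ := hu
        obtain ⟨j, rfl | rfl⟩ : ∃ j, i = 2 * j ∨ i = 2 * j + 1 := ⟨i / 2, by omega⟩
        · exact ⟨_, Or.inr ⟨j, by omega, Or.inl ⟨rfl, rfl⟩⟩⟩
        · exact ⟨_, Or.inr ⟨j, by omega, Or.inr ⟨rfl, rfl⟩⟩⟩
    · rintro u v w (h | ⟨i, hi, ⟨h1, h2⟩ | ⟨h1, h2⟩⟩) (h' | ⟨j, hj, ⟨h3, h4⟩ | ⟨h3, h4⟩⟩)
      · obtain ⟨x, _, hx⟩ := hM (M.edge_vert h)
        rw [hx v h, hx w h']
      · exact absurd h3.symm (hMc _ _ h _ (by omega))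
      · exact absurd h4.symm (hMc _ _ h _ (by omega))
      · exact absurd h1.symm (hMc _ _ h' _ (by omega))
      · have := hinj _ (by omega) _ (by omega) (h1.symm.trans h3)
        have : i = j := by omega
        rw [h2, h4, this]
      · have := hinj _ (by omega) _ (by omega) (h1.symm.trans h4)
        omega
      · exact absurd h2.symm (hMc _ _ h' _ (by omega))
      · have := hinj _ (by omega) _ (by omega) (h2.symm.trans h3)
        omega
      · have := hinj _ (by omega) _ (by omega) (h2.symm.trans h4)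
        have : i = j := by omega
        rw [h1, h3, this]
    · rintro u (h | ⟨i, hi, ⟨h1, h2⟩ | ⟨h1, h2⟩⟩)
      · exact h.ne rfl
      · have := hinj _ (by omega) _ (by omega) (h1.symm.trans h2)
        omega
      · have := hinj _ (by omega) _ (by omega) (h1.symm.trans h2)
        omega
  obtain ⟨m, hm, hmR⟩ := hx
  · refine ⟨m, hm, ?_, ?_, ?_⟩
    · intro v
      rcases hmR v with h | ⟨i, hi, ⟨h1, h2⟩ | ⟨h1, h2⟩⟩
      · exact M.adj_sub h
      · rw [h1, ← h1, h2, h1]
        exact hadj i hi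
      · rw [h1, h2]
        exact (hadj i hi).symm
    · intro i hi
      rcases hmR (c (2 * i)) with h | ⟨j, hj, ⟨h1, h2⟩ | ⟨h1, h2⟩⟩
      · exact absurd rfl (hMc _ _ h (2 * i) (by omega))
      · have := hinj _ (by omega) _ (by omega) h1
        have : i = j := by omega
        rw [h2, this]
      · have := hinj _ (by omega) _ (by omega) h2
        omega
    · intro v hv
      rcases hmR v with h | ⟨j, hj, ⟨h1, h2⟩ | ⟨h1, h2⟩⟩
      · exact h
      · exact absurd h1.symm ((hsupp v).1 hv _ (by omega))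
      · exact absurd h2.symm ((hsupp v).1 hv _ (by omega))

end Pool.Agent.Lib.MP_0c183c_co
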